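import Pool.Agent.D0H68.TU.Mod

/-! Tuples of adapted events: versions with additive errors. -/

set_option autoImplicit false

open MeasureTheory Filter Finset
open scoped Topology

namespace Pool.Agent.D0H68.TU

open Pool.Agent.D0H68.SD

variable {Ω : Type} {m0 : MeasurableSpace Ω} {μ : Measure Ω} [IsProbabilityMeasure μ]
  {ℱ : Filtration ℕ m0} {S : ℕ → Set Ω}

section
variable {ι : Type} [Countable ι] {a : ℕ → ℝ} (ha0 : ∀ n, 0 ≤ a n) (ha1 : ∀ n, a n ≤ 1)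
  {f : ι → ℕ → ℕ → ℕ} {k : ℕ} {J : ι → Finset ℕ} (hf : ∀ i, OK (f i) k (J i)) {t : ι → ℝ}
  (ht : Summable fun i => Real.exp (-t i)) (hS : ∀ n, MeasurableSet[ℱ n] (S n))

include ha0 ha1 hf ht hS in
/-- **Lower bound for tuples.** -/
theorem tuples_low' (h : ∀ᵐ ω ∂μ, ∃ c : ℝ, 0 < c ∧ ∀ᶠ n : ℕ in atTop, c * a (n + 1) ≤ Pr μ ℱ S n ω)
    {E : ι → ℝ} (hEd : ∀ i, E i = ∑ m ∈ J i, ∏ j ∈ range k, a (f i j m)) :
    ∀ᵐ ω ∂μ, ∃ κ : ℝ, 0 < κ ∧ ∃ C : ℝ, 0 ≤ C ∧ ∀ᶠ i in cofinite,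
      κ * E i - C * t i ≤ Nn S a (f i) k (J i) k ω := by
  have hP : ∀ᵐ ω ∂μ, ∀ n, 0 ≤ Pr μ ℱ S n ω ∧ Pr μ ℱ S n ω ≤ 1 := ae_all_iff.2 fun n => Pr_bd hS n
  filter_upwards [stages ha0 ha1 hf ht hS, h, hP] with ω h1 h2 h3
  obtain ⟨c', hc', h4⟩ := h2
  obtain ⟨n0, h5⟩ := eventually_atTop.1 h4
  set c : ℝ := min c' 1 with hc
  have hc0 : 0 < c := lt_min hc' one_pos
  have hc1 : c ≤ 1 := min_le_right _ _
  have h6 : ∀ n, n0 ≤ n → c * a (n + 1) ≤ Pr μ ℱ S n ω := fun n hn =>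
    (mul_le_mul_of_nonneg_right (min_le_left _ _) (ha0 _)).trans (h5 n hn)
  refine ⟨(c / 2) ^ k, by positivity, k * (n0 + 2), by positivity, ?_⟩
  have h7 : ∀ᶠ i in cofinite, ∀ r < k,
      c / 2 * Nn S a (f i) k (J i) r ω - (n0 + 2 * t i) ≤ Nn S a (f i) k (J i) (r + 1) ω := by
    have h8 : ∀ r ∈ range k, ∀ᶠ i in cofinite,
      c / 2 * Nn S a (f i) k (J i) r ω - (n0 + 2 * t i) ≤ Nn S a (f i) k (J i) (r + 1) ω := by
      intro r hr
      rw [mem_range] at hr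
      filter_upwards [h1 0 r hr] with i h9
      have h10 := An_low (μ := μ) (ℱ := ℱ) ha0 ha1 (hf i) hr (fun n => (h3 n).1) hc0.le hc1 h6
      have h11 := h9.1
      norm_num at h11
      have : (0 : ℝ) ≤ n0 := Nat.cast_nonneg _
      linarith
    have h9 := (eventually_all_finset (l := cofinite) (range k)).2 h8
    filter_upwards [h9] with i hi r hr
    exact hi r (mem_range.2 hr)
  filter_upwards [h7, (t_large ht).eventually_ge_atTop 1] with i h9 ht1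
  have hn0 : (0 : ℝ) ≤ n0 := Nat.cast_nonneg _
  have hk0 : (0 : ℝ) ≤ k := Nat.cast_nonneg _
  have h12 := chain_low (N := fun r => Nn S a (f i) k (J i) r ω) (α := c / 2) (D := n0 + 2 * t i) (by positivity)
    (by linarith) (by positivity) h9
  have h13 : Nn S a (f i) k (J i) 0 ω = E i := by
    rw [hEd i]
    unfold Nn
    simp
  simp only [h13] at h12
  have h14 : (k : ℝ) * (n0 + 2 * t i) ≤ k * (n0 + 2) * t i := by
    rw [mul_assoc]
    exact mul_le_mul_of_nonneg_left (by nlinarith) hk0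
  linarith

include ha0 ha1 hf ht hS in
/-- **The law of large numbers for tuples.** -/
theorem tuples_lln' (h : ∀ᵐ ω ∂μ, ∀ e : ℝ, 0 < e → ∀ᶠ n : ℕ in atTop,
      (1 - e) * a (n + 1) ≤ Pr μ ℱ S n ω ∧ Pr μ ℱ S n ω ≤ (1 + e) * a (n + 1))
    {E : ι → ℝ} (hEd : ∀ i, E i = ∑ m ∈ J i, ∏ j ∈ range k, a (f i j m)) :
    ∀ᵐ ω ∂μ, ∀ δ : ℝ, 0 < δ → ∃ C : ℝ, 0 ≤ C ∧ ∀ᶠ i in cofinite,
      |Nn S a (f i) k (J i) k ω - E i| ≤ δ * E i + C * t i := by
  have hP : ∀ᵐ ω ∂μ, ∀ n, 0 ≤ Pr μ ℱ S n ω ∧ Pr μ ℱ S n ω ≤ 1 := ae_all_iff.2 fun n => Pr_bd hS n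
  filter_upwards [stages ha0 ha1 hf ht hS, h, hP] with ω h1 h2 h3 δ hδ
  -- the choice of `q`
  obtain ⟨q, hqδ⟩ : ∃ q : ℕ, 1 - δ ≤ ((1 - 1 / ((q : ℝ) + 2)) ^ 2) ^ k ∧
      ((1 + 1 / ((q : ℝ) + 2)) ^ 2) ^ k ≤ 1 + δ := by
    have l0 : Tendsto (fun q : ℕ => 1 / ((q : ℝ) + 2)) atTop (𝓝 0) := by
      have := (tendsto_natCast_atTop_atTop (R := ℝ)).atTop_add (tendsto_const_nhds (x := (2 : ℝ)))
      exact this.const_div_atTop 1
    have l1 : Tendsto (fun q : ℕ => ((1 - 1 / ((q : ℝ) + 2)) ^ 2) ^ k) atTop (𝓝 (((1 - 0) ^ 2) ^ k)) :=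
      ((l0.const_sub 1).pow 2).pow k
    have l2 : Tendsto (fun q : ℕ => ((1 + 1 / ((q : ℝ) + 2)) ^ 2) ^ k) atTop (𝓝 (((1 + 0) ^ 2) ^ k)) :=
      ((l0.const_add 1).pow 2).pow k
    norm_num at l1 l2
    have e1 := l1.eventually_const_lt (show 1 - δ < 1 by linarith)
    have e2 := l2.eventually_lt_const (show 1 < 1 + δ by linarith)
    obtain ⟨q, hq⟩ := (e1.and e2).exists
    refine ⟨q, ?_, ?_⟩
    · simpa using hq.1.le
    · simpa using hq.2.le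
  set e : ℝ := 1 / ((q : ℝ) + 2) with he
  have he0 : 0 < e := by rw [he]; positivity
  have he1 : e ≤ 1 / 2 := by
    rw [he]
    apply one_div_le_one_div_of_le (by norm_num)
    have : (0 : ℝ) ≤ q := Nat.cast_nonneg q
    linarith
  obtain ⟨n0, h5⟩ := eventually_atTop.1 (h2 e he0)
  have h7 : ∀ᶠ i in cofinite, ∀ r < k,
      ((1 - e) ^ 2 * Nn S a (f i) k (J i) r ω - (2 * n0 + t i / e) ≤ Nn S a (f i) k (J i) (r + 1) ω) ∧
      (Nn S a (f i) k (J i) (r + 1) ω ≤ (1 + e) ^ 2 * Nn S a (f i) k (J i) r ω + (2 * n0 + t i / e)) := by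
    have h8 : ∀ r ∈ range k, ∀ᶠ i in cofinite,
      ((1 - e) ^ 2 * Nn S a (f i) k (J i) r ω - (2 * n0 + t i / e) ≤ Nn S a (f i) k (J i) (r + 1) ω) ∧
      (Nn S a (f i) k (J i) (r + 1) ω ≤ (1 + e) ^ 2 * Nn S a (f i) k (J i) r ω + (2 * n0 + t i / e)) := by
      intro r hr
      rw [mem_range] at hr
      filter_upwards [h1 q r hr] with i h9
      rw [← he] at h9
      have h10 := An_low (μ := μ) (ℱ := ℱ) ha0 ha1 (hf i) hr (fun n => (h3 n).1) (c := 1 - e) (by linarith)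
        (by linarith) (fun n hn => (h5 n hn).1)
      have h11 := An_up (μ := μ) (ℱ := ℱ) ha0 ha1 (hf i) hr (fun n => (h3 n).2) (c := 1 + e) (by linarith)
        (fun n hn => (h5 n hn).2)
      have hn : (0 : ℝ) ≤ n0 := Nat.cast_nonneg _
      constructor
      · have := mul_le_mul_of_nonneg_left h10 (show 0 ≤ 1 - e by linarith)
        nlinarith [h9.1]
      · have := mul_le_mul_of_nonneg_left h11 (show 0 ≤ 1 + e by linarith)
        nlinarith [h9.2]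
    have h9 := (eventually_all_finset (l := cofinite) (range k)).2 h8
    filter_upwards [h9] with i hi r hr
    exact hi r (mem_range.2 hr)
  have hn0 : (0 : ℝ) ≤ n0 := Nat.cast_nonneg _
  have hk0 : (0 : ℝ) ≤ k := Nat.cast_nonneg _
  have hk1 : (1 : ℝ) ≤ ((1 + e) ^ 2) ^ k := one_le_pow₀ (by nlinarith)
  refine ⟨((1 + e) ^ 2) ^ k * (k * (2 * n0 + 1 / e)), by positivity, ?_⟩
  filter_upwards [h7, (t_large ht).eventually_ge_atTop 1] with i h9 ht1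
  have h13 : Nn S a (f i) k (J i) 0 ω = E i := by
    rw [hEd i]
    unfold Nn
    simp
  have hE0 : 0 ≤ E i := by
    rw [hEd i]
    exact sum_nonneg fun m _ => prod_nonneg fun j _ => ha0 _
  have hD0 : 0 ≤ 2 * (n0 : ℝ) + t i / e := by positivity
  have h12 := chain_low (N := fun r => Nn S a (f i) k (J i) r ω) (α := (1 - e) ^ 2) (D := 2 * n0 + t i / e)
    (by positivity) (by nlinarith) hD0 fun r hr => (h9 r hr).1
  have h14 := chain_up (N := fun r => Nn S a (f i) k (J i) r ω) (β := (1 + e) ^ 2) (D := 2 * n0 + t i / e)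
    (by nlinarith) hD0 fun r hr => (h9 r hr).2
  simp only [h13] at h12 h14
  have h15 : (k : ℝ) * (2 * n0 + t i / e) ≤ (k * (2 * n0 + 1 / e)) * t i := by
    rw [mul_assoc]
    apply mul_le_mul_of_nonneg_left _ hk0
    have : t i / e = 1 / e * t i := by ring
    nlinarith
  have h16 : (k : ℝ) * (2 * n0 + t i / e) ≤ ((1 + e) ^ 2) ^ k * (k * (2 * n0 + 1 / e)) * t i := by
    have h17 : 0 ≤ (k * (2 * n0 + 1 / e)) * t i := by positivity
    nlinarith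
  have h17 : ((1 + e) ^ 2) ^ k * ((k : ℝ) * (2 * n0 + t i / e)) ≤ ((1 + e) ^ 2) ^ k * (k * (2 * n0 + 1 / e)) * t i := by
    rw [mul_assoc]
    exact mul_le_mul_of_nonneg_left h15 (by positivity)
  rw [abs_le]
  constructor
  · have := mul_le_mul_of_nonneg_right hqδ.1 hE0
    linarith
  · have := mul_le_mul_of_nonneg_right hqδ.2 hE0
    have h18 : ((1 + e) ^ 2) ^ k * (E i + k * (2 * n0 + t i / e)) = ((1 + e) ^ 2) ^ k * E i +
        ((1 + e) ^ 2) ^ k * (k * (2 * n0 + t i / e)) := by ring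
    linarith

end

/-! ### Sieved models -/

section
variable {ι : Type} [Countable ι] {f : ι → ℕ → ℕ → ℕ} {k : ℕ} {J : ι → Finset ℕ}
  (hf : ∀ i, OK (f i) k (J i)) {t : ι → ℝ}
  (ht : Summable fun i => Real.exp (-t i)) {z : ℕ → ℕ} (hz : ∀ᶠ n : ℕ in atTop, ex z n ≤ 1)

include hf ht hz in
/-- **Lower bound for the number of tuples of chosen integers** -/
theorem model_low' (hS : ∀ n, MeasurableSet[ℱ n] (S n))
    (h : ∀ᵐ ω ∂μ, ∃ c : ℝ, 0 < c ∧ ∀ᶠ n : ℕ in atTop, Rough z (n + 1) →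
      c * V (z (n + 1)) ≤ Pr μ ℱ S n ω * Real.log n) :
    ∀ᵐ ω ∂μ, ∃ κ : ℝ, 0 < κ ∧ κ ≤ 1 ∧ ∃ C : ℝ, 0 ≤ C ∧ ∀ᶠ i in cofinite,
      κ * EE z (f i) k (J i) - C * t i ≤ cntT S (f i) k (J i) ω := by
  obtain ⟨D, hD, hc⟩ := comp hz k
  have h1 := tuples_low' (μ := μ) (ℱ := ℱ) (av_nonneg z) (av_le z) hf ht hS (conv_low hS z h) (fun i => rfl)
  filter_upwards [h1] with ω h2
  obtain ⟨κ, hκ, C, hC, h3⟩ := h2
  have hm : 0 < min κ 1 := lt_min hκ one_pos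
  refine ⟨min κ 1, hm, min_le_right _ _, C + min κ 1 * D, by positivity, ?_⟩
  filter_upwards [h3, (t_large ht).eventually_ge_atTop 1] with i h4 h6
  rw [Nn_eq] at h4
  have h7 := (hc (f i) (J i) (hf i)).2
  have h0 : 0 ≤ ∑ m ∈ J i, ∏ j ∈ range k, av z (f i j m) := sum_nonneg fun m _ => prod_nonneg fun j _ => av_nonneg _ _
  have h8 := mul_le_mul_of_nonneg_left h7 hm.le
  have h9 : min κ 1 * ∑ m ∈ J i, ∏ j ∈ range k, av z (f i j m) ≤ κ * ∑ m ∈ J i, ∏ j ∈ range k, av z (f i j m) :=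
    mul_le_mul_of_nonneg_right (min_le_left _ _) h0
  have h10 : min κ 1 * D ≤ min κ 1 * D * t i := le_mul_of_one_le_right (by positivity) h6
  nlinarith

include hf ht hz in
/-- **Law of large numbers for the tuples of chosen integers** -/
theorem model_lln' (hS : ∀ n, MeasurableSet[ℱ n] (S n)) (hr : ∀ n, ¬ Rough z n → S n = ∅)
    (h : ∀ᵐ ω ∂μ, Tendsto (fun n : ℕ => Pr μ ℱ S n ω * Real.log n / V (z (n + 1)))
      (atTop ⊓ 𝓟 {n : ℕ | Rough z (n + 1)}) (𝓝 1)) :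
    ∀ᵐ ω ∂μ, ∀ δ : ℝ, 0 < δ → ∃ C : ℝ, 0 ≤ C ∧ ∀ᶠ i in cofinite,
      |(cntT S (f i) k (J i) ω : ℝ) - EE z (f i) k (J i)| ≤ δ * EE z (f i) k (J i) + C * t i := by
  obtain ⟨D, hD, hc⟩ := comp hz k
  have h1 := tuples_lln' (μ := μ) (ℱ := ℱ) (av_nonneg z) (av_le z) hf ht hS (conv_lln hS z hr h) (fun i => rfl)
  filter_upwards [h1] with ω h2 δ hδ
  obtain ⟨C, hC, h3⟩ := h2 δ hδ
  refine ⟨C + D, by positivity, ?_⟩
  filter_upwards [h3, (t_large ht).eventually_ge_atTop 1] with i h4 h6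
  rw [Nn_eq] at h4
  obtain ⟨h7, h8⟩ := hc (f i) (J i) (hf i)
  have h9 : D ≤ D * t i := le_mul_of_one_le_right hD h6
  rw [abs_le] at h4 ⊢
  constructor
  · nlinarith [h4.1]
  · nlinarith [h4.2]

end

end Pool.Agent.D0H68.TU
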