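import Pool.Agent.D0H68.TU.Const
import Pool.Agent.H305R2.MertensE

/-! The Hardy–Littlewood asymptotics for the expected number of the pairs `m ^ 2 + 1`, `m ^ 2 + 3` in sieved models. -/

set_option autoImplicit false

open MeasureTheory Filter Finset
open scoped Topology

namespace Pool.Agent.D0H68.TU

open Pool.Agent.D0H68.SD Pool.Agent.D0H41.LP

theorem dyadic {a h : ℕ → ℝ} (h0 : ∀ x, 0 ≤ h x) (h1 : Tendsto h atTop atTop)
    (h2 : ∀ᶠ x : ℕ in atTop, h (x / 2) ≤ 2 / 3 * h x)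
    (h3 : Tendsto (fun x : ℕ => (a x - a (x / 2)) / h x) atTop (𝓝 0)) :
    Tendsto (fun x : ℕ => a x / h x) atTop (𝓝 0) := by
  rw [Metric.tendsto_nhds]
  intro ε hε
  have e1 : ∀ᶠ x : ℕ in atTop, |a x - a (x / 2)| ≤ ε / 6 * h x := by
    filter_upwards [(Metric.tendsto_nhds.1 h3) (ε / 6) (by positivity), h1.eventually_gt_atTop 0] with x g1 g2
    rw [Real.dist_eq, sub_zero, abs_div, abs_of_pos g2, div_lt_iff₀ g2] at g1
    exact g1.le
  obtain ⟨x0, hx0⟩ := eventually_atTop.1 (e1.and (h2.and (eventually_ge_atTop 1)))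
  set M := ∑ i ∈ range x0, |a i| with hMd
  have hM : ∀ i < x0, |a i| ≤ M := fun i hi =>
    single_le_sum (f := fun i => |a i|) (fun _ _ => abs_nonneg _) (mem_range.2 hi)
  have key : ∀ x, |a x| ≤ 3 * (ε / 6) * h x + M := by
    intro x
    induction x using Nat.strong_induction_on with
    | _ x ih =>
      rcases lt_or_ge x x0 with hx | hx
      · have g1 := hM x hx
        have g2 : 0 ≤ 3 * (ε / 6) * h x := mul_nonneg (by positivity) (h0 x)
        linarith
      · obtain ⟨g1, g2, g3⟩ := hx0 x hx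
        have g4 := ih (x / 2) (by omega)
        have g5 : |a x| ≤ |a x - a (x / 2)| + |a (x / 2)| := by
          have := abs_add_le (a x - a (x / 2)) (a (x / 2))
          rwa [sub_add_cancel] at this
        have g6 : 3 * (ε / 6) * h (x / 2) ≤ 3 * (ε / 6) * (2 / 3 * h x) := mul_le_mul_of_nonneg_left g2 (by positivity)
        linarith
  filter_upwards [h1.eventually_gt_atTop (2 * M / ε), h1.eventually_gt_atTop 0] with x g1 g2
  rw [Real.dist_eq, sub_zero, abs_div, abs_of_pos g2, div_lt_iff₀ g2]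
  rw [div_lt_iff₀ hε] at g1
  have := key x
  linarith

theorem half_lim : Tendsto (fun x : ℕ => ((x / 2 : ℕ) : ℝ) / x) atTop (𝓝 (1 / 2)) := by
  have h1 : Tendsto (fun x : ℕ => (1 : ℝ) / 2 - 1 / (x : ℝ)) atTop (𝓝 (1 / 2 - 0)) :=
    tendsto_const_nhds.sub tendsto_one_div_atTop_nhds_zero_nat
  rw [sub_zero] at h1
  refine tendsto_of_tendsto_of_tendsto_of_le_of_le' h1 tendsto_const_nhds ?_ ?_
  · filter_upwards [eventually_ge_atTop 1] with x hx
    have hx0 : (0 : ℝ) < x := by exact_mod_cast hx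
    rw [le_div_iff₀ hx0, sub_mul, one_div_mul_cancel hx0.ne']
    have : x ≤ 2 * (x / 2) + 1 := by omega
    have h : (x : ℝ) ≤ 2 * ((x / 2 : ℕ) : ℝ) + 1 := by exact_mod_cast this
    linarith
  · filter_upwards [eventually_ge_atTop 1] with x hx
    have hx0 : (0 : ℝ) < x := by exact_mod_cast hx
    rw [div_le_iff₀ hx0]
    have : 2 * (x / 2) ≤ x := by omega
    have h : 2 * ((x / 2 : ℕ) : ℝ) ≤ (x : ℝ) := by exact_mod_cast this
    linarith

theorem logx : Tendsto (fun x : ℕ => Real.log x) atTop atTop :=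
  Real.tendsto_log_atTop.comp tendsto_natCast_atTop_atTop

theorem log_ratio {f : ℕ → ℝ} {c C : ℝ} (hc : 0 < c) (hC : 0 < C)
    (h : ∀ᶠ x : ℕ in atTop, c * x ≤ f x ∧ f x ≤ C * x) :
    Tendsto (fun x : ℕ => Real.log (f x) / Real.log x) atTop (𝓝 1) := by
  have h1 : ∀ A : ℝ, Tendsto (fun x : ℕ => Real.log A / Real.log x + 1) atTop (𝓝 (0 + 1)) := fun A =>
    (tendsto_const_nhds.div_atTop logx).add tendsto_const_nhds
  simp only [zero_add] at h1
  refine tendsto_of_tendsto_of_tendsto_of_le_of_le' (h1 c) (h1 C) ?_ ?_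
  · filter_upwards [h, eventually_ge_atTop 2] with x ⟨g1, g2⟩ g3
    have hx : (2 : ℝ) ≤ x := by exact_mod_cast g3
    have hl : 0 < Real.log x := Real.log_pos (by linarith)
    rw [le_div_iff₀ hl, add_mul, div_mul_cancel₀ _ hl.ne', one_mul, ← Real.log_mul hc.ne' (by positivity)]
    exact Real.log_le_log (by positivity) g1
  · filter_upwards [h, eventually_ge_atTop 2] with x ⟨g1, g2⟩ g3
    have hx : (2 : ℝ) ≤ x := by exact_mod_cast g3
    have hl : 0 < Real.log x := Real.log_pos (by linarith)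
    rw [div_le_iff₀ hl, add_mul, div_mul_cancel₀ _ hl.ne', one_mul, ← Real.log_mul hC.ne' (by positivity)]
    exact Real.log_le_log (lt_of_lt_of_le (by positivity) g1) g2

open Classical in
theorem siv_lim {X Z : ℕ → ℕ} (hZ : Tendsto Z atTop atTop) (hX : ∀ K : ℕ, ∀ᶠ x : ℕ in atTop, Z x ^ K ≤ X x) :
    Tendsto (fun x : ℕ => ((((Icc 1 (X x)).filter fun m => Sft (Z x) m).card : ℕ) : ℝ) / (X x * VF (Z x)))
      atTop (𝓝 1) := by
  rw [Metric.tendsto_nhds]
  intro ε hε
  obtain ⟨K, z0, hsiv⟩ := Pool.Agent.D0H65.LP.t_SIV (ε / 2) (by positivity)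
  filter_upwards [hZ.eventually_ge_atTop z0, hX K, hX 0] with x g1 g2 g3
  have hVF : 0 < VF (Z x) := Pool.Agent.D0H65.LP.VF_pos _
  rw [pow_zero] at g3
  have hXx : (0 : ℝ) < X x := by exact_mod_cast g3
  have g4 := (hsiv (Z x) g1 (X x)).1 g2
  have hp : 0 < (X x : ℝ) * VF (Z x) := by positivity
  have hcard : ∀ inst : DecidablePred fun m => Sft (Z x) m,
      ((@Finset.filter ℕ (fun m => Sft (Z x) m) inst (Icc 1 (X x))).card : ℝ) =
        (((Icc 1 (X x)).filter fun m => Sft (Z x) m).card : ℝ) := by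
    intro inst; congr
  rw [hcard] at g4
  rw [Real.dist_eq, div_sub_one hp.ne', abs_div, abs_of_pos hp, div_lt_iff₀ hp]
  nlinarith

open Classical in
theorem blk_lim {Z : ℕ → ℕ} (hZ : Tendsto Z atTop atTop) (hX : ∀ K : ℕ, ∀ᶠ x : ℕ in atTop, Z x ^ K ≤ x / 2) :
    Tendsto (fun x : ℕ => ((((Ioc (x / 2) x).filter fun m => Sft (Z x) m).card : ℕ) : ℝ) / (x * VF (Z x)))
      atTop (𝓝 (1 / 2)) := by
  have h1 := siv_lim (X := fun x => x) hZ (fun K => (hX K).mono fun x h => h.trans (Nat.div_le_self _ _))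
  have h2 := siv_lim (X := fun x => x / 2) hZ hX
  have h3 := h1.sub (h2.mul half_lim)
  have h4 : (1 : ℝ) - 1 * (1 / 2) = 1 / 2 := by norm_num
  rw [h4] at h3
  refine h3.congr' ?_
  filter_upwards [eventually_ge_atTop 2] with x hx
  have hx0 : (0 : ℝ) < x := by exact_mod_cast (by omega : 0 < x)
  have hy0 : (0 : ℝ) < ((x / 2 : ℕ) : ℝ) := by exact_mod_cast (by omega : 0 < x / 2)
  have hVF : 0 < VF (Z x) := Pool.Agent.D0H65.LP.VF_pos _
  have h5 : ((Icc 1 x).filter fun m => Sft (Z x) m).card = ((Icc 1 (x / 2)).filter fun m => Sft (Z x) m).card +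
      ((Ioc (x / 2) x).filter fun m => Sft (Z x) m).card := by
    rw [← card_union_of_disjoint]
    · congr 1
      rw [← filter_union]
      congr 1
      ext m
      rw [Finset.mem_union, mem_Icc, mem_Icc, mem_Ioc]
      omega
    · apply disjoint_filter_filter
      rw [Finset.disjoint_left]
      intro m hm hm'
      rw [mem_Icc] at hm
      rw [mem_Ioc] at hm'
      omega
  have h6 : ((((Icc 1 x).filter fun m => Sft (Z x) m).card : ℕ) : ℝ) = (((Icc 1 (x / 2)).filter fun m => Sft (Z x) m).card : ℝ) +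
      (((Ioc (x / 2) x).filter fun m => Sft (Z x) m).card : ℝ) := by exact_mod_cast h5
  rw [h6]
  field_simp
  ring

theorem V_lim : Tendsto (fun y : ℕ => V y / Real.log y) atTop (𝓝 (Real.exp Real.eulerMascheroniConstant)) :=
  Pool.Agent.H305R2.mertens_three

theorem V_ratio {Z1 Z2 : ℕ → ℕ} (h1 : Tendsto Z1 atTop atTop) (h2 : Tendsto Z2 atTop atTop)
    (h : Tendsto (fun x => Real.log (Z2 x) / Real.log (Z1 x)) atTop (𝓝 1)) :
    Tendsto (fun x => V (Z2 x) / V (Z1 x)) atTop (𝓝 1) := by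
  have h3 := ((V_lim.comp h2).div (V_lim.comp h1) (Real.exp_ne_zero _)).mul h
  rw [div_self (Real.exp_ne_zero _), one_mul] at h3
  refine h3.congr' ?_
  filter_upwards [h1.eventually_ge_atTop 2, h2.eventually_ge_atTop 2] with x g1 g2
  have l1 : 0 < Real.log (Z1 x) := Real.log_pos (by exact_mod_cast g1)
  have l2 : 0 < Real.log (Z2 x) := Real.log_pos (by exact_mod_cast g2)
  have v1 : 0 < V (Z1 x) := lt_of_lt_of_le one_pos (V_one _)
  simp only [Function.comp, Pi.div_apply]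
  field_simp

end Pool.Agent.D0H68.TU
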