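import Pool.Agent.D0H68.TU.Asy

/-! The Hardy–Littlewood asymptotics for the expected number of the pairs `m ^ 2 + 1`, `m ^ 2 + 3` in sieved models. -/

set_option autoImplicit false

open MeasureTheory Filter Finset
open scoped Topology

namespace Pool.Agent.D0H68.TU

open Pool.Agent.D0H68.SD Pool.Agent.D0H41.LP

open Classical in
/-- the part `m ∈ (x / 2, x]` -/
noncomputable def D2 (z : ℕ → ℕ) (x : ℕ) : ℝ :=
  ∑ m ∈ (Ioc (x / 2) x).filter (fun m => Rough z (m ^ 2 + 1) ∧ Rough z (m ^ 2 + 3)),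
    V (z (m ^ 2 + 1)) / Real.log ((m ^ 2 + 1 : ℕ) : ℝ) * (V (z (m ^ 2 + 3)) / Real.log ((m ^ 2 + 3 : ℕ) : ℝ))

theorem expd2_split (z : ℕ → ℕ) (x : ℕ) : expd2 z x - expd2 z (x / 2) = D2 z x := by
  classical
  unfold expd2 D2
  rw [sub_eq_iff_eq_add, add_comm, ← sum_union]
  · congr 1
    rw [← filter_union]
    congr 1
    ext m
    rw [Finset.mem_union, mem_Icc, mem_Icc, mem_Ioc]
    omega
  · apply disjoint_filter_filter
    rw [Finset.disjoint_left]
    intro m hm hm'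
    rw [mem_Icc] at hm
    rw [mem_Ioc] at hm'
    omega

theorem V_mono {a b : ℕ} (h : a ≤ b) : V a ≤ V b := by
  have hsub : (Finset.Icc 1 a).filter Nat.Prime ⊆ (Finset.Icc 1 b).filter Nat.Prime := by
    intro p hp
    rw [mem_filter, mem_Icc] at hp ⊢
    exact ⟨⟨hp.1.1, hp.1.2.trans h⟩, hp.2⟩
  have h1 := V_one a
  unfold V at h1 ⊢
  rw [← Finset.prod_sdiff hsub]
  have h4 : (1 : ℝ) ≤ ∏ q ∈ (Finset.Icc 1 b).filter Nat.Prime \ (Finset.Icc 1 a).filter Nat.Prime, (1 - (q : ℝ)⁻¹)⁻¹ := by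
    calc (1 : ℝ) = ∏ q ∈ (Finset.Icc 1 b).filter Nat.Prime \ (Finset.Icc 1 a).filter Nat.Prime, (1 : ℝ) := by simp
      _ ≤ _ := Finset.prod_le_prod (fun _ _ => zero_le_one)
        fun q hq => fac_ge q (mem_filter.1 (Finset.mem_sdiff.1 hq).1).2
  nlinarith

/-- `N = (x / 2 + 1) ^ 2` -/
def NN (x : ℕ) : ℕ := (x / 2 + 1) ^ 2

theorem NN_le {x m : ℕ} (h : m ∈ Ioc (x / 2) x) {i : ℕ} (hi : i ≤ 3) : NN x ≤ m ^ 2 + i ∧ m ^ 2 + i ≤ 4 * NN x := by
  rw [mem_Ioc] at h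
  unfold NN
  have h1 : x / 2 + 1 ≤ m := h.1
  have h2 : m ≤ 2 * (x / 2) + 1 := by omega
  generalize x / 2 = y at *
  constructor
  · have : (y + 1) ^ 2 ≤ m ^ 2 := Nat.pow_le_pow_left h1 2
    omega
  · have : m ^ 2 ≤ (2 * y + 1) ^ 2 := Nat.pow_le_pow_left h2 2
    nlinarith

open Classical in
theorem D2_bd {z : ℕ → ℕ} (hm : Monotone z) {x : ℕ} (hx : 4 ≤ x) :
    ((((Ioc (x / 2) x).filter fun m => Sft (z (4 * NN x)) m).card : ℕ) : ℝ) *
        (V (z (NN x)) / Real.log ((4 * NN x : ℕ) : ℝ)) ^ 2 ≤ D2 z x ∧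
    D2 z x ≤ ((((Ioc (x / 2) x).filter fun m => Sft (z (NN x)) m).card : ℕ) : ℝ) *
        (V (z (4 * NN x)) / Real.log ((NN x : ℕ) : ℝ)) ^ 2 := by
  have hN : 9 ≤ NN x := by
    unfold NN
    have : 3 ≤ x / 2 + 1 := by omega
    nlinarith
  have hlN : 0 < Real.log ((NN x : ℕ) : ℝ) := Real.log_pos (by exact_mod_cast (by omega : 1 < NN x))
  have hl4 : 0 < Real.log ((4 * NN x : ℕ) : ℝ) := Real.log_pos (by exact_mod_cast (by omega : 1 < 4 * NN x))
  have vp : ∀ y, 0 < V y := fun y => lt_of_lt_of_le one_pos (V_one y)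
  have w1 : ∀ m ∈ Ioc (x / 2) x, ∀ i ≤ 3, V (z (NN x)) / Real.log ((4 * NN x : ℕ) : ℝ) ≤
      V (z (m ^ 2 + i)) / Real.log ((m ^ 2 + i : ℕ) : ℝ) := by
    intro m hmm i hi
    obtain ⟨h1, h2⟩ := NN_le hmm hi
    have h3 : 0 < Real.log ((m ^ 2 + i : ℕ) : ℝ) := Real.log_pos (by exact_mod_cast (by omega : 1 < m ^ 2 + i))
    exact div_le_div₀ (vp _).le (V_mono (hm h1)) h3
      (Real.log_le_log (by exact_mod_cast (by omega : 0 < m ^ 2 + i)) (by exact_mod_cast h2))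
  have w2 : ∀ m ∈ Ioc (x / 2) x, ∀ i ≤ 3, V (z (m ^ 2 + i)) / Real.log ((m ^ 2 + i : ℕ) : ℝ) ≤
      V (z (4 * NN x)) / Real.log ((NN x : ℕ) : ℝ) := by
    intro m hmm i hi
    obtain ⟨h1, h2⟩ := NN_le hmm hi
    exact div_le_div₀ (vp _).le (V_mono (hm h2)) hlN
      (Real.log_le_log (by exact_mod_cast (by omega : 0 < NN x)) (by exact_mod_cast h1))
  have w0 : ∀ m ∈ Ioc (x / 2) x, ∀ i ≤ 3, 0 ≤ V (z (m ^ 2 + i)) / Real.log ((m ^ 2 + i : ℕ) : ℝ) :=
    fun m hmm i hi => le_trans (div_nonneg (vp _).le hl4.le) (w1 m hmm i hi)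
  constructor
  · unfold D2
    have hsub : ((Ioc (x / 2) x).filter fun m => Sft (z (4 * NN x)) m) ⊆
        ((Ioc (x / 2) x).filter (fun m => Rough z (m ^ 2 + 1) ∧ Rough z (m ^ 2 + 3))) := by
      intro m hmm
      rw [mem_filter] at hmm ⊢
      refine ⟨hmm.1, ?_, ?_⟩
      · intro q hq hqz hqd
        refine hmm.2 q ?_ (hqd.trans ?_)
        · unfold P
          rw [mem_filter, mem_Icc]
          exact ⟨⟨hq.one_le, hqz.trans (hm (NN_le hmm.1 (by norm_num)).2)⟩, hq⟩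
        · unfold F; exact Dvd.intro _ rfl
      · intro q hq hqz hqd
        refine hmm.2 q ?_ (hqd.trans ?_)
        · unfold P
          rw [mem_filter, mem_Icc]
          exact ⟨⟨hq.one_le, hqz.trans (hm (NN_le hmm.1 (by norm_num)).2)⟩, hq⟩
        · unfold F; exact Dvd.intro_left _ rfl
    calc ((((Ioc (x / 2) x).filter fun m => Sft (z (4 * NN x)) m).card : ℕ) : ℝ) *
          (V (z (NN x)) / Real.log ((4 * NN x : ℕ) : ℝ)) ^ 2
        = ∑ m ∈ (Ioc (x / 2) x).filter (fun m => Sft (z (4 * NN x)) m),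
          (V (z (NN x)) / Real.log ((4 * NN x : ℕ) : ℝ)) ^ 2 := by rw [sum_const, nsmul_eq_mul]
      _ ≤ ∑ m ∈ (Ioc (x / 2) x).filter (fun m => Sft (z (4 * NN x)) m),
          V (z (m ^ 2 + 1)) / Real.log ((m ^ 2 + 1 : ℕ) : ℝ) * (V (z (m ^ 2 + 3)) / Real.log ((m ^ 2 + 3 : ℕ) : ℝ)) := by
        refine sum_le_sum fun m hmm => ?_
        have h1 := (mem_filter.1 hmm).1
        rw [sq]
        exact mul_le_mul (w1 m h1 1 (by norm_num)) (w1 m h1 3 le_rfl) (div_nonneg (vp _).le hl4.le)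
          (w0 m h1 1 (by norm_num))
      _ ≤ _ := by
        refine sum_le_sum_of_subset_of_nonneg hsub fun m hmm _ => ?_
        have h1 := (mem_filter.1 hmm).1
        exact mul_nonneg (w0 m h1 1 (by norm_num)) (w0 m h1 3 le_rfl)
  · unfold D2
    have hsub : ((Ioc (x / 2) x).filter (fun m => Rough z (m ^ 2 + 1) ∧ Rough z (m ^ 2 + 3))) ⊆
        ((Ioc (x / 2) x).filter fun m => Sft (z (NN x)) m) := by
      intro m hmm
      rw [mem_filter] at hmm ⊢
      refine ⟨hmm.1, ?_⟩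
      intro q hq hqd
      unfold P at hq
      rw [mem_filter, mem_Icc] at hq
      unfold F at hqd
      rcases (hq.2.dvd_mul).1 hqd with h | h
      · exact hmm.2.1 q hq.2 (hq.1.2.trans (hm (NN_le hmm.1 (by norm_num)).1)) h
      · exact hmm.2.2 q hq.2 (hq.1.2.trans (hm (NN_le hmm.1 (by norm_num)).1)) h
    calc ∑ m ∈ (Ioc (x / 2) x).filter (fun m => Rough z (m ^ 2 + 1) ∧ Rough z (m ^ 2 + 3)),
          V (z (m ^ 2 + 1)) / Real.log ((m ^ 2 + 1 : ℕ) : ℝ) * (V (z (m ^ 2 + 3)) / Real.log ((m ^ 2 + 3 : ℕ) : ℝ))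
        ≤ ∑ m ∈ (Ioc (x / 2) x).filter (fun m => Rough z (m ^ 2 + 1) ∧ Rough z (m ^ 2 + 3)),
          (V (z (4 * NN x)) / Real.log ((NN x : ℕ) : ℝ)) ^ 2 := by
          refine sum_le_sum fun m hmm => ?_
          have h1 := (mem_filter.1 hmm).1
          rw [sq (V (z (4 * NN x)) / _)]
          exact mul_le_mul (w2 m h1 1 (by norm_num)) (w2 m h1 3 le_rfl) (w0 m h1 3 le_rfl)
            (div_nonneg (vp _).le hlN.le)
      _ ≤ ∑ m ∈ (Ioc (x / 2) x).filter (fun m => Sft (z (NN x)) m),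
          (V (z (4 * NN x)) / Real.log ((NN x : ℕ) : ℝ)) ^ 2 :=
        sum_le_sum_of_subset_of_nonneg hsub fun m _ _ => sq_nonneg _
      _ = _ := by rw [sum_const, nsmul_eq_mul]

theorem NN_real {x : ℕ} (hx : 2 ≤ x) : ∃ u : ℝ, ((NN x : ℕ) : ℝ) = u ^ 2 ∧ (1 / 2 : ℝ) * x ≤ u ∧ u ≤ 1 * (x : ℝ) := by
  refine ⟨((x / 2 : ℕ) : ℝ) + 1, by unfold NN; push_cast; ring, ?_, ?_⟩
  · have : x ≤ 2 * (x / 2 + 1) := by omega
    have h : (x : ℝ) ≤ 2 * (((x / 2 : ℕ) : ℝ) + 1) := by exact_mod_cast this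
    linarith
  · have : x / 2 + 1 ≤ x := by omega
    have h : ((x / 2 : ℕ) : ℝ) + 1 ≤ (x : ℝ) := by exact_mod_cast this
    linarith

theorem logN1 : Tendsto (fun x : ℕ => Real.log x / Real.log ((NN x : ℕ) : ℝ)) atTop (𝓝 (1 / 2)) := by
  have h1 := (log_ratio (f := fun x : ℕ => ((x / 2 : ℕ) : ℝ) + 1) (c := 1 / 2) (C := 1) (by norm_num) one_pos (by
    filter_upwards [eventually_ge_atTop 2] with x hx
    constructor
    · have : x ≤ 2 * (x / 2 + 1) := by omega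
      have h : (x : ℝ) ≤ 2 * (((x / 2 : ℕ) : ℝ) + 1) := by exact_mod_cast this
      linarith
    · have : x / 2 + 1 ≤ x := by omega
      have h : ((x / 2 : ℕ) : ℝ) + 1 ≤ (x : ℝ) := by exact_mod_cast this
      linarith)).inv₀ one_ne_zero
  have h2 := h1.mul_const (1 / 2)
  rw [inv_one, one_mul] at h2
  refine h2.congr fun x => ?_
  have h3 : ((NN x : ℕ) : ℝ) = (((x / 2 : ℕ) : ℝ) + 1) ^ 2 := by unfold NN; push_cast; ring
  rw [h3, Real.log_pow, inv_div]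
  push_cast
  rw [div_mul_div_comm, mul_one, mul_comm (Real.log _) 2]

theorem NN_inf : Tendsto NN atTop atTop := by
  refine tendsto_atTop_mono (fun x => ?_) (Nat.tendsto_div_const_atTop (show (2 : ℕ) ≠ 0 by norm_num))
  unfold NN
  nlinarith

theorem NN4_inf : Tendsto (fun x => 4 * NN x) atTop atTop :=
  tendsto_atTop_mono (fun x => by omega) NN_inf

theorem logN4 : Tendsto (fun x : ℕ => Real.log x / Real.log ((4 * NN x : ℕ) : ℝ)) atTop (𝓝 (1 / 2)) := by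
  have h0 : Tendsto (fun x : ℕ => Real.log 4 / Real.log ((NN x : ℕ) : ℝ) + 1) atTop (𝓝 (0 + 1)) :=
    (tendsto_const_nhds.div_atTop (logx.comp NN_inf)).add tendsto_const_nhds
  rw [zero_add] at h0
  have h1 := logN1.div h0 one_ne_zero
  rw [div_one] at h1
  refine h1.congr' ?_
  filter_upwards [NN_inf.eventually_ge_atTop 2] with x hx
  have hN : (2 : ℝ) ≤ NN x := by exact_mod_cast hx
  have hl : 0 < Real.log ((NN x : ℕ) : ℝ) := Real.log_pos (by linarith)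
  have h4 : 0 < Real.log 4 := Real.log_pos (by norm_num)
  simp only [Pi.div_apply]
  push_cast
  rw [Real.log_mul (by norm_num) (by positivity)]
  field_simp

theorem z_small {z : ℕ → ℕ} (hz : ∀ ε : ℝ, 0 < ε → ∀ᶠ n : ℕ in atTop, (z n : ℝ) ≤ (n : ℝ) ^ ε) (K : ℕ) :
    ∀ᶠ x : ℕ in atTop, z (4 * NN x) ^ K ≤ x / 2 := by
  set ε : ℝ := 1 / (6 * ((K : ℝ) + 1)) with hε
  have hK0 : (0 : ℝ) ≤ K := Nat.cast_nonneg K
  have hε0 : 0 < ε := by rw [hε]; positivity
  have h3K : 3 * ε * K ≤ 1 / 2 := by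
    rw [hε]
    have : 3 * (1 / (6 * ((K : ℝ) + 1))) * K = K / (2 * (K + 1)) := by field_simp; ring
    rw [this, div_le_div_iff₀ (by positivity) (by norm_num)]
    linarith
  have h1 := NN4_inf.eventually (hz ε hε0)
  filter_upwards [h1, eventually_ge_atTop 16] with x g1 g2
  have hx : (16 : ℝ) ≤ x := by exact_mod_cast g2
  have hx0 : (0 : ℝ) < x := by linarith
  obtain ⟨u, hu, hu1, hu2⟩ := NN_real (x := x) (by omega)
  have g3 : ((4 * NN x : ℕ) : ℝ) ≤ (x : ℝ) ^ 3 := by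
    push_cast
    rw [hu]
    have hu0 : 0 ≤ u := by linarith
    have : u ^ 2 ≤ (x : ℝ) ^ 2 := by rw [one_mul] at hu2; gcongr
    nlinarith [sq_nonneg (x : ℝ)]
  have g4 : ((z (4 * NN x) : ℕ) : ℝ) ^ K ≤ (x : ℝ) ^ (1 / 2 : ℝ) := by
    calc ((z (4 * NN x) : ℕ) : ℝ) ^ K ≤ ((((4 * NN x : ℕ) : ℝ)) ^ ε) ^ K := by gcongr
      _ ≤ (((x : ℝ) ^ 3) ^ ε) ^ K := by gcongr
      _ = (x : ℝ) ^ (3 * ε * K) := by
        rw [← Real.rpow_natCast _ K, ← Real.rpow_natCast _ 3, ← Real.rpow_mul hx0.le, ← Real.rpow_mul hx0.le]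
        norm_num
      _ ≤ _ := Real.rpow_le_rpow_of_exponent_le (by linarith) h3K
  have g5 : (x : ℝ) ^ (1 / 2 : ℝ) ≤ ((x / 2 : ℕ) : ℝ) := by
    have h5 : (x : ℝ) ≤ 2 * ((x / 2 : ℕ) : ℝ) + 1 := by exact_mod_cast (by omega : x ≤ 2 * (x / 2) + 1)
    rw [← Real.sqrt_eq_rpow]
    have h6 := Real.sq_sqrt hx0.le
    have h7 : 4 ≤ Real.sqrt x := by
      rw [show (4 : ℝ) = Real.sqrt (4 ^ 2) by rw [Real.sqrt_sq (by norm_num)]]
      exact Real.sqrt_le_sqrt (by linarith)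
    nlinarith
  have : ((z (4 * NN x) ^ K : ℕ) : ℝ) ≤ ((x / 2 : ℕ) : ℝ) := by push_cast; exact g4.trans g5
  exact_mod_cast this

theorem D2_lim {z : ℕ → ℕ} (hm : Monotone z) (hinf : Tendsto z atTop atTop)
    (hz : ∀ ε : ℝ, 0 < ε → ∀ᶠ n : ℕ in atTop, (z n : ℝ) ≤ (n : ℝ) ^ ε)
    (hreg : Tendsto (fun n : ℕ => Real.log (z (2 * n)) / Real.log (z n)) atTop (𝓝 1)) {G : ℝ}
    (hG : Tendsto (fun y : ℕ => VF y * V y ^ 2) atTop (𝓝 G)) :
    Tendsto (fun x : ℕ => D2 z x / (x / Real.log x ^ 2)) atTop (𝓝 (G / 8)) := by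
  classical
  have i1 : Tendsto (fun x => z (NN x)) atTop atTop := hinf.comp NN_inf
  have i2 : Tendsto (fun x => z (4 * NN x)) atTop atTop := hinf.comp NN4_inf
  have s2 := z_small hz
  have s1 : ∀ K : ℕ, ∀ᶠ x : ℕ in atTop, z (NN x) ^ K ≤ x / 2 := by
    intro K
    filter_upwards [s2 K] with x hx
    exact le_trans (Nat.pow_le_pow_left (hm (by omega)) K) hx
  have r0 : Tendsto (fun n : ℕ => Real.log (z (4 * n)) / Real.log (z n)) atTop (𝓝 1) := by
    have h2 : Tendsto (fun n : ℕ => 2 * n) atTop atTop := tendsto_atTop_mono (fun n => by show n ≤ 2 * n; omega) tendsto_id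
    have h1 := (hreg.comp h2).mul hreg
    rw [one_mul] at h1
    refine h1.congr' ?_
    filter_upwards [(hinf.comp h2).eventually_ge_atTop 2] with n hn
    have hl : 0 < Real.log (z (2 * n)) := Real.log_pos (by exact_mod_cast hn)
    simp only [Function.comp]
    rw [show 2 * (2 * n) = 4 * n by ring, div_mul_div_cancel₀ hl.ne']
  have r1 := V_ratio i1 i2 (r0.comp NN_inf)
  have r2 := r1.inv₀ one_ne_zero
  rw [inv_one] at r2
  have b1 := blk_lim i1 s1
  have b2 := blk_lim i2 s2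
  have g1 := hG.comp i1
  have g2 := hG.comp i2
  have U := ((b1.mul g1).mul (r1.pow 2)).mul (logN1.pow 2)
  have L := ((b2.mul g2).mul (r2.pow 2)).mul (logN4.pow 2)
  have hc : (1 / 2 * G) * 1 ^ 2 * (1 / 2 : ℝ) ^ 2 = G / 8 := by ring
  rw [hc] at U L
  refine tendsto_of_tendsto_of_tendsto_of_le_of_le' L U ?_ ?_
  · filter_upwards [eventually_ge_atTop 4] with x hx
    have hx4 : (4 : ℝ) ≤ x := by exact_mod_cast hx
    have hl : 0 < Real.log x := Real.log_pos (by linarith)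
    have h1 := (D2_bd hm hx).1
    have v1 : 0 < V (z (NN x)) := lt_of_lt_of_le one_pos (V_one _)
    have v2 : 0 < V (z (4 * NN x)) := lt_of_lt_of_le one_pos (V_one _)
    have f1 : 0 < VF (z (NN x)) := Pool.Agent.D0H65.LP.VF_pos _
    have f2 : 0 < VF (z (4 * NN x)) := Pool.Agent.D0H65.LP.VF_pos _
    rw [le_div_iff₀ (by positivity)]
    refine le_trans (le_of_eq ?_) h1
    simp only [Function.comp]
    field_simp
  · filter_upwards [eventually_ge_atTop 4] with x hx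
    have hx4 : (4 : ℝ) ≤ x := by exact_mod_cast hx
    have hl : 0 < Real.log x := Real.log_pos (by linarith)
    have h1 := (D2_bd hm hx).2
    have v1 : 0 < V (z (NN x)) := lt_of_lt_of_le one_pos (V_one _)
    have v2 : 0 < V (z (4 * NN x)) := lt_of_lt_of_le one_pos (V_one _)
    have f1 : 0 < VF (z (NN x)) := Pool.Agent.D0H65.LP.VF_pos _
    have f2 : 0 < VF (z (4 * NN x)) := Pool.Agent.D0H65.LP.VF_pos _
    rw [div_le_iff₀ (by positivity)]
    refine le_trans h1 (le_of_eq ?_)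
    simp only [Function.comp]
    field_simp

theorem hh_inf : Tendsto (fun x : ℕ => (x : ℝ) / Real.log x ^ 2) atTop atTop := by
  have h2 : Tendsto (fun x : ℝ => x / Real.log x ^ 2) atTop atTop := by
    have h3 := (isLittleO_log_rpow_atTop (show (0 : ℝ) < 1 / 4 by norm_num))
    have h4 := h3.bound (show (0 : ℝ) < 1 by norm_num)
    refine tendsto_atTop_mono' _ ?_ (tendsto_rpow_atTop (show (0 : ℝ) < 1 / 2 by norm_num))
    filter_upwards [h4, eventually_gt_atTop 1] with x h5 h6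
    have h7 : 0 < Real.log x := Real.log_pos h6
    have h8 : 0 < x := by linarith
    rw [Real.norm_of_nonneg h7.le, one_mul, Real.norm_of_nonneg (Real.rpow_nonneg h8.le _)] at h5
    rw [le_div_iff₀ (by positivity)]
    calc x ^ (1 / 2 : ℝ) * Real.log x ^ 2 ≤ x ^ (1 / 2 : ℝ) * (x ^ (1 / 4 : ℝ)) ^ 2 := by gcongr
      _ = x := by
        rw [← Real.rpow_natCast, ← Real.rpow_mul h8.le, ← Real.rpow_add h8]
        norm_num
  exact h2.comp tendsto_natCast_atTop_atTop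

theorem hh_half : Tendsto (fun x : ℕ => (((x / 2 : ℕ) : ℝ) / Real.log ((x / 2 : ℕ) : ℝ) ^ 2) / (x / Real.log x ^ 2))
    atTop (𝓝 (1 / 2)) := by
  have h1 := (log_ratio (f := fun x : ℕ => ((x / 2 : ℕ) : ℝ)) (c := 1 / 4) (C := 1) (by norm_num) one_pos (by
    filter_upwards [eventually_ge_atTop 2] with x hx
    constructor
    · have : x ≤ 4 * (x / 2) := by omega
      have h : (x : ℝ) ≤ 4 * (((x / 2 : ℕ) : ℝ)) := by exact_mod_cast this
      linarith
    · have : x / 2 ≤ x := by omega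
      have h : ((x / 2 : ℕ) : ℝ) ≤ (x : ℝ) := by exact_mod_cast this
      linarith)).inv₀ one_ne_zero
  have h2 := half_lim.mul (h1.pow 2)
  rw [inv_one, one_pow, mul_one] at h2
  refine h2.congr' ?_
  filter_upwards [eventually_ge_atTop 4] with x hx
  have hx4 : (4 : ℝ) ≤ x := by exact_mod_cast hx
  have hy2 : (2 : ℝ) ≤ ((x / 2 : ℕ) : ℝ) := by exact_mod_cast (by omega : 2 ≤ x / 2)
  have hl : 0 < Real.log x := Real.log_pos (by linarith)
  have hl2 : 0 < Real.log ((x / 2 : ℕ) : ℝ) := Real.log_pos (by linarith)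
  field_simp

/-- **the Hardy–Littlewood asymptotics of the expected number** -/
theorem expd2_lim {z : ℕ → ℕ} (hm : Monotone z) (hinf : Tendsto z atTop atTop)
    (hz : ∀ ε : ℝ, 0 < ε → ∀ᶠ n : ℕ in atTop, (z n : ℝ) ≤ (n : ℝ) ^ ε)
    (hreg : Tendsto (fun n : ℕ => Real.log (z (2 * n)) / Real.log (z n)) atTop (𝓝 1)) {G : ℝ}
    (hG : Tendsto (fun y : ℕ => VF y * V y ^ 2) atTop (𝓝 G)) :
    Tendsto (fun x : ℕ => expd2 z x / (x / Real.log x ^ 2)) atTop (𝓝 (G / 4)) := by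
  set h : ℕ → ℝ := fun x => (x : ℝ) / Real.log x ^ 2 with hh
  have h0 : ∀ x, 0 ≤ h x := fun x => by rw [hh]; positivity
  have h1 : Tendsto h atTop atTop := hh_inf
  have h2 : Tendsto (fun x : ℕ => h (x / 2) / h x) atTop (𝓝 (1 / 2)) := hh_half
  have hD : Tendsto (fun x : ℕ => D2 z x / h x) atTop (𝓝 (G / 8)) := D2_lim hm hinf hz hreg hG
  have h3 := dyadic (a := fun x => expd2 z x - G / 4 * h x) h0 h1 (by
    filter_upwards [h2.eventually_lt_const (show (1 / 2 : ℝ) < 2 / 3 by norm_num), h1.eventually_gt_atTop 0] with x g1 g2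
    rw [div_lt_iff₀ g2] at g1
    exact g1.le) (by
    have h4 := hD.sub ((h2.const_sub 1).const_mul (G / 4))
    have h5 : G / 8 - G / 4 * (1 - 1 / 2) = 0 := by ring
    rw [h5] at h4
    refine h4.congr' ?_
    filter_upwards [h1.eventually_gt_atTop 0] with x g2
    rw [← expd2_split]
    field_simp
    ring)
  have h4 := h3.add_const (G / 4)
  rw [zero_add] at h4
  refine h4.congr' ?_
  filter_upwards [h1.eventually_gt_atTop 0] with x g2
  rw [sub_div, mul_div_assoc, div_self g2.ne', mul_one, sub_add_cancel]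

end Pool.Agent.D0H68.TU
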