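import Pool.Agent.D0H68.TU.Two2
import Pool.Agent.Y781.JR.Dens

/-! The Hardy–Littlewood constant of the pairs `m ^ 2 + 1`, `m ^ 2 + 3`. -/

set_option autoImplicit false

open Filter Finset
open scoped Topology

namespace Pool.Agent.D0H68.TU

open Pool.Agent.D0H68.SD Pool.Agent.D0H41.LP

theorem nsq (a : ℕ) (ha : a = 1 ∨ a = 3) : ¬ IsSquare (-(a : ℤ)) := by
  rintro ⟨r, hr⟩
  have : 0 ≤ r * r := mul_self_nonneg r
  rcases ha with h | h <;> subst h <;> push_cast at hr <;> linarith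

theorem rt_jac {a p : ℕ} (hp : p.Prime) (h2 : p ≠ 2) : (rt a p : ℝ) = 1 + (jacobiSym (-(a : ℤ)) p : ℝ) := by
  haveI : Fact p.Prime := ⟨hp⟩
  have h := Pool.Agent.D0H13.LP.rt_eq (a := a) (p := p) h2
  rw [jacobiSym.legendreSym.to_jacobiSym] at h
  have h' : ((rt a p : ℤ) : ℝ) = ((jacobiSym (-(a : ℤ)) p + 1 : ℤ) : ℝ) := by rw [h]
  push_cast at h'
  linarith

/-- primes between `5` and `z` -/
def P5 (z : ℕ) : Finset ℕ := (P z).filter fun p => 5 ≤ p

theorem mem_P5 {z p : ℕ} : p ∈ P5 z ↔ p ≤ z ∧ p.Prime ∧ 5 ≤ p := by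
  unfold P5 P
  rw [mem_filter, mem_filter, mem_Icc]
  constructor
  · rintro ⟨⟨⟨_, h1⟩, h2⟩, h3⟩; exact ⟨h1, h2, h3⟩
  · rintro ⟨h1, h2, h3⟩; exact ⟨⟨⟨h2.one_le, h1⟩, h2⟩, h3⟩

theorem P_split {z : ℕ} (hz : 3 ≤ z) : P z = insert 2 (insert 3 (P5 z)) := by
  ext p
  rw [mem_insert, mem_insert, mem_P5]
  unfold P
  rw [mem_filter, mem_Icc]
  constructor
  · rintro ⟨⟨h1, h2⟩, h3⟩
    rcases Nat.lt_or_ge p 5 with h5 | h5
    · have := h3.two_le
      interval_cases p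
      · exact Or.inl rfl
      · exact Or.inr (Or.inl rfl)
      · exact absurd h3 (by norm_num)
    · exact Or.inr (Or.inr ⟨h2, h3, h5⟩)
  · rintro (h | h | ⟨h1, h2, h3⟩)
    · subst h; exact ⟨⟨by norm_num, by omega⟩, Nat.prime_two⟩
    · subst h; exact ⟨⟨by norm_num, hz⟩, Nat.prime_three⟩
    · exact ⟨⟨h2.one_le, h1⟩, h2⟩

theorem chi_conv (a : ℕ) (ha : a = 1 ∨ a = 3) : ∃ τ : ℝ,
    Tendsto (fun z : ℕ => ∑ p ∈ P5 z, ((rt a p : ℝ) - 1) / p) atTop (𝓝 τ) := by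
  obtain ⟨P0, -, hP0⟩ := Pool.Agent.Y882.SI.dyad (-(a : ℤ)) (nsq a ha)
  obtain ⟨τ, hτ⟩ := Pool.Agent.Y781.JR.TT_conv (fun n => (jacobiSym (-(a : ℤ)) n : ℝ)) P0 (fun P Q hP hPQ hQ => by
    have := hP0 1 P Q hP hPQ (by rw [pow_one]; exact hQ)
    rw [Nat.cast_one] at this
    exact this)
  refine ⟨τ - (jacobiSym (-(a : ℤ)) 3 : ℝ) / 3, ?_⟩
  have h1 := ((hτ.comp (tendsto_add_atTop_nat 1)).sub_const ((jacobiSym (-(a : ℤ)) 3 : ℝ) / 3))
  refine h1.congr' ?_
  filter_upwards [eventually_ge_atTop 3] with z hz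
  simp only [Function.comp]
  unfold Pool.Agent.Y781.JR.TT
  have h2 : (range (z + 1)).filter (fun p : ℕ => p.Prime ∧ p ≠ 2) = insert 3 (P5 z) := by
    ext p
    rw [mem_filter, mem_range, mem_insert, mem_P5]
    constructor
    · rintro ⟨h1, h2, h3⟩
      rcases Nat.lt_or_ge p 5 with h5 | h5
      · have := h2.two_le
        interval_cases p
        · exact absurd rfl h3
        · exact Or.inl rfl
        · exact absurd h2 (by norm_num)
      · exact Or.inr ⟨by omega, h2, h5⟩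
    · rintro (h | ⟨h1, h2, h3⟩)
      · subst h; exact ⟨by omega, Nat.prime_three, by norm_num⟩
      · exact ⟨by omega, h2, by omega⟩
  rw [h2, sum_insert (by rw [mem_P5]; omega)]
  push_cast
  rw [add_sub_cancel_left]
  refine sum_congr rfl fun p hp => ?_
  rw [mem_P5] at hp
  rw [rt_jac hp.2.1 (by omega)]
  ring

theorem rF_eq {p : ℕ} (hp : p.Prime) (h5 : 5 ≤ p) : rF p = rt 1 p + rt 3 p := by
  unfold rF rt
  rw [← card_union_of_disjoint]
  · congr 1
    ext r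
    rw [Finset.mem_union, mem_filter, mem_filter, mem_filter]
    unfold F
    rw [hp.dvd_mul]
    tauto
  · rw [Finset.disjoint_left]
    intro r h1 h2
    rw [mem_filter] at h1 h2
    have h3 := (Nat.dvd_sub h2.2 h1.2)
    have h4 : r ^ 2 + 3 - (r ^ 2 + 1) = 2 := by omega
    rw [h4] at h3
    have := Nat.le_of_dvd (by norm_num) h3
    omega

/-- the local factor -/
noncomputable def gg (p : ℕ) : ℝ := (1 - (rF p : ℝ) / p) * ((1 - (p : ℝ)⁻¹)⁻¹) ^ 2

theorem prod_gg (z : ℕ) : VF z * V z ^ 2 = ∏ p ∈ P z, gg p := by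
  unfold VF V gg
  rw [prod_mul_distrib, prod_pow]
  rfl

theorem gg_pos {p : ℕ} (hp : p.Prime) : 0 < gg p := by
  unfold gg
  have h1 := (Pool.Agent.D0H13.LP.rF_bd hp).1
  have h2 := fac_ge p hp
  have h3 : 0 < 1 - (rF p : ℝ) / p := by linarith
  positivity

theorem gg_log {p : ℕ} (hp : p.Prime) (h5 : 5 ≤ p) :
    |Real.log (gg p) + (((rt 1 p : ℝ) - 1) / p + ((rt 3 p : ℝ) - 1) / p)| ≤ 80 * (1 / (p : ℝ) ^ 2) := by
  have hp0 : (0 : ℝ) < p := by exact_mod_cast hp.pos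
  have hp5 : (5 : ℝ) ≤ p := by exact_mod_cast h5
  obtain ⟨h1, h2⟩ := Pool.Agent.D0H13.LP.rF_bd hp
  set s : ℝ := (rF p : ℝ) / p with hs
  set t : ℝ := (p : ℝ)⁻¹ with ht
  have ht0 : 0 < t := by positivity
  have ht5 : t ≤ 1 / 5 := by
    rw [ht, ← one_div]
    exact one_div_le_one_div_of_le (by norm_num) hp5
  have hs0 : 0 ≤ s := by positivity
  have hst : s ≤ 4 * t := by
    rw [hs, ht, div_eq_mul_inv]
    exact mul_le_mul_of_nonneg_right h2 (by positivity)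
  have h3 : ((rt 1 p : ℝ) - 1) / p + ((rt 3 p : ℝ) - 1) / p = s - 2 * t := by
    have : (rF p : ℝ) = rt 1 p + rt 3 p := by exact_mod_cast rF_eq hp h5
    rw [hs, ht, this]
    field_simp
    ring
  have h4 : Real.log (gg p) = Real.log (1 - s) - 2 * Real.log (1 - t) := by
    have hs1 : 0 < 1 - s := by linarith
    have ht1 : 0 < 1 - t := by linarith
    unfold gg
    rw [Real.log_mul hs1.ne' (by positivity), Real.log_pow, Real.log_inv]
    push_cast
    ring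
  have bd : ∀ x : ℝ, 0 ≤ x → x ≤ 4 / 5 → -(x + 5 * x ^ 2) ≤ Real.log (1 - x) ∧ Real.log (1 - x) ≤ -x := by
    intro x hx0 hx1
    constructor
    · have := Real.log_le_log (Real.exp_pos _) (Pool.Agent.D0H13.LP.log_bd hx0 hx1)
      rwa [Real.log_exp] at this
    · have := Real.log_le_sub_one_of_pos (show 0 < 1 - x by linarith)
      linarith
  obtain ⟨b1, b2⟩ := bd s hs0 h1
  obtain ⟨c1, c2⟩ := bd t ht0.le (by linarith)
  have h5 : 1 / (p : ℝ) ^ 2 = t ^ 2 := by rw [ht]; field_simp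
  rw [h3, h4, h5, abs_le]
  have hss : s ^ 2 ≤ 16 * t ^ 2 := by nlinarith
  constructor <;> nlinarith

/-- **the Hardy–Littlewood constant** -/
theorem hl_const : ∃ G : ℝ, 0 < G ∧ Tendsto (fun z : ℕ => VF z * V z ^ 2) atTop (𝓝 G) := by
  classical
  obtain ⟨τ1, hτ1⟩ := chi_conv 1 (Or.inl rfl)
  obtain ⟨τ3, hτ3⟩ := chi_conv 3 (Or.inr rfl)
  set e : ℕ → ℝ := fun p => if p.Prime ∧ 5 ≤ p then
    Real.log (gg p) + (((rt 1 p : ℝ) - 1) / p + ((rt 3 p : ℝ) - 1) / p) else 0 with he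
  have hes : Summable e := by
    have h0 : Summable (fun n : ℕ => 80 * (1 / (n : ℝ) ^ 2)) :=
      ((Real.summable_one_div_nat_pow (p := 2)).2 (by norm_num)).mul_left 80
    refine Summable.of_norm_bounded h0 fun n => ?_
    rw [he]
    simp only
    split_ifs with h
    · rw [Real.norm_eq_abs]; exact gg_log h.1 h.2
    · rw [norm_zero]; positivity
  have h1 := (hes.hasSum.tendsto_sum_nat).comp (tendsto_add_atTop_nat 1)
  have h2 : Tendsto (fun z : ℕ => ∑ p ∈ P5 z, Real.log (gg p)) atTop (𝓝 (∑' n, e n - (τ1 + τ3))) := by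
    refine (h1.sub (hτ1.add hτ3)).congr fun z => ?_
    simp only [Function.comp]
    have h3 : ∑ n ∈ range (z + 1), e n = ∑ p ∈ P5 z, (Real.log (gg p) + (((rt 1 p : ℝ) - 1) / p + ((rt 3 p : ℝ) - 1) / p)) := by
      rw [he]
      simp only
      rw [← sum_filter]
      apply sum_congr _ fun _ _ => rfl
      ext p
      rw [mem_filter, mem_range, mem_P5]
      constructor
      · rintro ⟨a, b, c⟩; exact ⟨by omega, b, c⟩
      · rintro ⟨a, b, c⟩; exact ⟨by omega, b, c⟩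
    rw [h3, ← sum_add_distrib, ← sum_sub_distrib]
    refine sum_congr rfl fun p _ => ?_
    ring
  refine ⟨gg 2 * (gg 3 * Real.exp (∑' n, e n - (τ1 + τ3))),
    mul_pos (gg_pos Nat.prime_two) (mul_pos (gg_pos Nat.prime_three) (Real.exp_pos _)), ?_⟩
  have h3 := (((Real.continuous_exp.tendsto _).comp h2).const_mul (gg 3)).const_mul (gg 2)
  refine h3.congr' ?_
  filter_upwards [eventually_ge_atTop 3] with z hz
  rw [prod_gg, P_split hz, prod_insert, prod_insert]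
  · simp only [Function.comp]
    rw [Real.exp_sum]
    congr 2
    refine prod_congr rfl fun p hp => ?_
    rw [mem_P5] at hp
    exact Real.exp_log (gg_pos hp.2.1)
  · rw [mem_P5]; omega
  · rw [mem_insert, mem_P5]; omega

end Pool.Agent.D0H68.TU
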