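import Pool.Agent.D0H68.TU.Gol
import Pool.Agent.D0H65.LP.Siv

/-! Representations `n = p + m q + r` with `p`, `q`, `q ^ 2 - 2` rough: the sieve. -/

set_option autoImplicit false

open Filter Finset
open scoped Topology

namespace Pool.Agent.D0H68.TU

open Pool.Agent.D0H68.SD Pool.Agent.D0H65.LP Pool.Agent.D0H41.LP Pool.Agent.H373R2.T7

/-- the sieve condition: `l` divides `q`, `q ^ 2 - 2` or `N - m q` -/
def QQ (N m : ℕ) (l q : ℕ) : Prop := (l : ℤ) ∣ q ∨ (l : ℤ) ∣ (q : ℤ) ^ 2 - 2 ∨ (l : ℤ) ∣ (N : ℤ) - m * q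

theorem QQ_per (N m l q : ℕ) : QQ N m l q ↔ QQ N m l (q % l) := by
  have h : (l : ℤ) ∣ (q : ℤ) - ((q % l : ℕ) : ℤ) := by
    refine ⟨((q / l : ℕ) : ℤ), ?_⟩
    have h1 := Nat.div_add_mod q l
    have h2 : ((l * (q / l) + q % l : ℕ) : ℤ) = q := by rw [h1]
    push_cast at h2 ⊢
    linarith
  unfold QQ
  rw [dvd_iff_dvd_of_dvd_sub h]
  have h2 : (l : ℤ) ∣ ((q : ℤ) ^ 2 - 2) - ((((q % l : ℕ) : ℤ)) ^ 2 - 2) := by
    have : ((q : ℤ) ^ 2 - 2) - ((((q % l : ℕ) : ℤ)) ^ 2 - 2) = ((q : ℤ) - ((q % l : ℕ) : ℤ)) * (q + ((q % l : ℕ) : ℤ)) := by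
      ring
    rw [this]
    exact Dvd.dvd.mul_right h _
  rw [dvd_iff_dvd_of_dvd_sub h2]
  have h3 : (l : ℤ) ∣ ((N : ℤ) - m * q) - ((N : ℤ) - m * ((q % l : ℕ) : ℤ)) := by
    have : ((N : ℤ) - m * q) - ((N : ℤ) - m * ((q % l : ℕ) : ℤ)) = ((q : ℤ) - ((q % l : ℕ) : ℤ)) * (-m) := by ring
    rw [this]
    exact Dvd.dvd.mul_right h _
  rw [dvd_iff_dvd_of_dvd_sub h3]

theorem lin_one {N m l : ℕ} (hl : l.Prime) (hco : Nat.Coprime N m) :
    ((range l).filter fun q : ℕ => (l : ℤ) ∣ (N : ℤ) - m * q).card ≤ 1 := by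
  rw [card_le_one]
  intro a ha b hb
  rw [mem_filter, mem_range] at ha hb
  have h1 : (l : ℤ) ∣ (m : ℤ) * ((a : ℤ) - b) := by
    have := dvd_sub hb.2 ha.2
    have e : ((N : ℤ) - m * b) - ((N : ℤ) - m * a) = (m : ℤ) * ((a : ℤ) - b) := by ring
    rwa [e] at this
  rcases (Nat.prime_iff_prime_int.1 hl).dvd_or_dvd h1 with h2 | h2
  · exfalso
    have h3 : l ∣ m := by exact_mod_cast h2
    have h4 : (l : ℤ) ∣ N := by
      have h5 : (l : ℤ) ∣ (m : ℤ) * a := Dvd.dvd.mul_right h2 _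
      have := dvd_add ha.2 h5
      rwa [sub_add_cancel] at this
    have h5 : l ∣ N := by exact_mod_cast h4
    exact hl.one_lt.ne' (Nat.eq_one_of_dvd_coprimes hco h5 h3)
  · have h3 : (b : ℤ) ≡ a [ZMOD l] := by rw [Int.modEq_iff_dvd]; exact h2
    have h4 : b ≡ a [MOD l] := by exact_mod_cast h3
    exact (Nat.ModEq.eq_of_lt_of_lt h4 hb.1 ha.1).symm

theorem nu_four {N m l : ℕ} (hl : l.Prime) (hco : Nat.Coprime N m) : nuB (QQ N m) l ≤ 4 := by
  classical
  unfold nuB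
  have hsub : ((range l).filter fun r => QQ N m l r) ⊆ ({0} ∪ ((range l).filter fun r => l ∣ r ^ 2 + (l - 2))) ∪
      ((range l).filter fun q : ℕ => (l : ℤ) ∣ (N : ℤ) - m * q) := by
    intro r hr
    rw [mem_filter, mem_range] at hr
    obtain ⟨h1, h2⟩ := hr
    rw [mem_union, mem_union, mem_singleton, mem_filter, mem_filter, mem_range]
    rcases h2 with h2 | h2 | h2
    · left; left
      have h3 : l ∣ r := by exact_mod_cast h2
      exact Nat.eq_zero_of_dvd_of_lt h3 h1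
    · left; right
      refine ⟨h1, ?_⟩
      have h3 : (l : ℤ) ∣ ((r ^ 2 + (l - 2) : ℕ) : ℤ) := by
        have h4 : ((r ^ 2 + (l - 2) : ℕ) : ℤ) = ((r : ℤ) ^ 2 - 2) + l := by
          push_cast [Nat.cast_sub hl.two_le]
          ring
        rw [h4]
        exact dvd_add h2 (dvd_refl _)
      exact_mod_cast h3
    · right
      exact ⟨h1, h2⟩
  refine (card_le_card hsub).trans ((card_union_le _ _).trans ?_)
  have h1 : (({0} : Finset ℕ) ∪ ((range l).filter fun r => l ∣ r ^ 2 + (l - 2))).card ≤ 1 + 2 := by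
    refine (card_union_le _ _).trans ?_
    rw [card_singleton]
    have := rt_le (l - 2) l hl
    unfold rt at this
    omega
  have h2 := lin_one (N := N) (m := m) hl hco
  omega

theorem nu_two {N m : ℕ} (hpar : (N + m) % 2 = 1) : nuB (QQ N m) 2 ≤ 1 := by
  classical
  unfold nuB
  have hsub : ((range 2).filter fun r => QQ N m 2 r) ⊆ {0} := by
    intro r hr
    rw [mem_filter, mem_range] at hr
    obtain ⟨h1, h2⟩ := hr
    rw [mem_singleton]
    by_contra h0
    have hr1 : r = 1 := by omega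
    subst hr1
    unfold QQ at h2
    push_cast at h2
    rcases h2 with h2 | h2 | h2
    · omega
    · omega
    · omega
  exact (card_le_card hsub).trans (by simp)

theorem nu_three {N m : ℕ} (hco : Nat.Coprime N m) : nuB (QQ N m) 3 ≤ 2 := by
  classical
  unfold nuB
  have h1 : ∃ q ∈ range 3, ¬ QQ N m 3 q := by
    by_contra hcon
    push Not at hcon
    have a1 := hcon 1 (by simp)
    have a2 := hcon 2 (by simp)
    unfold QQ at a1 a2
    have b1 : (3 : ℤ) ∣ (N : ℤ) - m * 1 := by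
      rcases a1 with h | h | h
      · exact absurd h (by decide)
      · exact absurd h (by decide)
      · exact_mod_cast h
    have b2 : (3 : ℤ) ∣ (N : ℤ) - m * 2 := by
      rcases a2 with h | h | h
      · exact absurd h (by decide)
      · exact absurd h (by decide)
      · exact_mod_cast h
    have c1 : (3 : ℤ) ∣ m := by omega
    have c2 : (3 : ℤ) ∣ N := by omega
    have d1 : 3 ∣ m := by exact_mod_cast c1
    have d2 : 3 ∣ N := by exact_mod_cast c2
    have := Nat.eq_one_of_dvd_coprimes hco d2 d1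
    omega
  obtain ⟨q, hq, hq2⟩ := h1
  have hss : ((range 3).filter fun r => QQ N m 3 r) ⊂ range 3 := by
    rw [Finset.ssubset_iff_of_subset (filter_subset _ _)]
    exact ⟨q, hq, fun h => hq2 (mem_filter.1 h).2⟩
  have := card_lt_card hss
  rw [card_range] at this
  omega

theorem QQ_PerB {N m : ℕ} (hco : Nat.Coprime N m) : PerB (QQ N m) 4 :=
  ⟨fun p n => QQ_per N m p n, fun _ hp => nu_four hp hco⟩

theorem fac_low' {N m : ℕ} (hco : Nat.Coprime N m) (hpar : (N + m) % 2 = 1) (q : ℕ) (hq : q.Prime) :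
    (1 - 1 / (q : ℝ)) ^ 8 ≤ 1 - (nuB (QQ N m) q : ℝ) / q := by
  rcases Nat.lt_or_ge q 5 with h5 | h5
  · have hq2 : q = 2 ∨ q = 3 := by
      have := hq.two_le
      interval_cases q
      · left; rfl
      · right; rfl
      · exact absurd hq (by norm_num)
    rcases hq2 with h | h
    · subst h
      have h1 : (nuB (QQ N m) 2 : ℝ) ≤ 1 := by exact_mod_cast nu_two hpar
      push_cast
      linarith
    · subst h
      have h1 : (nuB (QQ N m) 3 : ℝ) ≤ 2 := by exact_mod_cast nu_three hco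
      push_cast
      norm_num
      linarith
  · have hqr : (5 : ℝ) ≤ q := by exact_mod_cast h5
    have hq0 : (0 : ℝ) < q := by linarith
    have h1 : (nuB (QQ N m) q : ℝ) ≤ 4 := by exact_mod_cast nu_four hq hco
    have h2 : (nuB (QQ N m) q : ℝ) / q ≤ 4 * (1 / (q : ℝ)) := by
      rw [mul_one_div]
      exact div_le_div_of_nonneg_right h1 hq0.le
    set x : ℝ := 1 / (q : ℝ) with hx
    have hx0 : 0 < x := by positivity
    have hx5 : x ≤ 1 / 5 := one_div_le_one_div_of_le (by norm_num) hqr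
    have a1 : (1 - x) ^ 2 ≤ 1 - 9 / 5 * x := by nlinarith
    have a2 : (1 - x) ^ 4 ≤ 1 - 295 / 100 * x := by
      calc (1 - x) ^ 4 = ((1 - x) ^ 2) ^ 2 := by ring
        _ ≤ (1 - 9 / 5 * x) ^ 2 := pow_le_pow_left₀ (by positivity) a1 2
        _ ≤ _ := by nlinarith
    have a3 : (1 - x) ^ 8 ≤ 1 - 4 * x := by
      calc (1 - x) ^ 8 = ((1 - x) ^ 4) ^ 2 := by ring
        _ ≤ (1 - 295 / 100 * x) ^ 2 := pow_le_pow_left₀ (by positivity) a2 2
        _ ≤ _ := by nlinarith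
    linarith

theorem prod_low' {N m : ℕ} (hco : Nat.Coprime N m) (hpar : (N + m) % 2 = 1) (z : ℕ) :
    Vz z ^ 8 ≤ ∏ p ∈ pz z, (1 - (nuB (QQ N m) p : ℝ) / p) := by
  unfold Vz
  rw [← prod_pow]
  apply Finset.prod_le_prod
  · intro i hi
    have h1 : (1 : ℝ) < i := by exact_mod_cast (mem_pz.1 hi).2.one_lt
    have h2 : 1 / (i : ℝ) ≤ 1 := by rw [div_le_one (by linarith)]; exact h1.le
    have : 0 ≤ 1 - 1 / (i : ℝ) := by linarith
    positivity
  · intro i hi
    exact fac_low' hco hpar i (mem_pz.1 hi).2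

theorem logpow (A : ℕ) (C ε : ℝ) (hε : 0 < ε) : ∀ᶠ n : ℕ in atTop, C * Real.log n ^ A ≤ (n : ℝ) ^ ε := by
  rcases le_or_gt C 0 with hC | hC
  · filter_upwards [eventually_ge_atTop 1] with n hn
    have h1 : 0 ≤ Real.log n ^ A := pow_nonneg (Real.log_natCast_nonneg n) _
    have h2 : 0 ≤ (n : ℝ) ^ ε := by positivity
    nlinarith
  · have h1 : (fun x : ℝ => Real.log x ^ A) =o[atTop] fun x : ℝ => x ^ ε := by
      have := isLittleO_log_rpow_rpow_atTop (A : ℝ) hε
      refine this.congr_left fun x => ?_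
      rw [Real.rpow_natCast]
    have h2 := h1.bound (show (0 : ℝ) < 1 / C by positivity)
    have h3 := tendsto_natCast_atTop_atTop.eventually h2
    filter_upwards [h3] with n hn
    rw [Real.norm_of_nonneg (pow_nonneg (Real.log_natCast_nonneg n) _), Real.norm_of_nonneg (by positivity)] at hn
    have := mul_le_mul_of_nonneg_left hn hC.le
    have h4 : C * (1 / C * (n : ℝ) ^ ε) = (n : ℝ) ^ ε := by field_simp
    linarith

open Classical in
/-- the sieve: many `q ≤ X` -/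
theorem sift3 : ∃ K : ℕ, 1 ≤ K ∧ ∃ A Z0 : ℕ, ∀ X Z : ℕ, Z0 ≤ Z → Z ^ K ≤ X → ∀ N m : ℕ, Nat.Coprime N m →
    (N + m) % 2 = 1 → (X : ℝ) / (4 * Real.log X ^ A) ≤
      (((Icc 1 X).filter (fun q : ℕ => ∀ l ∈ pz Z, ¬ QQ N m l q)).card : ℝ) := by
  obtain ⟨K, x0, hK, hfund⟩ := sys_fund 4 (by norm_num) (1 / 2) (by norm_num)
  obtain ⟨C, N0, hV⟩ := Vz_low
  obtain ⟨X1, hX1⟩ := eventually_atTop.1 (logpow (8 * C) 4 (1 / 2) (by norm_num))
  refine ⟨K, hK, 8 * C, max (max x0 N0) (max X1 3), fun X Z hZ hZX N m hco hpar => ?_⟩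
  have hZ1 : x0 ≤ Z := le_trans (le_trans (le_max_left _ _) (le_max_left _ _)) hZ
  have hZ2 : N0 ≤ Z := le_trans (le_trans (le_max_right _ _) (le_max_left _ _)) hZ
  have hZ3 : X1 ≤ Z := le_trans (le_trans (le_max_left _ _) (le_max_right _ _)) hZ
  have hZ4 : 3 ≤ Z := le_trans (le_trans (le_max_right _ _) (le_max_right _ _)) hZ
  have hZK : Z ≤ Z ^ K := Nat.le_self_pow (by omega) Z
  have hX3 : (3 : ℝ) ≤ X := by exact_mod_cast (by omega : 3 ≤ X)
  have hZr : (3 : ℝ) ≤ Z := by exact_mod_cast hZ4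
  have hlZ : 0 < Real.log Z := Real.log_pos (by linarith)
  have hlZX : Real.log Z ≤ Real.log X := Real.log_le_log (by linarith) (by exact_mod_cast hZK.trans hZX)
  have hlX : 0 < Real.log X := hlZ.trans_le hlZX
  have h1 := (abs_le.1 (hfund X Z hZ1 hZX (QQ N m) (QQ_PerB hco) X)).1
  have h2 := hV Z hZ2
  have h3 := prod_low' hco hpar Z
  set Pi : ℝ := ∏ p ∈ pz Z, (1 - (nuB (QQ N m) p : ℝ) / p) with hPi
  have h4 : 1 / Real.log X ^ (8 * C) ≤ Pi := by
    refine le_trans ?_ h3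
    calc 1 / Real.log X ^ (8 * C) ≤ 1 / Real.log Z ^ (8 * C) := by
          apply one_div_le_one_div_of_le (by positivity)
          gcongr
      _ = (1 / Real.log Z ^ C) ^ 8 := by rw [div_pow, one_pow, ← pow_mul, mul_comm]
      _ ≤ Vz Z ^ 8 := pow_le_pow_left₀ (by positivity) h2 8
  have h5 := hX1 X (by omega)
  rw [← Real.sqrt_eq_rpow] at h5
  have h6 : (X : ℝ) * (1 / Real.log X ^ (8 * C)) ≤ X * Pi := mul_le_mul_of_nonneg_left h4 (by positivity)
  have h7 : √(X : ℝ) ≤ X / (4 * Real.log X ^ (8 * C)) := by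
    rw [le_div_iff₀ (by positivity)]
    have h8 : √(X : ℝ) * √(X : ℝ) = X := Real.mul_self_sqrt (by positivity)
    have := mul_le_mul_of_nonneg_left h5 (Real.sqrt_nonneg (X : ℝ))
    linarith
  have h8 : (X : ℝ) * (1 / Real.log X ^ (8 * C)) = 4 * (X / (4 * Real.log X ^ (8 * C))) := by
    field_simp
  linarith

end Pool.Agent.D0H68.TU
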