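import Pool.Agent.D0H68.TU.Add

/-! Representations `n = p + m q + r`, `0 ≤ r < m`, with `p`, `q`, `q ^ 2 - 2` chosen: decomposition. -/

set_option autoImplicit false

open MeasureTheory Filter Finset
open scoped Topology

namespace Pool.Agent.D0H68.TU

open Pool.Agent.D0H68.SD

/-- the `p`, `0 < p < n`, with a given remainder `r` and quotient at least `2` -/
def Ar (n m r : ℕ) : Finset ℕ := (Ioo 0 n).filter fun p => (n - p) % m = r ∧ 2 ≤ (n - p) / m

/-- the three orders of `p`, `q`, `q ^ 2 - 2` -/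
def cond (T n m p : ℕ) : Prop := 3 ≤ (n - p) / m ∧
  (if T = 0 then ((n - p) / m) ^ 2 - 2 < p else if T = 1 then (n - p) / m < p ∧ p < ((n - p) / m) ^ 2 - 2
    else p < (n - p) / m)

instance (T n m p : ℕ) : Decidable (cond T n m p) := by
  unfold cond
  infer_instance

/-- the ordered forms -/
def g (T n m j p : ℕ) : ℕ :=
  if T = 0 then (if j = 0 then (n - p) / m else if j = 1 then ((n - p) / m) ^ 2 - 2 else p)
  else if T = 1 then (if j = 0 then (n - p) / m else if j = 1 then p else ((n - p) / m) ^ 2 - 2)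
  else (if j = 0 then p else if j = 1 then (n - p) / m else ((n - p) / m) ^ 2 - 2)

def JJ (T n m r : ℕ) : Finset ℕ := (Ar n m r).filter fun p => cond T n m p

theorem mem_Ar {n m r p : ℕ} : p ∈ Ar n m r ↔ (0 < p ∧ p < n) ∧ (n - p) % m = r ∧ 2 ≤ (n - p) / m := by
  unfold Ar
  rw [mem_filter, mem_Ioo]

theorem inj_q {n m r p p' : ℕ} (hp : p ∈ Ar n m r) (hp' : p' ∈ Ar n m r) (h : (n - p) / m = (n - p') / m) : p = p' := by
  rw [mem_Ar] at hp hp'
  have h1 := Nat.div_add_mod (n - p) m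
  have h2 := Nat.div_add_mod (n - p') m
  rw [hp.2.1] at h1
  rw [hp'.2.1, ← h] at h2
  omega

theorem inj_sq {q q' : ℕ} (h2 : 2 ≤ q) (h2' : 2 ≤ q') (h : q ^ 2 - 2 = q' ^ 2 - 2) : q = q' := by
  have h3 : 4 ≤ q ^ 2 := by nlinarith
  have h4 : 4 ≤ q' ^ 2 := by nlinarith
  have : q ^ 2 = q' ^ 2 := by omega
  exact Nat.pow_left_injective (n := 2) (by norm_num) this

theorem sq_big {q : ℕ} (h : 3 ≤ q) : q < q ^ 2 - 2 := by
  have : 3 * q ≤ q ^ 2 := by nlinarith
  omega

theorem ok3 (T : ℕ) (n m r : ℕ) : OK (g T n m) 3 (JJ T n m r) := by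
  refine ⟨fun p hp i hi => ?_, fun i hi p hp p' hp' h => ?_, fun i hi p hp => ?_⟩
  · unfold JJ at hp
    rw [mem_filter] at hp
    obtain ⟨h1, h2, h3⟩ := hp
    have h4 := sq_big h2
    unfold g
    have hi' : i < 2 := by omega
    by_cases hT0 : T = 0
    · rw [if_pos hT0] at h3
      simp only [hT0, if_true]
      interval_cases i
      · simpa using h4
      · simpa using h3
    · rw [if_neg hT0] at h3
      by_cases hT1 : T = 1
      · rw [if_pos hT1] at h3
        simp only [hT0, hT1, if_true, if_false]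
        interval_cases i
        · simpa using h3.1
        · simpa using h3.2
      · rw [if_neg hT1] at h3
        simp only [hT0, hT1, if_false]
        interval_cases i
        · simpa using h3
        · simpa using h4
  · unfold JJ at hp hp'
    rw [Finset.mem_coe, mem_filter] at hp hp'
    obtain ⟨h1, h2, -⟩ := hp
    obtain ⟨h1', h2', -⟩ := hp'
    have a1 : p = p' → p = p' := id
    have a2 : (n - p) / m = (n - p') / m → p = p' := inj_q h1 h1'
    have a3 : ((n - p) / m) ^ 2 - 2 = ((n - p') / m) ^ 2 - 2 → p = p' :=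
      fun h => a2 (inj_sq (by omega) (by omega) h)
    unfold g at h
    split_ifs at h
    · exact a2 h
    · exact a3 h
    · exact a1 h
    · exact a2 h
    · exact a1 h
    · exact a3 h
    · exact a1 h
    · exact a2 h
    · exact a3 h
  · unfold JJ at hp
    rw [mem_filter] at hp
    obtain ⟨h1, h2, -⟩ := hp
    have h4 := sq_big h2
    have h5 := (mem_Ar.1 h1).1.1
    unfold g
    split_ifs <;> omega

/-- the three orders cover everything but at most three `p` -/
theorem split {n m r : ℕ} {w : ℕ → ℝ} {B : ℝ} (h0 : ∀ p, 0 ≤ w p) (hB : ∀ p, w p ≤ B) :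
    ∑ T ∈ range 3, ∑ p ∈ JJ T n m r, w p ≤ ∑ p ∈ Ar n m r, w p ∧
    ∑ p ∈ Ar n m r, w p ≤ ∑ T ∈ range 3, ∑ p ∈ JJ T n m r, w p + 3 * B := by
  classical
  have hB0 : 0 ≤ B := (h0 0).trans (hB 0)
  have h1 : ∀ T, ∑ p ∈ JJ T n m r, w p = ∑ p ∈ Ar n m r, if cond T n m p then w p else 0 := by
    intro T
    unfold JJ
    rw [sum_filter]
  have h2 : ∑ T ∈ range 3, ∑ p ∈ JJ T n m r, w p = ∑ p ∈ Ar n m r, ∑ T ∈ range 3, if cond T n m p then w p else 0 := by
    rw [sum_comm]
    exact sum_congr rfl fun T _ => h1 T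
  rw [h2]
  have h3 : ∀ p, ∑ T ∈ range 3, (if cond T n m p then w p else 0) = (if cond 0 n m p then w p else 0) +
      (if cond 1 n m p then w p else 0) + (if cond 2 n m p then w p else 0) := by
    intro p
    rw [sum_range_succ, sum_range_succ, sum_range_one]
  constructor
  · refine sum_le_sum fun p _ => ?_
    rw [h3]
    have := h0 p
    have e01 : ¬ (cond 0 n m p ∧ cond 1 n m p) := by
      unfold cond
      norm_num
      intro h4 h5 _ h6
      omega
    have e02 : ¬ (cond 0 n m p ∧ cond 2 n m p) := by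
      unfold cond
      norm_num
      intro h4 h5 _
      have := sq_big h4
      omega
    have e12 : ¬ (cond 1 n m p ∧ cond 2 n m p) := by
      unfold cond
      norm_num
      intro h4 h5 _ _
      omega
    by_cases c0 : cond 0 n m p
    · have c1 : ¬ cond 1 n m p := fun h => e01 ⟨c0, h⟩
      have c2 : ¬ cond 2 n m p := fun h => e02 ⟨c0, h⟩
      rw [if_pos c0, if_neg c1, if_neg c2]; linarith
    · by_cases c1 : cond 1 n m p
      · have c2 : ¬ cond 2 n m p := fun h => e12 ⟨c1, h⟩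
        rw [if_neg c0, if_pos c1, if_neg c2]; linarith
      · rw [if_neg c0, if_neg c1]
        split_ifs <;> linarith
  · have h4 : ∀ p ∈ Ar n m r, w p ≤ ∑ T ∈ range 3, (if cond T n m p then w p else 0) +
        ((if (n - p) / m = 2 then B else 0) + (if p = (n - p) / m then B else 0) +
          (if p = ((n - p) / m) ^ 2 - 2 then B else 0)) := by
      intro p hp
      rw [h3]
      have hq2 := (mem_Ar.1 hp).2.2
      have hw := h0 p
      have hwB := hB p
      have i0 : 0 ≤ (if cond 0 n m p then w p else 0) := by split_ifs <;> linarith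
      have i1 : 0 ≤ (if cond 1 n m p then w p else 0) := by split_ifs <;> linarith
      have i2 : 0 ≤ (if cond 2 n m p then w p else 0) := by split_ifs <;> linarith
      have j0 : 0 ≤ (if (n - p) / m = 2 then B else 0) := by split_ifs <;> linarith
      have j1 : 0 ≤ (if p = (n - p) / m then B else 0) := by split_ifs <;> linarith
      have j2 : 0 ≤ (if p = ((n - p) / m) ^ 2 - 2 then B else 0) := by split_ifs <;> linarith
      by_cases c0 : (n - p) / m = 2
      · rw [if_pos c0] at j0 ⊢; linarith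
      · have h3q : 3 ≤ (n - p) / m := by omega
        rcases lt_trichotomy p ((n - p) / m) with h5 | h5 | h5
        · have : cond 2 n m p := by unfold cond; norm_num; exact ⟨h3q, h5⟩
          rw [if_pos this] at i2 ⊢; linarith
        · rw [if_pos h5] at j1 ⊢; linarith
        · rcases lt_trichotomy p (((n - p) / m) ^ 2 - 2) with h6 | h6 | h6
          · have : cond 1 n m p := by unfold cond; norm_num; exact ⟨h3q, h5, h6⟩
            rw [if_pos this] at i1 ⊢; linarith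
          · rw [if_pos h6] at j2 ⊢; linarith
          · have : cond 0 n m p := by unfold cond; norm_num; exact ⟨h3q, h6⟩
            rw [if_pos this] at i0 ⊢; linarith
    refine (sum_le_sum h4).trans ?_
    rw [sum_add_distrib, sum_add_distrib, sum_add_distrib]
    have k0 : ∑ p ∈ Ar n m r, (if (n - p) / m = 2 then B else 0) ≤ B := by
      rw [← sum_filter, sum_const, nsmul_eq_mul]
      have : ((Ar n m r).filter fun p => (n - p) / m = 2).card ≤ 1 := by
        rw [card_le_one]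
        intro a ha b hb
        rw [mem_filter] at ha hb
        exact inj_q ha.1 hb.1 (by rw [ha.2, hb.2])
      have : (((Ar n m r).filter fun p => (n - p) / m = 2).card : ℝ) ≤ 1 := by exact_mod_cast this
      nlinarith
    have k1 : ∑ p ∈ Ar n m r, (if p = (n - p) / m then B else 0) ≤ B := by
      rw [← sum_filter, sum_const, nsmul_eq_mul]
      have : ((Ar n m r).filter fun p => p = (n - p) / m).card ≤ 1 := by
        rw [card_le_one]
        intro a ha b hb
        rw [mem_filter] at ha hb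
        by_contra hab
        rcases Nat.lt_or_gt_of_ne hab with h | h
        · have : (n - b) / m ≤ (n - a) / m := Nat.div_le_div_right (by omega)
          omega
        · have : (n - a) / m ≤ (n - b) / m := Nat.div_le_div_right (by omega)
          omega
      have : (((Ar n m r).filter fun p => p = (n - p) / m).card : ℝ) ≤ 1 := by exact_mod_cast this
      nlinarith
    have k2 : ∑ p ∈ Ar n m r, (if p = ((n - p) / m) ^ 2 - 2 then B else 0) ≤ B := by
      rw [← sum_filter, sum_const, nsmul_eq_mul]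
      have : ((Ar n m r).filter fun p => p = ((n - p) / m) ^ 2 - 2).card ≤ 1 := by
        rw [card_le_one]
        intro a ha b hb
        rw [mem_filter] at ha hb
        by_contra hab
        rcases Nat.lt_or_gt_of_ne hab with h | h
        · have h5 : (n - b) / m ≤ (n - a) / m := Nat.div_le_div_right (by omega)
          have h6 : ((n - b) / m) ^ 2 ≤ ((n - a) / m) ^ 2 := Nat.pow_le_pow_left h5 2
          omega
        · have h5 : (n - a) / m ≤ (n - b) / m := Nat.div_le_div_right (by omega)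
          have h6 : ((n - a) / m) ^ 2 ≤ ((n - b) / m) ^ 2 := Nat.pow_le_pow_left h5 2
          omega
      have : (((Ar n m r).filter fun p => p = ((n - p) / m) ^ 2 - 2).card : ℝ) ≤ 1 := by exact_mod_cast this
      nlinarith
    linarith

/-! ### Counting functions for fixed remainder -/

/-- the expected number for the remainder `r` -/
noncomputable def er (z : ℕ → ℕ) (n m r : ℕ) : ℝ :=
  ∑ p ∈ Ar n m r, ex z p * ex z ((n - p) / m) * ex z (((n - p) / m) ^ 2 - 2)

open Classical in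
/-- the number for the remainder `r` -/
noncomputable def cr {Ω : Type} (S : ℕ → Set Ω) (ω : Ω) (n m r : ℕ) : ℕ :=
  ((Ar n m r).filter fun p => ω ∈ S p ∧ ω ∈ S ((n - p) / m) ∧ ω ∈ S (((n - p) / m) ^ 2 - 2)).card

theorem EE3 (z : ℕ → ℕ) (T n m : ℕ) (J : Finset ℕ) : EE z (g T n m) 3 J =
    ∑ p ∈ J, ex z p * ex z ((n - p) / m) * ex z (((n - p) / m) ^ 2 - 2) := by
  unfold EE
  refine sum_congr rfl fun p _ => ?_
  rw [prod_range_succ, prod_range_succ, prod_range_one]
  by_cases hT0 : T = 0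
  · have e0 : g T n m 0 p = (n - p) / m := by simp [g, hT0]
    have e1 : g T n m 1 p = ((n - p) / m) ^ 2 - 2 := by simp [g, hT0]
    have e2 : g T n m 2 p = p := by simp [g, hT0]
    rw [e0, e1, e2]; ring
  · by_cases hT1 : T = 1
    · have e0 : g T n m 0 p = (n - p) / m := by simp [g, hT1]
      have e1 : g T n m 1 p = p := by simp [g, hT1]
      have e2 : g T n m 2 p = ((n - p) / m) ^ 2 - 2 := by simp [g, hT1]
      rw [e0, e1, e2]; ring
    · have e0 : g T n m 0 p = p := by simp [g, hT0, hT1]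
      have e1 : g T n m 1 p = (n - p) / m := by simp [g, hT0, hT1]
      have e2 : g T n m 2 p = ((n - p) / m) ^ 2 - 2 := by simp [g, hT0, hT1]
      rw [e0, e1, e2]

open Classical in
theorem cntT3 {Ω : Type} (S : ℕ → Set Ω) (ω : Ω) (T n m : ℕ) (J : Finset ℕ) : (cntT S (g T n m) 3 J ω : ℝ) =
    ∑ p ∈ J, if (ω ∈ S p ∧ ω ∈ S ((n - p) / m) ∧ ω ∈ S (((n - p) / m) ^ 2 - 2)) then (1 : ℝ) else 0 := by
  unfold cntT
  rw [card_filter]
  push_cast
  refine sum_congr rfl fun p _ => ?_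
  have : (∀ i < 3, ω ∈ S (g T n m i p)) ↔ (ω ∈ S p ∧ ω ∈ S ((n - p) / m) ∧ ω ∈ S (((n - p) / m) ^ 2 - 2)) := by
    have h3 : (∀ i < 3, ω ∈ S (g T n m i p)) ↔ (ω ∈ S (g T n m 0 p) ∧ ω ∈ S (g T n m 1 p) ∧ ω ∈ S (g T n m 2 p)) := by
      constructor
      · intro h; exact ⟨h 0 (by norm_num), h 1 (by norm_num), h 2 (by norm_num)⟩
      · rintro ⟨h1, h2, h3⟩ i hi
        interval_cases i
        · exact h1
        · exact h2
        · exact h3
    rw [h3]
    unfold g
    by_cases hT0 : T = 0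
    · simp only [hT0, if_true]; norm_num; tauto
    · by_cases hT1 : T = 1
      · simp only [hT1, if_true]; norm_num; tauto
      · simp only [hT0, hT1, if_false]; norm_num
  by_cases h : (ω ∈ S p ∧ ω ∈ S ((n - p) / m) ∧ ω ∈ S (((n - p) / m) ^ 2 - 2))
  · rw [if_pos (this.2 h), if_pos h]
  · rw [if_neg (fun h' => h (this.1 h')), if_neg h]

theorem cr_split {Ω : Type} (S : ℕ → Set Ω) (ω : Ω) (n m r : ℕ) :
    ∑ T ∈ range 3, (cntT S (g T n m) 3 (JJ T n m r) ω : ℝ) ≤ cr S ω n m r ∧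
    (cr S ω n m r : ℝ) ≤ ∑ T ∈ range 3, (cntT S (g T n m) 3 (JJ T n m r) ω : ℝ) + 3 := by
  classical
  have h := split (n := n) (m := m) (r := r)
    (w := fun p => if (ω ∈ S p ∧ ω ∈ S ((n - p) / m) ∧ ω ∈ S (((n - p) / m) ^ 2 - 2)) then (1 : ℝ) else 0) (B := 1)
    (fun p => by split_ifs <;> norm_num) (fun p => by split_ifs <;> norm_num)
  have e1 : (cr S ω n m r : ℝ) = ∑ p ∈ Ar n m r,
      if (ω ∈ S p ∧ ω ∈ S ((n - p) / m) ∧ ω ∈ S (((n - p) / m) ^ 2 - 2)) then (1 : ℝ) else 0 := by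
    unfold cr
    rw [card_filter]
    push_cast
    rfl
  simp only [cntT3]
  rw [e1]
  rw [mul_one] at h
  exact h

theorem er_split {z : ℕ → ℕ} {B : ℝ} (hB0 : 0 ≤ B) (hB : ∀ n, ex z n ≤ B) (n m r : ℕ) :
    ∑ T ∈ range 3, EE z (g T n m) 3 (JJ T n m r) ≤ er z n m r ∧
    er z n m r ≤ ∑ T ∈ range 3, EE z (g T n m) 3 (JJ T n m r) + 3 * (B * B * B) := by
  have h := split (n := n) (m := m) (r := r)
    (w := fun p => ex z p * ex z ((n - p) / m) * ex z (((n - p) / m) ^ 2 - 2)) (B := B * B * B)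
    (fun p => mul_nonneg (mul_nonneg (ex_nonneg _ _) (ex_nonneg _ _)) (ex_nonneg _ _))
    (fun p => mul_le_mul (mul_le_mul (hB _) (hB _) (ex_nonneg _ _) hB0) (hB _) (ex_nonneg _ _) (by positivity))
  simp only [EE3]
  exact h

theorem er_nonneg (z : ℕ → ℕ) (n m r : ℕ) : 0 ≤ er z n m r :=
  sum_nonneg fun _ _ => mul_nonneg (mul_nonneg (ex_nonneg _ _) (ex_nonneg _ _)) (ex_nonneg _ _)

theorem ex_bdd {z : ℕ → ℕ} (hz : ∀ᶠ n : ℕ in atTop, ex z n ≤ 1) : ∃ B : ℝ, 1 ≤ B ∧ ∀ n, ex z n ≤ B := by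
  obtain ⟨n1, hn1⟩ := eventually_atTop.1 hz
  refine ⟨1 + ∑ n ∈ range n1, ex z n, by
    have : 0 ≤ ∑ n ∈ range n1, ex z n := sum_nonneg fun n _ => ex_nonneg z n
    linarith, fun n => ?_⟩
  rcases Nat.lt_or_ge n n1 with h | h
  · have := single_le_sum (f := fun n => ex z n) (fun n _ => ex_nonneg z n) (mem_range.2 h)
    linarith
  · have h1 := hn1 n h
    have : 0 ≤ ∑ n ∈ range n1, ex z n := sum_nonneg fun n _ => ex_nonneg z n
    linarith

/-! ### The index set -/

/-- the index: `(n, m, r)` -/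
abbrev Ix := ℕ × ℕ × ℕ

noncomputable def tt (i : Ix) : ℝ := 2 * Real.log ((i.1 : ℝ) + 2) + (2 * Real.log ((i.2.1 : ℝ) + 2) + 2 * Real.log ((i.2.2 : ℝ) + 2))

theorem summ1 : Summable fun x : ℕ => Real.exp (-(2 * Real.log ((x : ℝ) + 2))) := by
  have h1 : Summable fun x : ℕ => 1 / ((x : ℝ) + 1) ^ 2 := by
    have := (summable_nat_add_iff 1).2 (Real.summable_one_div_nat_pow.2 (by norm_num : 1 < 2))
    simpa using this
  refine Summable.of_nonneg_of_le (fun _ => Real.exp_nonneg _) (fun x => ?_) h1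
  have h2 : (0 : ℝ) < (x : ℝ) + 2 := by positivity
  have h3 : Real.exp (-(2 * Real.log ((x : ℝ) + 2))) = 1 / ((x : ℝ) + 2) ^ 2 := by
    rw [Real.exp_neg, one_div]
    congr 1
    rw [mul_comm, Real.exp_mul, Real.exp_log h2]
    norm_num
  rw [h3]
  apply one_div_le_one_div_of_le (by positivity)
  gcongr
  norm_num

theorem summ3 : Summable fun i : Ix => Real.exp (-(tt i)) := by
  have h1 := summ1
  have h2 : Summable fun i : ℕ × ℕ => Real.exp (-(2 * Real.log ((i.1 : ℝ) + 2))) * Real.exp (-(2 * Real.log ((i.2 : ℝ) + 2))) :=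
    h1.mul_of_nonneg h1 (fun _ => Real.exp_nonneg _) (fun _ => Real.exp_nonneg _)
  have h3 := h1.mul_of_nonneg h2 (fun _ => Real.exp_nonneg _)
    (fun _ => mul_nonneg (Real.exp_nonneg _) (Real.exp_nonneg _))
  refine h3.congr fun i => ?_
  unfold tt
  rw [← Real.exp_add, ← Real.exp_add]
  congr 1
  ring

theorem tt_le {n m r : ℕ} (hm : m ≤ n) (hr : r ≤ n) (hn : 2 ≤ n) : tt (n, m, r) ≤ 12 * Real.log n := by
  have hn' : (2 : ℝ) ≤ n := by exact_mod_cast hn
  have h1 : Real.log ((n : ℝ) + 2) ≤ 2 * Real.log n := by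
    calc Real.log ((n : ℝ) + 2) ≤ Real.log ((n : ℝ) ^ 2) := Real.log_le_log (by linarith) (by nlinarith)
      _ = 2 * Real.log n := by rw [Real.log_pow]; norm_num
  have h2 : Real.log ((m : ℝ) + 2) ≤ Real.log ((n : ℝ) + 2) :=
    Real.log_le_log (by positivity) (by have : (m : ℝ) ≤ n := by exact_mod_cast hm
                                        linarith)
  have h3 : Real.log ((r : ℝ) + 2) ≤ Real.log ((n : ℝ) + 2) :=
    Real.log_le_log (by positivity) (by have : (r : ℝ) ≤ n := by exact_mod_cast hr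
                                        linarith)
  unfold tt
  simp only
  linarith

theorem cof {P : Ix → Prop} (h : ∀ᶠ i in cofinite, P i) : ∀ᶠ n : ℕ in atTop, ∀ m r, P (n, m, r) := by
  rw [eventually_cofinite] at h
  obtain ⟨b, hb⟩ := (h.image Prod.fst).bddAbove
  filter_upwards [eventually_gt_atTop b] with n hn m r
  by_contra hP
  have := hb ⟨(n, m, r), hP, rfl⟩
  simp only at this
  omega

variable {Ω : Type} {m0 : MeasurableSpace Ω} {μ : Measure Ω} [IsProbabilityMeasure μ]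
  {ℱ : Filtration ℕ m0} {S : ℕ → Set Ω}

/-- lower bound for every remainder -/
theorem r_low {z : ℕ → ℕ} (hz : ∀ᶠ n : ℕ in atTop, ex z n ≤ 1) (hS : ∀ n, MeasurableSet[ℱ n] (S n))
    (h : ∀ᵐ ω ∂μ, ∃ c : ℝ, 0 < c ∧ ∀ᶠ n : ℕ in atTop, Rough z (n + 1) →
      c * V (z (n + 1)) ≤ Pr μ ℱ S n ω * Real.log n) :
    ∀ᵐ ω ∂μ, ∃ κ : ℝ, 0 < κ ∧ ∃ C : ℝ, 0 ≤ C ∧ ∀ᶠ n : ℕ in atTop, ∀ m r : ℕ, m ≤ n → r ≤ n →
      κ * er z n m r - C * Real.log n ≤ cr S ω n m r := by
  have h1 : ∀ T ∈ range 3, ∀ᵐ ω ∂μ, ∃ κ : ℝ, 0 < κ ∧ κ ≤ 1 ∧ ∃ C : ℝ, 0 ≤ C ∧ ∀ᶠ i : Ix in cofinite,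
      κ * EE z (g T i.1 i.2.1) 3 (JJ T i.1 i.2.1 i.2.2) - C * tt i ≤
        cntT S (g T i.1 i.2.1) 3 (JJ T i.1 i.2.1 i.2.2) ω := fun T _ =>
    model_low' (μ := μ) (ℱ := ℱ) (ι := Ix) (f := fun i => g T i.1 i.2.1) (k := 3)
      (J := fun i => JJ T i.1 i.2.1 i.2.2) (fun i => ok3 T _ _ _) summ3 hz hS h
  obtain ⟨B, hB1, hB⟩ := ex_bdd hz
  have h2 := (ae_ball_iff (range 3).countable_toSet).2 h1
  filter_upwards [h2] with ω h3
  obtain ⟨κ0, p0, q0, C0, c0, e0⟩ := h3 0 (by simp)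
  obtain ⟨κ1, p1, q1, C1, c1, e1⟩ := h3 1 (by simp)
  obtain ⟨κ2, p2, q2, C2, c2, e2⟩ := h3 2 (by simp)
  set κ := min κ0 (min κ1 κ2) with hκ
  have hκ0 : 0 < κ := lt_min p0 (lt_min p1 p2)
  have k0 : κ ≤ κ0 := min_le_left _ _
  have k1 : κ ≤ κ1 := (min_le_right _ _).trans (min_le_left _ _)
  have k2 : κ ≤ κ2 := (min_le_right _ _).trans (min_le_right _ _)
  refine ⟨κ, hκ0, 12 * (C0 + C1 + C2) + κ * (3 * (B * B * B)), by positivity, ?_⟩
  filter_upwards [cof e0, cof e1, cof e2, eventually_ge_atTop 3] with n g0 g1 g2 hn m r hm hr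
  have a0 := g0 m r
  have a1 := g1 m r
  have a2 := g2 m r
  have ht := tt_le (n := n) (m := m) (r := r) hm hr (by omega)
  have hl : 1 ≤ Real.log n := by
    rw [Real.le_log_iff_exp_le (by exact_mod_cast (by omega : 0 < n))]
    have : (3 : ℝ) ≤ n := by exact_mod_cast hn
    have := Real.exp_one_lt_d9
    linarith
  have b1 := (cr_split S ω n m r).1
  have b2 := (er_split (zero_le_one.trans hB1) hB n m r).2
  rw [sum_range_succ, sum_range_succ, sum_range_one] at b1 b2
  have n0 : 0 ≤ EE z (g 0 n m) 3 (JJ 0 n m r) := sum_nonneg fun _ _ => prod_nonneg fun _ _ => ex_nonneg _ _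
  have n1 : 0 ≤ EE z (g 1 n m) 3 (JJ 1 n m r) := sum_nonneg fun _ _ => prod_nonneg fun _ _ => ex_nonneg _ _
  have n2 : 0 ≤ EE z (g 2 n m) 3 (JJ 2 n m r) := sum_nonneg fun _ _ => prod_nonneg fun _ _ => ex_nonneg _ _
  have l0 := mul_le_mul_of_nonneg_right k0 n0
  have l1 := mul_le_mul_of_nonneg_right k1 n1
  have l2 := mul_le_mul_of_nonneg_right k2 n2
  have m0 := mul_le_mul_of_nonneg_left ht c0
  have m1 := mul_le_mul_of_nonneg_left ht c1
  have m2 := mul_le_mul_of_nonneg_left ht c2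
  have b3 := mul_le_mul_of_nonneg_left b2 hκ0.le
  have b4 : κ * (3 * (B * B * B)) ≤ κ * (3 * (B * B * B)) * Real.log n := le_mul_of_one_le_right (by positivity) hl
  nlinarith

/-- law of large numbers for every remainder -/
theorem r_lln {z : ℕ → ℕ} (hz : ∀ᶠ n : ℕ in atTop, ex z n ≤ 1) (hS : ∀ n, MeasurableSet[ℱ n] (S n))
    (hr : ∀ n, ¬ Rough z n → S n = ∅)
    (h : ∀ᵐ ω ∂μ, Tendsto (fun n : ℕ => Pr μ ℱ S n ω * Real.log n / V (z (n + 1)))
      (atTop ⊓ 𝓟 {n : ℕ | Rough z (n + 1)}) (𝓝 1)) :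
    ∀ᵐ ω ∂μ, ∀ δ : ℝ, 0 < δ → ∃ C : ℝ, 0 ≤ C ∧ ∀ᶠ n : ℕ in atTop, ∀ m r : ℕ, m ≤ n → r ≤ n →
      |(cr S ω n m r : ℝ) - er z n m r| ≤ δ * er z n m r + C * Real.log n := by
  have h1 : ∀ T ∈ range 3, ∀ᵐ ω ∂μ, ∀ δ : ℝ, 0 < δ → ∃ C : ℝ, 0 ≤ C ∧ ∀ᶠ i : Ix in cofinite,
      |(cntT S (g T i.1 i.2.1) 3 (JJ T i.1 i.2.1 i.2.2) ω : ℝ) - EE z (g T i.1 i.2.1) 3 (JJ T i.1 i.2.1 i.2.2)| ≤
        δ * EE z (g T i.1 i.2.1) 3 (JJ T i.1 i.2.1 i.2.2) + C * tt i := fun T _ =>
    model_lln' (μ := μ) (ℱ := ℱ) (ι := Ix) (f := fun i => g T i.1 i.2.1) (k := 3)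
      (J := fun i => JJ T i.1 i.2.1 i.2.2) (fun i => ok3 T _ _ _) summ3 hz hS hr h
  obtain ⟨B, hB1, hB⟩ := ex_bdd hz
  have h2 := (ae_ball_iff (range 3).countable_toSet).2 h1
  filter_upwards [h2] with ω h3 δ hδ
  obtain ⟨C0, c0, e0⟩ := h3 0 (by simp) δ hδ
  obtain ⟨C1, c1, e1⟩ := h3 1 (by simp) δ hδ
  obtain ⟨C2, c2, e2⟩ := h3 2 (by simp) δ hδ
  refine ⟨12 * (C0 + C1 + C2) + (3 + 3 * (B * B * B)), by positivity, ?_⟩
  filter_upwards [cof e0, cof e1, cof e2, eventually_ge_atTop 3] with n g0 g1 g2 hn m r hm hr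
  have a0 := abs_le.1 (g0 m r)
  have a1 := abs_le.1 (g1 m r)
  have a2 := abs_le.1 (g2 m r)
  have ht := tt_le (n := n) (m := m) (r := r) hm hr (by omega)
  have hl : 1 ≤ Real.log n := by
    rw [Real.le_log_iff_exp_le (by exact_mod_cast (by omega : 0 < n))]
    have : (3 : ℝ) ≤ n := by exact_mod_cast hn
    have := Real.exp_one_lt_d9
    linarith
  obtain ⟨b1, b1'⟩ := cr_split S ω n m r
  obtain ⟨b2', b2⟩ := er_split (zero_le_one.trans hB1) hB n m r
  rw [sum_range_succ, sum_range_succ, sum_range_one] at b1 b2 b1' b2'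
  have m0 := mul_le_mul_of_nonneg_left ht c0
  have m1 := mul_le_mul_of_nonneg_left ht c1
  have m2 := mul_le_mul_of_nonneg_left ht c2
  have b3 := mul_le_mul_of_nonneg_left b2' hδ.le
  have b4 : (3 + 3 * (B * B * B)) ≤ (3 + 3 * (B * B * B)) * Real.log n := le_mul_of_one_le_right (by positivity) hl
  have hB3 : 0 ≤ B * B * B := by positivity
  rw [abs_le]
  constructor
  · nlinarith [a0.1, a1.1, a2.1]
  · nlinarith [a0.2, a1.2, a2.2]

end Pool.Agent.D0H68.TU
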