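import Pool.Agent.D0H68.TU.GolS

/-! Representations `n = p + m q + r`: the expected numbers. -/

set_option autoImplicit false

open Filter Finset
open scoped Topology

namespace Pool.Agent.D0H68.TU

open Pool.Agent.D0H68.SD Pool.Agent.D0H65.LP Pool.Agent.D0H41.LP Pool.Agent.H373R2.T7

theorem ex_ge {z : ℕ → ℕ} {n y : ℕ} (hn : 2 ≤ n) (hy : 2 ≤ y) (hyn : y ≤ n ^ 2) (hr : Rough z y) :
    1 / (2 * Real.log n) ≤ ex z y := by
  have hnr : (2 : ℝ) ≤ n := by exact_mod_cast hn
  have hyr : (2 : ℝ) ≤ y := by exact_mod_cast hy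
  have h1 : Real.log y ≤ 2 * Real.log n := by
    calc Real.log y ≤ Real.log ((n : ℝ) ^ 2) := Real.log_le_log (by linarith) (by exact_mod_cast hyn)
      _ = 2 * Real.log n := by rw [Real.log_pow]; norm_num
  unfold ex
  rw [if_pos hr]
  exact div_le_div₀ (zero_le_one.trans (V_one _)) (V_one _) (Real.log_pos (by linarith)) h1

/-- **the expected number for a good remainder** -/
theorem er_ge : ∃ C₁ : ℝ, 1 ≤ C₁ ∧ ∃ A : ℕ, ∀ θ : ℝ, 0 < θ → C₁ * θ < 1 → ∀ z : ℕ → ℕ,
    (∀ᶠ n : ℕ in atTop, (z n : ℝ) ≤ (n : ℝ) ^ θ) → ∀ᶠ n : ℕ in atTop, ∀ m : ℕ, 1 ≤ m →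
      (m : ℝ) ≤ (n : ℝ) ^ (1 - C₁ * θ) → ∀ r < m, Nat.Coprime (n - r) m → (n - r + m) % 2 = 1 →
        1 / 200 * ((n : ℝ) / m / Real.log n ^ A) ≤ er z n m r := by
  classical
  obtain ⟨K, hK, A, Z0, H⟩ := sift3
  have hK0 : (1 : ℝ) ≤ K := by exact_mod_cast hK
  refine ⟨2 * K + 2, by linarith, A + 3, fun θ hθ hθ1 z hz => ?_⟩
  obtain ⟨n0, hn0⟩ := eventually_atTop.1 hz
  set C₁ : ℝ := 2 * K + 2 with hC₁
  have hC₁0 : 0 < C₁ * θ := by positivity
  have e1 : ∀ᶠ n : ℕ in atTop, ((Z0 : ℝ) + 3) ≤ (n : ℝ) ^ (2 * θ) :=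
    tendsto_natCast_atTop_atTop.eventually ((tendsto_rpow_atTop (by positivity)).eventually_ge_atTop _)
  have e3 : ∀ᶠ n : ℕ in atTop, (6 : ℝ) ≤ (n : ℝ) ^ (C₁ * θ) :=
    tendsto_natCast_atTop_atTop.eventually ((tendsto_rpow_atTop hC₁0).eventually_ge_atTop _)
  filter_upwards [e1, logpow A (24 * (n0 + 3)) (C₁ * θ) hC₁0, e3, eventually_ge_atTop (4 * n0 + 3)]
    with n h1 h2 h3 h4 m hm1 hm r hr hco hpar
  have hn3 : (3 : ℝ) ≤ n := by exact_mod_cast (by omega : 3 ≤ n)
  have hn0' : (0 : ℝ) < n := by linarith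
  have hm0 : (0 : ℝ) < m := by exact_mod_cast (by omega : 0 < m)
  have hl1 : 1 ≤ Real.log n := by
    rw [Real.le_log_iff_exp_le hn0']
    have := Real.exp_one_lt_d9
    linarith
  -- the ratio `n / m`
  have h5 : (n : ℝ) ^ (C₁ * θ) ≤ n / m := by
    rw [le_div_iff₀ hm0]
    calc (n : ℝ) ^ (C₁ * θ) * m ≤ (n : ℝ) ^ (C₁ * θ) * (n : ℝ) ^ (1 - C₁ * θ) := by gcongr
      _ = n := by rw [← Real.rpow_add hn0']; norm_num
  have h6 : (6 : ℝ) ≤ n / m := h3.trans h5
  have h6' : 6 * m ≤ n := by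
    rw [le_div_iff₀ hm0] at h6
    exact_mod_cast h6
  set X : ℕ := n / (2 * m) with hX
  have hXup : 2 * (m * X) ≤ n := by
    have := Nat.mul_div_le n (2 * m)
    rw [← hX] at this
    calc 2 * (m * X) = 2 * m * X := by ring
      _ ≤ n := this
  have hXlow : (n : ℝ) / m / 3 ≤ X := by
    have h7 : n < 2 * m * (X + 1) := by
      have := Nat.lt_mul_div_succ n (show 0 < 2 * m by omega)
      rwa [← hX] at this
    have h8 : (n : ℝ) < 2 * m * (X + 1) := by exact_mod_cast h7
    have h9 : (n : ℝ) / m < 2 * (X + 1) := by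
      rw [div_lt_iff₀ hm0]
      linarith
    linarith
  set Z : ℕ := ⌊(n : ℝ) ^ (2 * θ)⌋₊ with hZ
  have hZr : (Z : ℝ) ≤ (n : ℝ) ^ (2 * θ) := Nat.floor_le (by positivity)
  have hZ0 : Z0 + 3 ≤ Z := Nat.le_floor (by push_cast; linarith)
  have hZK : Z ^ K ≤ X := by
    have h7 : (Z : ℝ) ^ K ≤ X := by
      calc (Z : ℝ) ^ K ≤ ((n : ℝ) ^ (2 * θ)) ^ K := by gcongr
        _ = (n : ℝ) ^ (2 * θ * K) := by rw [← Real.rpow_natCast, ← Real.rpow_mul hn0'.le]
        _ ≤ X := by
          refine le_trans ?_ hXlow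
          have h8 : (n : ℝ) ^ (C₁ * θ) = (n : ℝ) ^ (2 * θ * K) * (n : ℝ) ^ (2 * θ) := by
            rw [← Real.rpow_add hn0']
            congr 1
            rw [hC₁]; ring
          have h9 : 0 < (n : ℝ) ^ (2 * θ * K) := by positivity
          have h10 : (3 : ℝ) ≤ (n : ℝ) ^ (2 * θ) := by
            have : (0 : ℝ) ≤ Z0 := Nat.cast_nonneg _
            linarith
          rw [le_div_iff₀ (by norm_num : (0 : ℝ) < 3)]
          nlinarith
    exact_mod_cast h7
  have hXn : X ≤ n := Nat.div_le_self _ _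
  have hX1 : 3 ≤ X := by
    have : Z ≤ Z ^ K := Nat.le_self_pow (by omega) Z
    omega
  have hXr : (3 : ℝ) ≤ X := by exact_mod_cast hX1
  have hlX : 0 < Real.log X := Real.log_pos (by linarith)
  have hlXn : Real.log X ≤ Real.log n := Real.log_le_log (by linarith) (by exact_mod_cast hXn)
  have h7 := H X Z (by omega) hZK (n - r) m hco hpar
  set B : Finset ℕ := (Icc 1 X).filter (fun q : ℕ => ∀ l ∈ pz Z, ¬ QQ (n - r) m l q) with hB
  have h8 : (n : ℝ) / m / (12 * Real.log n ^ A) ≤ (B.card : ℝ) := by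
    refine le_trans ?_ h7
    calc (n : ℝ) / m / (12 * Real.log n ^ A) = (n : ℝ) / m / 3 / (4 * Real.log n ^ A) := by
          field_simp
          norm_num
      _ ≤ X / (4 * Real.log X ^ A) := by gcongr
  set B' : Finset ℕ := B.filter (fun q => n0 + 3 ≤ q) with hB'
  have h9 : (B.card : ℝ) ≤ B'.card + (n0 + 3) := by
    have h10 := card_filter_add_card_filter_not (s := B) (fun q => n0 + 3 ≤ q)
    have h11 : (B.filter (fun q => ¬ n0 + 3 ≤ q)).card ≤ n0 + 3 := by
      calc (B.filter (fun q => ¬ n0 + 3 ≤ q)).card ≤ (range (n0 + 3)).card := by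
            apply card_le_card
            intro q hq
            rw [mem_filter] at hq
            rw [mem_range]
            omega
        _ = n0 + 3 := card_range _
    have h12 : B.card ≤ B'.card + (n0 + 3) := by rw [hB']; omega
    exact_mod_cast h12
  have h10 : (n : ℝ) / m / (24 * Real.log n ^ A) ≤ (B'.card : ℝ) := by
    have h11 : ((n0 : ℝ) + 3) ≤ (n : ℝ) / m / (24 * Real.log n ^ A) := by
      rw [le_div_iff₀ (by positivity)]
      have h12 := h2.trans h5
      linarith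
    have h12 : (n : ℝ) / m / (12 * Real.log n ^ A) = 2 * ((n : ℝ) / m / (24 * Real.log n ^ A)) := by
      field_simp
      norm_num
    linarith
  -- the map from `q` to `p`
  have hmem : ∀ q ∈ B', 0 < m * q ∧ r + m * q < n ∧ (n - (n - r - m * q)) / m = q ∧ (n - (n - r - m * q)) % m = r ∧
      n ≤ 4 * (n - r - m * q) := by
    intro q hq
    rw [hB', mem_filter, hB, mem_filter, mem_Icc] at hq
    obtain ⟨⟨⟨hq1, hqX⟩, -⟩, hq3⟩ := hq
    have h11 : m * q ≤ m * X := Nat.mul_le_mul_left m hqX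
    have h12 : 0 < m * q := Nat.mul_pos (by omega) (by omega)
    have h13 : n - (n - r - m * q) = r + m * q := by omega
    rw [h13]
    refine ⟨h12, by omega, ?_, ?_, by omega⟩
    · rw [Nat.add_mul_div_left _ _ (by omega), Nat.div_eq_of_lt hr, zero_add]
    · rw [Nat.add_mul_mod_self_left, Nat.mod_eq_of_lt hr]
  have hinj : Set.InjOn (fun q => n - r - m * q) (B' : Set ℕ) := by
    intro a ha b hb hab
    have h11 := hmem a ha
    have h12 := hmem b hb
    have h13 : n - r - m * a = n - r - m * b := hab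
    have h14 : m * a = m * b := by omega
    exact Nat.eq_of_mul_eq_mul_left (by omega) h14
  have hsub : B'.image (fun q => n - r - m * q) ⊆ Ar n m r := by
    intro p hp
    rw [mem_image] at hp
    obtain ⟨q, hq, rfl⟩ := hp
    obtain ⟨a1, a2, a3, a4, a5⟩ := hmem q hq
    have hq3 : n0 + 3 ≤ q := (mem_filter.1 hq).2
    rw [mem_Ar]
    exact ⟨⟨by omega, by omega⟩, a4, by rw [a3]; omega⟩
  have hlog2 : 0 < 2 * Real.log n := by linarith
  calc 1 / 200 * ((n : ℝ) / m / Real.log n ^ (A + 3))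
      ≤ (n : ℝ) / m / (24 * Real.log n ^ A) * (1 / (2 * Real.log n)) ^ 3 := by
        have h11 : (n : ℝ) / m / (24 * Real.log n ^ A) * (1 / (2 * Real.log n)) ^ 3 =
            1 / 192 * ((n : ℝ) / m / Real.log n ^ (A + 3)) := by
          rw [pow_add]
          field_simp
          norm_num
        rw [h11]
        apply mul_le_mul_of_nonneg_right (by norm_num) (by positivity)
    _ ≤ B'.card * (1 / (2 * Real.log n)) ^ 3 := mul_le_mul_of_nonneg_right h10 (by positivity)
    _ = ∑ q ∈ B', (1 / (2 * Real.log n)) ^ 3 := by rw [sum_const, nsmul_eq_mul]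
    _ ≤ ∑ q ∈ B', ex z (n - r - m * q) * ex z ((n - (n - r - m * q)) / m) *
        ex z (((n - (n - r - m * q)) / m) ^ 2 - 2) := by
        refine sum_le_sum fun q hq => ?_
        obtain ⟨a1, a2, a3, a4, a5⟩ := hmem q hq
        have hq3 : n0 + 3 ≤ q := (mem_filter.1 hq).2
        have hqB := (mem_filter.1 hq).1
        rw [hB, mem_filter, mem_Icc] at hqB
        obtain ⟨⟨hq1, hqX⟩, hs⟩ := hqB
        rw [a3]
        have hqn : q ≤ n := hqX.trans hXn
        have hq2n : q ^ 2 ≤ n ^ 2 := Nat.pow_le_pow_left hqn 2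
        have hnn : n ≤ n ^ 2 := Nat.le_self_pow (by norm_num) n
        have hqq : q < q ^ 2 - 2 := sq_big (by omega)
        have hzle : ∀ y, n0 ≤ y → y ≤ n ^ 2 → z y ≤ Z := by
          intro y hy hyn
          apply Nat.le_floor
          calc (z y : ℝ) ≤ (y : ℝ) ^ θ := hn0 y hy
            _ ≤ ((n : ℝ) ^ 2) ^ θ := Real.rpow_le_rpow (by positivity) (by exact_mod_cast hyn) hθ.le
            _ = (n : ℝ) ^ (2 * θ) := by
              rw [← Real.rpow_natCast, ← Real.rpow_mul hn0'.le]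
              norm_num
        have hrough : ∀ y : ℕ, n0 ≤ y → y ≤ n ^ 2 → (∀ l : ℕ, l ∣ y → QQ (n - r) m l q) → Rough z y := by
          intro y hy hyn hd l hl hlz hly
          exact hs l (mem_pz.2 ⟨hlz.trans (hzle y hy hyn), hl⟩) (hd l hly)
        have r1 : Rough z q := hrough q (by omega) (by omega) fun l hl => Or.inl (by exact_mod_cast hl)
        have r2 : Rough z (q ^ 2 - 2) := by
          refine hrough _ (by omega) (by omega) fun l hl => Or.inr (Or.inl ?_)
          have : (l : ℤ) ∣ ((q ^ 2 - 2 : ℕ) : ℤ) := by exact_mod_cast hl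
          rwa [Nat.cast_sub (by omega)] at this
        have r3 : Rough z (n - r - m * q) := by
          refine hrough _ (by omega) (by omega) fun l hl => Or.inr (Or.inr ?_)
          have : (l : ℤ) ∣ ((n - r - m * q : ℕ) : ℤ) := by exact_mod_cast hl
          rwa [Nat.cast_sub (by omega), Nat.cast_mul] at this
        have b1 := ex_ge (z := z) (n := n) (y := q) (by omega) (by omega) (by omega) r1
        have b2 := ex_ge (z := z) (n := n) (y := q ^ 2 - 2) (by omega) (by omega) (by omega) r2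
        have b3 := ex_ge (z := z) (n := n) (y := n - r - m * q) (by omega) (by omega) (by omega) r3
        have hpos : 0 ≤ 1 / (2 * Real.log n) := by positivity
        calc (1 / (2 * Real.log n)) ^ 3 = 1 / (2 * Real.log n) * (1 / (2 * Real.log n)) * (1 / (2 * Real.log n)) := by ring
          _ ≤ _ := mul_le_mul (mul_le_mul b3 b1 hpos (ex_nonneg _ _)) b2 hpos (mul_nonneg (ex_nonneg _ _) (ex_nonneg _ _))
    _ = ∑ p ∈ B'.image (fun q => n - r - m * q), ex z p * ex z ((n - p) / m) * ex z (((n - p) / m) ^ 2 - 2) :=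
        (Finset.sum_image (f := fun p => ex z p * ex z ((n - p) / m) * ex z (((n - p) / m) ^ 2 - 2)) hinj).symm
    _ ≤ er z n m r := by
        unfold er
        exact sum_le_sum_of_subset_of_nonneg hsub fun p _ _ =>
          mul_nonneg (mul_nonneg (ex_nonneg _ _) (ex_nonneg _ _)) (ex_nonneg _ _)

/-- the admissible pairs of the problem -/
def Adm (m n : ℕ) : Prop := 1 ≤ m ∧ 2 * m + 1 < n ∧ ((m = 1 ∧ Even n) ∨ (m = 3 ∧ ¬ n % 6 = 1) ∨ m = 2 ∨ 4 ≤ m)

theorem cop_pm {k m v : ℕ} (h : v = m * k + 1 ∨ v + 1 = m * k) : Nat.Coprime v m := by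
  rw [← Nat.isCoprime_iff_coprime]
  rcases h with h | h
  · refine ⟨1, -(k : ℤ), ?_⟩
    rw [h]; push_cast; ring
  · refine ⟨-1, (k : ℤ), ?_⟩
    have : (v : ℤ) = m * k - 1 := by
      have : ((v + 1 : ℕ) : ℤ) = ((m * k : ℕ) : ℤ) := by rw [h]
      push_cast at this
      linarith
    rw [this]; ring

theorem cop_pm2 {k m v : ℕ} (hm : m % 2 = 1) (h : v = m * k + 2 ∨ v + 2 = m * k) : Nat.Coprime v m := by
  obtain ⟨j, hj⟩ : ∃ j, m = 2 * j + 1 := ⟨m / 2, by omega⟩
  have hj' : (m : ℤ) = 2 * j + 1 := by rw [hj]; push_cast; ring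
  rw [← Nat.isCoprime_iff_coprime]
  rcases h with h | h
  · refine ⟨-(j : ℤ), 1 + j * k, ?_⟩
    have : (v : ℤ) = m * k + 2 := by rw [h]; push_cast; ring
    rw [this, hj']; ring
  · refine ⟨j, 1 - j * k, ?_⟩
    have : (v : ℤ) = m * k - 2 := by
      have : ((v + 2 : ℕ) : ℤ) = ((m * k : ℕ) : ℤ) := by rw [h]
      push_cast at this
      linarith
    rw [this, hj']; ring

/-- **a good remainder** -/
theorem good_r {m n : ℕ} (h : Adm m n) : ∃ r < m, Nat.Coprime (n - r) m ∧ (n - r + m) % 2 = 1 := by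
  obtain ⟨hm1, hmn, hc⟩ := h
  have hdm := Nat.div_add_mod n m
  have hr0 : n % m < m := Nat.mod_lt _ (by omega)
  obtain ⟨k, hk⟩ : ∃ k, k = n / m := ⟨_, rfl⟩
  obtain ⟨r0, hr⟩ : ∃ r0, r0 = n % m := ⟨_, rfl⟩
  rw [← hr] at hr0
  rw [← hr, ← hk] at hdm
  clear hr hk
  have hk1 : 1 ≤ k := by
    by_contra h0
    have : k = 0 := by omega
    rw [this] at hdm
    omega
  have hmk : m ≤ m * k := Nat.le_mul_of_pos_right m (by omega)
  rcases Nat.lt_or_ge m 2 with h2 | h2
  · have hm : m = 1 := by omega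
    subst hm
    rcases hc with ⟨-, hE⟩ | ⟨h3, -⟩ | h3 | h3
    · refine ⟨0, by norm_num, Nat.coprime_one_right _, ?_⟩
      rw [Nat.even_iff] at hE
      omega
    · omega
    · omega
    · omega
  · -- the neighbours of the multiple of `m`
    have hpm : (m * k + m) % 2 = 0 → ∃ r < m, Nat.Coprime (n - r) m ∧ (n - r + m) % 2 = 1 := by
      intro hpar
      rcases Nat.eq_zero_or_pos r0 with h0 | h0
      · exact ⟨1, by omega, cop_pm (k := k) (Or.inr (by omega)), by omega⟩
      · exact ⟨r0 - 1, by omega, cop_pm (k := k) (Or.inl (by omega)), by omega⟩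
    rcases Nat.even_or_odd (m * k + m) with hE | hO
    · exact hpm (Nat.even_iff.1 hE)
    · have hO' := Nat.odd_iff.1 hO
      have hmodd : m % 2 = 1 := by
        by_contra hcon
        have h3 : m % 2 = 0 := by omega
        have h4 : (m * k) % 2 = 0 := by rw [Nat.mul_mod, h3]; simp
        omega
      rcases Nat.lt_or_ge m 5 with h5 | h5
      · have hm3 : m = 3 := by omega
        have hmod : ¬ n % 6 = 1 := by
          rcases hc with ⟨h3, -⟩ | ⟨-, h3⟩ | h3 | h3
          · omega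
          · exact h3
          · omega
          · omega
        rcases (by omega : r0 = 0 ∨ r0 = 1 ∨ r0 = 2) with h0 | h0 | h0
        · exact ⟨2, by omega, cop_pm2 (k := k) hmodd (Or.inr (by omega)), by omega⟩
        · exfalso
          apply hmod
          rw [hm3] at hdm hO'
          omega
        · exact ⟨0, by omega, cop_pm2 (k := k) hmodd (Or.inl (by omega)), by omega⟩
      · rcases Nat.lt_or_ge r0 2 with h0 | h0
        · exact ⟨r0 + 2, by omega, cop_pm2 (k := k) hmodd (Or.inr (by omega)), by omega⟩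
        · exact ⟨r0 - 2, by omega, cop_pm2 (k := k) hmodd (Or.inl (by omega)), by omega⟩

end Pool.Agent.D0H68.TU
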