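import Pool.Agent.D0H68.TU.GolE

/-! Representations `n = p + m q + r`: all large `n`. -/

set_option autoImplicit false

open MeasureTheory Filter Finset
open scoped Topology

namespace Pool.Agent.D0H68.TU

open Pool.Agent.D0H68.SD

/-- the expected number of the `p < n` for which `p`, `q = ⌊(n - p) / m⌋ ≥ 2` and `q ^ 2 - 2` are chosen -/
noncomputable def expq (z : ℕ → ℕ) (m n : ℕ) : ℝ :=
  ∑ p ∈ (Ioo 0 n).filter (fun p => 2 ≤ (n - p) / m), ex z p * ex z ((n - p) / m) * ex z (((n - p) / m) ^ 2 - 2)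

open Classical in
/-- the number of the `p`, `0 < p < n`, for which `p`, `q = ⌊(n - p) / m⌋ ≥ 2` and `q ^ 2 - 2` are chosen -/
noncomputable def cntq {Ω : Type} (S : ℕ → Set Ω) (ω : Ω) (m n : ℕ) : ℕ :=
  ((Ioo 0 n).filter (fun p => 2 ≤ (n - p) / m ∧ ω ∈ S p ∧ ω ∈ S ((n - p) / m) ∧ ω ∈ S (((n - p) / m) ^ 2 - 2))).card

theorem expq_sum (z : ℕ → ℕ) {m : ℕ} (hm : 1 ≤ m) (n : ℕ) : expq z m n = ∑ r ∈ range m, er z n m r := by
  unfold expq er
  rw [← sum_fiberwise_of_maps_to (s := (Ioo 0 n).filter (fun p => 2 ≤ (n - p) / m)) (t := range m)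
    (g := fun p => (n - p) % m) (fun p _ => mem_range.2 (Nat.mod_lt _ (by omega)))]
  refine sum_congr rfl fun r _ => ?_
  refine sum_congr ?_ fun _ _ => rfl
  unfold Ar
  rw [filter_filter]
  exact filter_congr fun p _ => and_comm

theorem cntq_sum {Ω : Type} (S : ℕ → Set Ω) (ω : Ω) {m : ℕ} (hm : 1 ≤ m) (n : ℕ) :
    (cntq S ω m n : ℝ) = ∑ r ∈ range m, (cr S ω n m r : ℝ) := by
  classical
  have h : cntq S ω m n = ∑ r ∈ range m, cr S ω n m r := by
    unfold cntq cr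
    rw [card_eq_sum_card_fiberwise (t := range m) (f := fun p => (n - p) % m)
      (fun p _ => Finset.mem_coe.2 (mem_range.2 (Nat.mod_lt _ (by omega))))]
    refine sum_congr rfl fun r _ => ?_
    congr 1
    unfold Ar
    rw [filter_filter, filter_filter]
    refine filter_congr fun p _ => ?_
    tauto
  rw [h]
  push_cast
  rfl

variable {Ω : Type} {m0 : MeasurableSpace Ω} {μ : Measure Ω} [IsProbabilityMeasure μ]
  {ℱ : Filtration ℕ m0} {S : ℕ → Set Ω}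

/-- the expected number is at least that of a good remainder -/
theorem expq_ge {z : ℕ → ℕ} {m n : ℕ} (h : Adm m n) {w : ℝ}
    (hw : ∀ r < m, Nat.Coprime (n - r) m → (n - r + m) % 2 = 1 → w ≤ er z n m r) : w ≤ expq z m n := by
  obtain ⟨r, hr, h1, h2⟩ := good_r h
  refine (hw r hr h1 h2).trans ?_
  rw [expq_sum z h.1]
  exact single_le_sum (f := fun r => er z n m r) (fun r _ => er_nonneg z n m r) (mem_range.2 hr)

theorem final : ∃ C₁ : ℝ, 1 ≤ C₁ ∧ ∃ A : ℕ,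
    (∀ {Ω : Type} [mΩ : MeasurableSpace Ω] (μ : Measure Ω) [IsProbabilityMeasure μ]
      (ℱ : Filtration ℕ mΩ) (S : ℕ → Set Ω), (∀ n, MeasurableSet[ℱ n] (S n)) →
      ∀ θ : ℝ, 0 < θ → C₁ * θ < 1 → ∀ z : ℕ → ℕ, (∀ᶠ n : ℕ in atTop, (z n : ℝ) ≤ (n : ℝ) ^ θ) →
      ((∀ᵐ ω ∂μ, ∃ c : ℝ, 0 < c ∧ ∀ᶠ n : ℕ in atTop, Rough z (n + 1) →
          c * V (z (n + 1)) ≤ (μ[(S (n + 1)).indicator (fun _ => (1 : ℝ)) | ℱ n]) ω * Real.log n) →
        ∀ᵐ ω ∂μ, ∃ κ : ℝ, 0 < κ ∧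
          (∀ᶠ n : ℕ in atTop, ∀ m : ℕ, Adm m n → (m : ℝ) ≤ (n : ℝ) ^ (1 - C₁ * θ) →
            κ * ((n : ℝ) / m / Real.log n ^ A) ≤ cntq S ω m n) ∧
          (∀ᶠ n : ℕ in atTop, ∀ m : ℕ, Adm m n → (m : ℝ) ≤ (n : ℝ) ^ ((1 - C₁ * θ) / 2) →
            κ * expq z m n ≤ cntq S ω m n)) ∧
      ((∀ n, ¬ Rough z n → S n = ∅) →
        (∀ᵐ ω ∂μ, Tendsto (fun n : ℕ => (μ[(S (n + 1)).indicator (fun _ => (1 : ℝ)) | ℱ n]) ω * Real.log n /
          V (z (n + 1))) (atTop ⊓ 𝓟 {n : ℕ | Rough z (n + 1)}) (𝓝 1)) →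
        ∀ᵐ ω ∂μ, ∀ δ : ℝ, 0 < δ → ∀ᶠ n : ℕ in atTop, ∀ m : ℕ, Adm m n →
          (m : ℝ) ≤ (n : ℝ) ^ ((1 - C₁ * θ) / 2) → |(cntq S ω m n : ℝ) - expq z m n| ≤ δ * expq z m n)) ∧
    (∀ θ : ℝ, 0 < θ → C₁ * θ < 1 → ∀ z : ℕ → ℕ, (∀ᶠ n : ℕ in atTop, (z n : ℝ) ≤ (n : ℝ) ^ θ) →
      ∀ᶠ n : ℕ in atTop, ∀ m : ℕ, Adm m n → (m : ℝ) ≤ (n : ℝ) ^ (1 - C₁ * θ) →
        1 / 200 * ((n : ℝ) / m / Real.log n ^ A) ≤ expq z m n) := by
  obtain ⟨θ₁, hθ₁, hsm⟩ := ex_small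
  obtain ⟨C, hC, A, hE⟩ := er_ge
  set C₁ : ℝ := max C (1 / θ₁) with hC₁
  have hC1 : 1 ≤ C₁ := hC.trans (le_max_left _ _)
  have hEr : ∀ θ : ℝ, 0 < θ → C₁ * θ < 1 → ∀ z : ℕ → ℕ, (∀ᶠ n : ℕ in atTop, (z n : ℝ) ≤ (n : ℝ) ^ θ) →
      ∀ᶠ n : ℕ in atTop, ∀ m : ℕ, 1 ≤ m → (m : ℝ) ≤ (n : ℝ) ^ (1 - C₁ * θ) → ∀ r < m,
        Nat.Coprime (n - r) m → (n - r + m) % 2 = 1 → 1 / 200 * ((n : ℝ) / m / Real.log n ^ A) ≤ er z n m r := by
    intro θ hθ hθ1 z hz
    have h1 : C * θ ≤ C₁ * θ := mul_le_mul_of_nonneg_right (le_max_left _ _) hθ.le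
    filter_upwards [hE θ hθ (by linarith) z hz, eventually_ge_atTop 1] with n h2 hn m hm1 hm r hr hco hpar
    refine h2 m hm1 (hm.trans ?_) r hr hco hpar
    exact Real.rpow_le_rpow_of_exponent_le (by exact_mod_cast hn) (by linarith)
  have hEx : ∀ θ : ℝ, 0 < θ → C₁ * θ < 1 → ∀ z : ℕ → ℕ, (∀ᶠ n : ℕ in atTop, (z n : ℝ) ≤ (n : ℝ) ^ θ) →
      ∀ᶠ n : ℕ in atTop, ∀ m : ℕ, Adm m n → (m : ℝ) ≤ (n : ℝ) ^ (1 - C₁ * θ) →
        1 / 200 * ((n : ℝ) / m / Real.log n ^ A) ≤ expq z m n := by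
    intro θ hθ hθ1 z hz
    filter_upwards [hEr θ hθ hθ1 z hz] with n h1 m hA hm
    exact expq_ge hA fun r hr hco hpar => h1 m hA.1 hm r hr hco hpar
  -- the error terms
  have hT : ∀ θ : ℝ, 0 < θ → C₁ * θ < 1 → ∀ z : ℕ → ℕ, (∀ᶠ n : ℕ in atTop, (z n : ℝ) ≤ (n : ℝ) ^ θ) →
      ∀ c : ℝ, 0 < c → ∀ᶠ n : ℕ in atTop, ∀ m : ℕ, Adm m n → (m : ℝ) ≤ (n : ℝ) ^ ((1 - C₁ * θ) / 2) →
        m * (c * Real.log n) ≤ expq z m n := by
    intro θ hθ hθ1 z hz c hc
    have hCθ : 0 < C₁ * θ := by positivity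
    filter_upwards [hEx θ hθ hθ1 z hz, logpow (A + 1) (200 * c) (C₁ * θ) hCθ, eventually_ge_atTop 3]
      with n h1 h2 hn m hA hm
    have hn3 : (3 : ℝ) ≤ n := by exact_mod_cast hn
    have hn0 : (0 : ℝ) < n := by linarith
    have hl : 0 < Real.log n := Real.log_pos (by linarith)
    have hm0 : (0 : ℝ) < m := by exact_mod_cast (by have := hA.1; omega : 0 < m)
    have hm1 : (m : ℝ) ≤ (n : ℝ) ^ (1 - C₁ * θ) :=
      hm.trans (Real.rpow_le_rpow_of_exponent_le (by linarith) (by linarith))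
    refine le_trans ?_ (h1 m hA hm1)
    have h3 : (m : ℝ) * m ≤ (n : ℝ) ^ (1 - C₁ * θ) := by
      calc (m : ℝ) * m ≤ (n : ℝ) ^ ((1 - C₁ * θ) / 2) * (n : ℝ) ^ ((1 - C₁ * θ) / 2) := by gcongr
        _ = (n : ℝ) ^ (1 - C₁ * θ) := by rw [← Real.rpow_add hn0]; ring_nf
    have h4 : (200 * c * Real.log n ^ (A + 1)) * ((m : ℝ) * m) ≤ n := by
      calc (200 * c * Real.log n ^ (A + 1)) * ((m : ℝ) * m)
          ≤ (n : ℝ) ^ (C₁ * θ) * (n : ℝ) ^ (1 - C₁ * θ) := by gcongr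
        _ = n := by rw [← Real.rpow_add hn0]; norm_num
    have h5 : (1 : ℝ) / 200 * ((n : ℝ) / m / Real.log n ^ A) = n / (200 * m * Real.log n ^ A) := by
      field_simp
    rw [h5, le_div_iff₀ (by positivity)]
    calc (m : ℝ) * (c * Real.log n) * (200 * m * Real.log n ^ A) = (200 * c * Real.log n ^ (A + 1)) * ((m : ℝ) * m) := by
          ring
      _ ≤ n := h4
  refine ⟨C₁, hC1, A, ?_, hEx⟩
  intro Ω mΩ μ hμ ℱ S hS θ hθ hθ1 z hz
  have hCθ : 0 < C₁ * θ := by positivity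
  have hθθ₁ : θ ≤ θ₁ := by
    have h1 : 1 / θ₁ * θ ≤ C₁ * θ := mul_le_mul_of_nonneg_right (le_max_right _ _) hθ.le
    have h2 : 1 / θ₁ * θ < 1 := by linarith
    rw [one_div, inv_mul_lt_iff₀ hθ₁] at h2
    linarith
  have hz1 : ∀ᶠ n : ℕ in atTop, ex z n ≤ 1 := by
    apply hsm z
    filter_upwards [hz, eventually_ge_atTop 1] with n g1 g2
    exact g1.trans (Real.rpow_le_rpow_of_exponent_le (by exact_mod_cast g2) hθθ₁)
  refine ⟨fun h => ?_, fun hr h => ?_⟩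
  · filter_upwards [r_low hz1 hS h] with ω h1
    obtain ⟨κ, hκ, D, hD, h2⟩ := h1
    refine ⟨κ / 400, by positivity, ?_, ?_⟩
    · filter_upwards [h2, hEr θ hθ hθ1 z hz, logpow (A + 1) (400 / κ * D + 1) (C₁ * θ) hCθ, eventually_ge_atTop 3]
        with n g1 g2 g3 hn m hA hm
      have hn3 : (3 : ℝ) ≤ n := by exact_mod_cast hn
      have hn0 : (0 : ℝ) < n := by linarith
      have hl : 0 < Real.log n := Real.log_pos (by linarith)
      have hm0 : (0 : ℝ) < m := by exact_mod_cast (by have := hA.1; omega : 0 < m)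
      obtain ⟨r, hrm, hco, hpar⟩ := good_r hA
      have hmn : m ≤ n := by have := hA.2.1; omega
      have g4 := g1 m r hmn (by omega)
      have g5 := g2 m hA.1 hm r hrm hco hpar
      have g6 : (cr S ω n m r : ℝ) ≤ cntq S ω m n := by
        rw [cntq_sum S ω hA.1]
        exact single_le_sum (f := fun r => (cr S ω n m r : ℝ)) (fun r _ => Nat.cast_nonneg _) (mem_range.2 hrm)
      refine le_trans ?_ g6
      refine le_trans ?_ g4
      have g7 : (n : ℝ) ^ (C₁ * θ) ≤ n / m := by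
        rw [le_div_iff₀ hm0]
        calc (n : ℝ) ^ (C₁ * θ) * m ≤ (n : ℝ) ^ (C₁ * θ) * (n : ℝ) ^ (1 - C₁ * θ) := by gcongr
          _ = n := by rw [← Real.rpow_add hn0]; norm_num
      set Y : ℝ := (n : ℝ) / m / Real.log n ^ A with hY
      have g8 : (400 / κ * D + 1) * Real.log n ≤ Y := by
        rw [hY, le_div_iff₀ (by positivity)]
        calc (400 / κ * D + 1) * Real.log n * Real.log n ^ A = (400 / κ * D + 1) * Real.log n ^ (A + 1) := by ring
          _ ≤ _ := g3.trans g7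
      have g9 : D * Real.log n ≤ κ / 400 * Y := by
        have g10 : 400 / κ * (D * Real.log n) ≤ Y := by nlinarith
        have g11 := mul_le_mul_of_nonneg_left g10 (show 0 ≤ κ / 400 by positivity)
        have g12 : κ / 400 * (400 / κ * (D * Real.log n)) = D * Real.log n := by field_simp
        linarith
      have g10 := mul_le_mul_of_nonneg_left g5 hκ.le
      linarith
    · filter_upwards [h2, hT θ hθ hθ1 z hz (2 * D / κ + 1) (by positivity), eventually_ge_atTop 3]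
        with n g1 g2 hn m hA hm
      have g3 := g2 m hA hm
      have hn3 : (3 : ℝ) ≤ n := by exact_mod_cast hn
      have hl : 0 < Real.log n := Real.log_pos (by linarith)
      have hm0 : (0 : ℝ) < m := by exact_mod_cast (by have := hA.1; omega : 0 < m)
      have hmn : m ≤ n := by have := hA.2.1; omega
      have g4 : ∑ r ∈ range m, (κ * er z n m r - D * Real.log n) ≤ ∑ r ∈ range m, (cr S ω n m r : ℝ) :=
        sum_le_sum fun r hr => g1 m r hmn (by have := mem_range.1 hr; omega)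
      rw [sum_sub_distrib, ← mul_sum, ← expq_sum z hA.1, ← cntq_sum S ω hA.1, sum_const, card_range, nsmul_eq_mul] at g4
      have g5 : (m : ℝ) * (D * Real.log n) ≤ κ / 2 * expq z m n := by
        have g6 : (m : ℝ) * (2 * D / κ * Real.log n) ≤ expq z m n := by nlinarith [mul_pos hm0 hl]
        have g7 := mul_le_mul_of_nonneg_left g6 (show 0 ≤ κ / 2 by positivity)
        have g8 : κ / 2 * ((m : ℝ) * (2 * D / κ * Real.log n)) = (m : ℝ) * (D * Real.log n) := by field_simp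
        linarith
      have g6 : 0 ≤ expq z m n := by
        have : 0 ≤ (m : ℝ) * ((2 * D / κ + 1) * Real.log n) := by positivity
        linarith
      nlinarith
  · filter_upwards [r_lln hz1 hS hr h] with ω h1 δ hδ
    obtain ⟨D, hD, h2⟩ := h1 (δ / 2) (by positivity)
    filter_upwards [h2, hT θ hθ hθ1 z hz (2 * D / δ + 1) (by positivity), eventually_ge_atTop 3]
      with n g1 g2 hn m hA hm
    have g3 := g2 m hA hm
    have hn3 : (3 : ℝ) ≤ n := by exact_mod_cast hn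
    have hl : 0 < Real.log n := Real.log_pos (by linarith)
    have hm0 : (0 : ℝ) < m := by exact_mod_cast (by have := hA.1; omega : 0 < m)
    have hmn : m ≤ n := by have := hA.2.1; omega
    have g5 : (m : ℝ) * (D * Real.log n) ≤ δ / 2 * expq z m n := by
      have g6 : (m : ℝ) * (2 * D / δ * Real.log n) ≤ expq z m n := by nlinarith [mul_pos hm0 hl]
      have g7 := mul_le_mul_of_nonneg_left g6 (show 0 ≤ δ / 2 by positivity)
      have g8 : δ / 2 * ((m : ℝ) * (2 * D / δ * Real.log n)) = (m : ℝ) * (D * Real.log n) := by field_simp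
      linarith
    rw [cntq_sum S ω hA.1, expq_sum z hA.1, ← sum_sub_distrib]
    refine (abs_sum_le_sum_abs _ _).trans ?_
    have g4 : ∑ r ∈ range m, |(cr S ω n m r : ℝ) - er z n m r| ≤
        ∑ r ∈ range m, (δ / 2 * er z n m r + D * Real.log n) :=
      sum_le_sum fun r hr => g1 m r hmn (by have := mem_range.1 hr; omega)
    refine g4.trans ?_
    rw [sum_add_distrib, ← mul_sum, sum_const, card_range, nsmul_eq_mul]
    rw [expq_sum z hA.1] at g5
    linarith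

end Pool.Agent.D0H68.TU
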