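import Pool.Agent.D0H68.SD.Mart

/-! Exponential moments for adapted sequences of events with predictable weights. -/

set_option autoImplicit false

open MeasureTheory Filter Finset
open scoped Topology

namespace Pool.Agent.D0H68.TU

open Pool.Agent.D0H68.SD

variable {Ω : Type} {m0 : MeasurableSpace Ω} {μ : Measure Ω} [IsProbabilityMeasure μ]
  {ℱ : Filtration ℕ m0} {S : ℕ → Set Ω}

/-- the exponential process with weights -/
noncomputable def W2 (μ : Measure Ω) (ℱ : Filtration ℕ m0) (S : ℕ → Set Ω) (w : ℕ → Ω → ℝ) (s : ℝ) (k : ℕ) (ω : Ω) : ℝ :=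
  Real.exp (∑ j ∈ range k, (s * (w j ω * In S (j + 1) ω) - (Real.exp s - 1) * (w j ω * Pr μ ℱ S j ω)))

section
variable {w : ℕ → Ω → ℝ} (hw : ∀ j, StronglyMeasurable[ℱ j] (w j)) (hw0 : ∀ j ω, 0 ≤ w j ω)
  (hw1 : ∀ j ω, w j ω ≤ 1) (hS : ∀ n, MeasurableSet[ℱ n] (S n))
include hw hw0 hw1 hS

omit hw0 hw1 in
theorem W2_meas (s : ℝ) (k : ℕ) : StronglyMeasurable[ℱ k] (W2 μ ℱ S w s k) := by
  unfold W2
  apply Continuous.comp_stronglyMeasurable Real.continuous_exp
  apply Finset.stronglyMeasurable_fun_sum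
  intro j hj
  rw [mem_range] at hj
  apply StronglyMeasurable.sub
  · exact (((hw j).mono (ℱ.mono (by omega))).mul ((In_meas hS (j + 1)).mono (ℱ.mono (by omega)))).const_mul s
  · exact (((hw j).mono (ℱ.mono (by omega))).mul ((Pr_meas j).mono (ℱ.mono (by omega)))).const_mul _

omit hw in
theorem W2_bd (s : ℝ) (k : ℕ) :
    ∀ᵐ ω ∂μ, ‖W2 μ ℱ S w s k ω‖ ≤ Real.exp (k * (|s| + |Real.exp s - 1|)) := by
  have h : ∀ᵐ ω ∂μ, ∀ n, 0 ≤ Pr μ ℱ S n ω ∧ Pr μ ℱ S n ω ≤ 1 := ae_all_iff.2 fun n => Pr_bd hS n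
  filter_upwards [h] with ω hω
  unfold W2
  rw [Real.norm_eq_abs, Real.abs_exp]
  apply Real.exp_le_exp.2
  calc ∑ j ∈ range k, (s * (w j ω * In S (j + 1) ω) - (Real.exp s - 1) * (w j ω * Pr μ ℱ S j ω))
      ≤ ∑ j ∈ range k, (|s| + |Real.exp s - 1|) := by
        apply sum_le_sum
        intro j _
        have a1 : 0 ≤ w j ω * In S (j + 1) ω := mul_nonneg (hw0 _ _) (In_nonneg _ _)
        have a2 : w j ω * In S (j + 1) ω ≤ 1 := mul_le_one₀ (hw1 _ _) (In_nonneg _ _) (In_le _ _)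
        have b1 : 0 ≤ w j ω * Pr μ ℱ S j ω := mul_nonneg (hw0 _ _) (hω j).1
        have b2 : w j ω * Pr μ ℱ S j ω ≤ 1 := mul_le_one₀ (hw1 _ _) (hω j).1 (hω j).2
        have h1 : s * (w j ω * In S (j + 1) ω) ≤ |s| := by
          calc s * (w j ω * In S (j + 1) ω) ≤ |s| * (w j ω * In S (j + 1) ω) :=
                mul_le_mul_of_nonneg_right (le_abs_self s) a1
            _ ≤ |s| * 1 := mul_le_mul_of_nonneg_left a2 (abs_nonneg _)
            _ = |s| := mul_one _
        have h2 : -((Real.exp s - 1) * (w j ω * Pr μ ℱ S j ω)) ≤ |Real.exp s - 1| := by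
          calc -((Real.exp s - 1) * (w j ω * Pr μ ℱ S j ω)) = (-(Real.exp s - 1)) * (w j ω * Pr μ ℱ S j ω) := by ring
            _ ≤ |Real.exp s - 1| * (w j ω * Pr μ ℱ S j ω) := mul_le_mul_of_nonneg_right (neg_le_abs _) b1
            _ ≤ |Real.exp s - 1| * 1 := mul_le_mul_of_nonneg_left b2 (abs_nonneg _)
            _ = |Real.exp s - 1| := mul_one _
        linarith
    _ = k * (|s| + |Real.exp s - 1|) := by rw [sum_const, card_range, nsmul_eq_mul]

theorem W2_int (s : ℝ) (k : ℕ) : Integrable (W2 μ ℱ S w s k) μ :=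
  Integrable.of_bound ((W2_meas hw hS s k).mono (ℱ.le _)).aestronglyMeasurable _ (W2_bd hw0 hw1 hS s k)

omit hw hS [IsProbabilityMeasure μ] in
theorem exp_w (s : ℝ) (k : ℕ) (ω : Ω) :
    Real.exp (s * (w k ω * In S (k + 1) ω)) ≤ 1 + (Real.exp s - 1) * (w k ω * In S (k + 1) ω) := by
  by_cases h : ω ∈ S (k + 1)
  · rw [In_one h, mul_one]
    have h1 := convexOn_exp.2 (Set.mem_univ (0 : ℝ)) (Set.mem_univ s) (sub_nonneg.2 (hw1 k ω)) (hw0 k ω)
      (by ring)
    simp only [smul_eq_mul, mul_zero, zero_add, Real.exp_zero, mul_one] at h1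
    rw [mul_comm s]
    linarith
  · rw [In_zero h]; simp

theorem W2_one (s : ℝ) (k : ℕ) : ∫ ω, W2 μ ℱ S w s k ω ∂μ ≤ 1 := by
  induction k with
  | zero => simp [W2]
  | succ k ih =>
    set G : Ω → ℝ := fun ω => W2 μ ℱ S w s k ω * Real.exp (-((Real.exp s - 1) * (w k ω * Pr μ ℱ S k ω))) with hG
    have hGm : StronglyMeasurable[ℱ k] G :=
      (W2_meas hw hS s k).mul (Real.continuous_exp.comp_stronglyMeasurable
        (((hw k).mul (Pr_meas k)).const_mul _).neg)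
    have hPb : ∀ᵐ ω ∂μ, 0 ≤ Pr μ ℱ S k ω ∧ Pr μ ℱ S k ω ≤ 1 := Pr_bd hS k
    have hGb : ∀ᵐ ω ∂μ, ‖G ω‖ ≤ Real.exp (k * (|s| + |Real.exp s - 1|)) * Real.exp |Real.exp s - 1| := by
      filter_upwards [W2_bd hw0 hw1 hS s k, hPb] with ω h1 h2
      rw [hG, norm_mul]
      apply mul_le_mul h1 _ (norm_nonneg _) (Real.exp_nonneg _)
      rw [Real.norm_eq_abs, Real.abs_exp]
      apply Real.exp_le_exp.2
      have b1 : 0 ≤ w k ω * Pr μ ℱ S k ω := mul_nonneg (hw0 _ _) h2.1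
      have b2 : w k ω * Pr μ ℱ S k ω ≤ 1 := mul_le_one₀ (hw1 _ _) h2.1 h2.2
      calc -((Real.exp s - 1) * (w k ω * Pr μ ℱ S k ω)) = (-(Real.exp s - 1)) * (w k ω * Pr μ ℱ S k ω) := by ring
        _ ≤ |Real.exp s - 1| * (w k ω * Pr μ ℱ S k ω) := mul_le_mul_of_nonneg_right (neg_le_abs _) b1
        _ ≤ |Real.exp s - 1| * 1 := mul_le_mul_of_nonneg_left b2 (abs_nonneg _)
        _ = |Real.exp s - 1| := mul_one _
    have hGi : Integrable G μ := Integrable.of_bound (hGm.mono (ℱ.le _)).aestronglyMeasurable _ hGb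
    have hGwm : StronglyMeasurable[ℱ k] (fun ω => G ω * w k ω) := hGm.mul (hw k)
    have hG0 : ∀ ω, 0 ≤ G ω := fun ω => by rw [hG]; exact mul_nonneg (Real.exp_nonneg _) (Real.exp_nonneg _)
    have hGwb : ∀ᵐ ω ∂μ, ‖G ω * w k ω‖ ≤ Real.exp (k * (|s| + |Real.exp s - 1|)) * Real.exp |Real.exp s - 1| := by
      filter_upwards [hGb] with ω h1
      rw [norm_mul]
      have h2 : ‖w k ω‖ ≤ 1 := by rw [Real.norm_eq_abs, abs_of_nonneg (hw0 _ _)]; exact hw1 _ _
      calc ‖G ω‖ * ‖w k ω‖ ≤ ‖G ω‖ * 1 := mul_le_mul_of_nonneg_left h2 (norm_nonneg _)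
        _ ≤ _ := by rw [mul_one]; exact h1
    have hGI : Integrable (fun ω => (G ω * w k ω) * In S (k + 1) ω) μ := by
      have := (In_int (μ := μ) hS (k + 1)).bdd_mul (hGwm.mono (ℱ.le _)).aestronglyMeasurable hGwb
      exact this
    have hGP : Integrable (fun ω => (G ω * w k ω) * Pr μ ℱ S k ω) μ := by
      have h1 : Integrable (Pr μ ℱ S k) μ := integrable_condExp
      exact h1.bdd_mul (hGwm.mono (ℱ.le _)).aestronglyMeasurable hGwb
    have e1 : ∀ ω, W2 μ ℱ S w s (k + 1) ω ≤ G ω + (Real.exp s - 1) * ((G ω * w k ω) * In S (k + 1) ω) := by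
      intro ω
      have h1 : W2 μ ℱ S w s (k + 1) ω = G ω * Real.exp (s * (w k ω * In S (k + 1) ω)) := by
        rw [hG]
        simp only [W2]
        rw [sum_range_succ, ← Real.exp_add, ← Real.exp_add]
        congr 1
        ring
      rw [h1]
      calc G ω * Real.exp (s * (w k ω * In S (k + 1) ω)) ≤
          G ω * (1 + (Real.exp s - 1) * (w k ω * In S (k + 1) ω)) :=
            mul_le_mul_of_nonneg_left (exp_w hw0 hw1 s k ω) (hG0 ω)
        _ = _ := by ring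
    have e2 : ∫ ω, (G ω * w k ω) * In S (k + 1) ω ∂μ = ∫ ω, (G ω * w k ω) * Pr μ ℱ S k ω ∂μ := by
      have h1 : μ[(fun ω => (G ω * w k ω) * In S (k + 1) ω) | ℱ k] =ᵐ[μ]
          fun ω => (G ω * w k ω) * Pr μ ℱ S k ω := by
        have := condExp_mul_of_stronglyMeasurable_left (μ := μ) (m := ℱ k) hGwm (g := In S (k + 1)) hGI
          (In_int hS (k + 1))
        exact this
      rw [← integral_condExp (ℱ.le k) (f := fun ω => (G ω * w k ω) * In S (k + 1) ω)]
      exact integral_congr_ae h1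
    calc ∫ ω, W2 μ ℱ S w s (k + 1) ω ∂μ ≤ ∫ ω, (G ω + (Real.exp s - 1) * ((G ω * w k ω) * In S (k + 1) ω)) ∂μ :=
          integral_mono_ae (W2_int hw hw0 hw1 hS s (k + 1)) (hGi.add (hGI.const_mul _)) (ae_of_all _ e1)
      _ = ∫ ω, G ω ∂μ + (Real.exp s - 1) * ∫ ω, (G ω * w k ω) * In S (k + 1) ω ∂μ := by
          rw [integral_add hGi (hGI.const_mul _), integral_const_mul]
      _ = ∫ ω, G ω ∂μ + (Real.exp s - 1) * ∫ ω, (G ω * w k ω) * Pr μ ℱ S k ω ∂μ := by rw [e2]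
      _ = ∫ ω, (G ω + (Real.exp s - 1) * ((G ω * w k ω) * Pr μ ℱ S k ω)) ∂μ := by
          rw [integral_add hGi (hGP.const_mul _), integral_const_mul]
      _ ≤ ∫ ω, W2 μ ℱ S w s k ω ∂μ := by
          apply integral_mono_ae (hGi.add (hGP.const_mul _)) (W2_int hw hw0 hw1 hS s k)
          filter_upwards with ω
          have h1 : G ω + (Real.exp s - 1) * ((G ω * w k ω) * Pr μ ℱ S k ω) =
              W2 μ ℱ S w s k ω * (Real.exp (-((Real.exp s - 1) * (w k ω * Pr μ ℱ S k ω))) *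
                ((Real.exp s - 1) * (w k ω * Pr μ ℱ S k ω) + 1)) := by
            rw [hG]; ring
          show G ω + (Real.exp s - 1) * ((G ω * w k ω) * Pr μ ℱ S k ω) ≤ W2 μ ℱ S w s k ω
          rw [h1]
          have h2 : Real.exp (-((Real.exp s - 1) * (w k ω * Pr μ ℱ S k ω))) *
                ((Real.exp s - 1) * (w k ω * Pr μ ℱ S k ω) + 1) ≤ 1 := by
            calc _ ≤ Real.exp (-((Real.exp s - 1) * (w k ω * Pr μ ℱ S k ω))) *
                Real.exp ((Real.exp s - 1) * (w k ω * Pr μ ℱ S k ω)) :=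
                  mul_le_mul_of_nonneg_left (Real.add_one_le_exp _) (Real.exp_nonneg _)
              _ = 1 := by rw [← Real.exp_add]; simp
          exact mul_le_of_le_one_right (Real.exp_nonneg _) h2
      _ ≤ 1 := ih

/-- Markov's inequality for the exponential process with weights -/
theorem W2_tail (s t : ℝ) (k : ℕ) :
    μ {ω | t ≤ ∑ j ∈ range k, (s * (w j ω * In S (j + 1) ω) - (Real.exp s - 1) * (w j ω * Pr μ ℱ S j ω))} ≤
      ENNReal.ofReal (Real.exp (-t)) := by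
  have h1 := mul_meas_ge_le_integral_of_nonneg (μ := μ) (f := W2 μ ℱ S w s k)
    (ae_of_all _ fun ω => Real.exp_nonneg _) (W2_int hw hw0 hw1 hS s k) (Real.exp t)
  have h2 : {ω | Real.exp t ≤ W2 μ ℱ S w s k ω} =
      {ω | t ≤ ∑ j ∈ range k, (s * (w j ω * In S (j + 1) ω) - (Real.exp s - 1) * (w j ω * Pr μ ℱ S j ω))} := by
    ext ω
    simp only [Set.mem_ofPred_eq, W2, Real.exp_le_exp]
  rw [h2] at h1
  have h3 := h1.trans (W2_one hw hw0 hw1 hS s k)
  have h4 : (μ.real {ω | t ≤ ∑ j ∈ range k, (s * (w j ω * In S (j + 1) ω) -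
      (Real.exp s - 1) * (w j ω * Pr μ ℱ S j ω))}) ≤ Real.exp (-t) := by
    rw [Real.exp_neg, ← one_div, le_div_iff₀ (Real.exp_pos _), mul_comm]
    exact h3
  rw [← ofReal_measureReal]
  exact ENNReal.ofReal_le_ofReal h4

end

/-- **One step.**  Finitely many times `T m`, `m ∈ J`, different from each other, and weights `u m` with values in
`[0, 1]`, known before the time `T m`. -/
theorem step_tail (hS : ∀ n, MeasurableSet[ℱ n] (S n)) (J : Finset ℕ) (T : ℕ → ℕ) (hT : Set.InjOn T J)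
    (hT1 : ∀ m ∈ J, 1 ≤ T m) (u : ℕ → Ω → ℝ) (hu : ∀ m ∈ J, StronglyMeasurable[ℱ (T m - 1)] (u m))
    (hu0 : ∀ m ∈ J, ∀ ω, 0 ≤ u m ω) (hu1 : ∀ m ∈ J, ∀ ω, u m ω ≤ 1) (s t : ℝ) :
    μ {ω | t ≤ s * ∑ m ∈ J, u m ω * In S (T m) ω - (Real.exp s - 1) * ∑ m ∈ J, u m ω * Pr μ ℱ S (T m - 1) ω} ≤
      ENNReal.ofReal (Real.exp (-t)) := by
  classical
  set w : ℕ → Ω → ℝ := fun n ω => ∑ m ∈ J.filter (fun m => T m = n + 1), u m ω with hwd
  have hsub : ∀ n, ∀ m ∈ J.filter (fun m => T m = n + 1), ∀ m' ∈ J.filter (fun m => T m = n + 1), m = m' := by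
    intro n m hm m' hm'
    rw [mem_filter] at hm hm'
    exact hT hm.1 hm'.1 (hm.2.trans hm'.2.symm)
  have hw : ∀ j, StronglyMeasurable[ℱ j] (w j) := by
    intro j
    apply Finset.stronglyMeasurable_fun_sum
    intro m hm
    rw [mem_filter] at hm
    have := hu m hm.1
    rw [hm.2, Nat.add_sub_cancel] at this
    exact this
  have hw0 : ∀ j ω, 0 ≤ w j ω := fun j ω => sum_nonneg fun m hm => hu0 m (mem_filter.1 hm).1 ω
  have hw1 : ∀ j ω, w j ω ≤ 1 := by
    intro j ω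
    rcases (J.filter (fun m => T m = j + 1)).eq_empty_or_nonempty with h | ⟨m, hm⟩
    · show ∑ m ∈ J.filter (fun m => T m = j + 1), u m ω ≤ 1
      rw [h, sum_empty]; exact zero_le_one
    · have : J.filter (fun m => T m = j + 1) = {m} := by
        rw [eq_singleton_iff_unique_mem]
        exact ⟨hm, fun m' hm' => hsub j m' hm' m hm⟩
      show ∑ m ∈ J.filter (fun m => T m = j + 1), u m ω ≤ 1
      rw [this, sum_singleton]
      exact hu1 m (mem_filter.1 hm).1 ω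
  set K := J.sup T with hK
  have hTK : ∀ m ∈ J, T m ≤ K := fun m hm => le_sup hm
  have key : ∀ (g : ℕ → Ω → ℝ) (ω : Ω), ∑ j ∈ range K, w j ω * g (j + 1) ω = ∑ m ∈ J, u m ω * g (T m) ω := by
    intro g ω
    have h1 : ∀ j ∈ range K, w j ω * g (j + 1) ω = ∑ m ∈ J.filter (fun m => T m - 1 = j), u m ω * g (T m) ω := by
      intro j _
      show (∑ m ∈ J.filter (fun m => T m = j + 1), u m ω) * g (j + 1) ω = _
      rw [sum_mul]
      have h2 : J.filter (fun m => T m = j + 1) = J.filter (fun m => T m - 1 = j) := by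
        apply filter_congr
        intro m hm
        have := hT1 m hm
        omega
      rw [← h2]
      apply sum_congr rfl
      intro m hm
      rw [(mem_filter.1 hm).2]
    rw [sum_congr rfl h1]
    apply sum_fiberwise_of_maps_to (g := fun m => T m - 1)
    intro m hm
    rw [mem_range]
    have := hTK m hm
    have := hT1 m hm
    omega
  have h := W2_tail (μ := μ) hw hw0 hw1 hS s t K
  have heq : {ω | t ≤ s * ∑ m ∈ J, u m ω * In S (T m) ω - (Real.exp s - 1) * ∑ m ∈ J, u m ω * Pr μ ℱ S (T m - 1) ω} =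
      {ω | t ≤ ∑ j ∈ range K, (s * (w j ω * In S (j + 1) ω) - (Real.exp s - 1) * (w j ω * Pr μ ℱ S j ω))} := by
    ext ω
    simp only [Set.mem_ofPred_eq]
    have e1 := key (fun n ω => In S n ω) ω
    have e2 := key (fun n ω => Pr μ ℱ S (n - 1) ω) ω
    simp only [Nat.add_sub_cancel] at e2
    rw [sum_sub_distrib, ← mul_sum, ← mul_sum, e1, e2]
  rw [heq]
  exact h

end Pool.Agent.D0H68.TU
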