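import Pool.Agent.D0H68.TU.Tup
import Pool.Agent.D0H68.SD.Fin

/-! Sieved models: tuples of chosen integers. -/

set_option autoImplicit false

open MeasureTheory Filter Finset
open scoped Topology

namespace Pool.Agent.D0H68.TU

open Pool.Agent.D0H68.SD

open Classical in
/-- the model probability of `n`: `V(z(n)) / log n` if `n` has no prime factor at most `z(n)`, otherwise `0` -/
noncomputable def ex (z : ℕ → ℕ) (n : ℕ) : ℝ := if Rough z n then V (z n) / Real.log n else 0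

theorem ex_nonneg (z : ℕ → ℕ) (n : ℕ) : 0 ≤ ex z n := by
  unfold ex
  split_ifs
  · exact div_nonneg (zero_le_one.trans (V_one _)) (Real.log_natCast_nonneg n)
  · exact le_rfl

/-- truncated at one -/
noncomputable def av (z : ℕ → ℕ) (n : ℕ) : ℝ := min 1 (ex z n)

theorem av_nonneg (z : ℕ → ℕ) (n : ℕ) : 0 ≤ av z n := le_min zero_le_one (ex_nonneg z n)
theorem av_le (z : ℕ → ℕ) (n : ℕ) : av z n ≤ 1 := min_le_left _ _

theorem V_le : ∃ C : ℝ, 0 < C ∧ ∀ y : ℕ, V y ≤ C * (1 + Real.log y) := by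
  obtain ⟨c, C, hc, hC, h⟩ := Pool.Agent.D0H36.BW.VI_bounds
  have hl2 : 0 < Real.log 2 := Real.log_pos (by norm_num)
  refine ⟨1 + 2 * C / Real.log 2, by positivity, fun y => ?_⟩
  have hC' : 0 ≤ 2 * C / Real.log 2 := by positivity
  rcases Nat.lt_or_ge y 2 with hy | hy
  · have h1 : V y = 1 := by
      unfold V
      apply prod_eq_one
      intro q hq
      rw [mem_filter, mem_Icc] at hq
      have := hq.2.two_le
      omega
    have h2 := Real.log_natCast_nonneg y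
    rw [h1]
    nlinarith
  · have h1 := (h 2 y le_rfl hy).2
    have h2 : V y = 2 * Pool.Agent.D0H36.BW.VI 2 y := by
      unfold Pool.Agent.D0H36.BW.VI V
      have hsub : (Finset.Icc 1 y).filter Nat.Prime = insert 2 (Pool.Agent.D0H36.BW.pg 2 y) := by
        ext p
        rw [mem_insert, Pool.Agent.D0H36.BW.mem_pg, mem_filter, mem_Icc]
        constructor
        · rintro ⟨⟨_, h3⟩, h4⟩
          rcases h4.two_le.eq_or_lt with h5 | h5
          · exact Or.inl h5.symm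
          · exact Or.inr ⟨h5, h3, h4⟩
        · rintro (h3 | ⟨h3, h4, h5⟩)
          · rw [h3]; exact ⟨⟨by norm_num, hy⟩, Nat.prime_two⟩
          · exact ⟨⟨by omega, h4⟩, h5⟩
      rw [hsub, prod_insert]
      · congr 1
        · norm_num
        · exact prod_congr rfl fun p _ => by rw [one_div]
      · rw [Pool.Agent.D0H36.BW.mem_pg]; omega
    have h3 := Real.log_natCast_nonneg y
    rw [h2]
    calc 2 * Pool.Agent.D0H36.BW.VI 2 y ≤ 2 * (C * (Real.log y / Real.log 2)) := by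
          push_cast at h1; linarith
      _ = 2 * C / Real.log 2 * Real.log y := by ring
      _ ≤ _ := by nlinarith

/-- for short sieves the model probabilities are at most one -/
theorem ex_small : ∃ θ : ℝ, 0 < θ ∧ ∀ z : ℕ → ℕ, (∀ᶠ n : ℕ in atTop, (z n : ℝ) ≤ (n : ℝ) ^ θ) →
    ∀ᶠ n : ℕ in atTop, ex z n ≤ 1 := by
  obtain ⟨C, hC, h⟩ := V_le
  refine ⟨1 / (2 * C), by positivity, fun z hz => ?_⟩
  filter_upwards [hz, logN.eventually_ge_atTop (2 * C), eventually_ge_atTop 2] with n h1 h2 h3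
  have hn : (0 : ℝ) < n := by exact_mod_cast (by omega : 0 < n)
  have hl : 0 < Real.log n := by linarith
  have h4 : Real.log (z n) ≤ 1 / (2 * C) * Real.log n := by
    rcases Nat.eq_zero_or_pos (z n) with h5 | h5
    · rw [h5]; simp only [Nat.cast_zero, Real.log_zero]; positivity
    · rw [← Real.log_rpow hn]
      exact Real.log_le_log (by exact_mod_cast h5) h1
  unfold ex
  split_ifs
  · rw [div_le_one hl]
    calc V (z n) ≤ C * (1 + Real.log (z n)) := h _
      _ ≤ C * (1 + 1 / (2 * C) * Real.log n) := by gcongr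
      _ = C + Real.log n / 2 := by field_simp
      _ ≤ _ := by linarith
  · exact zero_le_one

variable {Ω : Type} {m0 : MeasurableSpace Ω} {μ : Measure Ω} [IsProbabilityMeasure μ]
  {ℱ : Filtration ℕ m0} {S : ℕ → Set Ω}

theorem conv_low (hS : ∀ n, MeasurableSet[ℱ n] (S n)) (z : ℕ → ℕ)
    (h : ∀ᵐ ω ∂μ, ∃ c : ℝ, 0 < c ∧ ∀ᶠ n : ℕ in atTop, Rough z (n + 1) →
      c * V (z (n + 1)) ≤ Pr μ ℱ S n ω * Real.log n) :
    ∀ᵐ ω ∂μ, ∃ c : ℝ, 0 < c ∧ ∀ᶠ n : ℕ in atTop, c * av z (n + 1) ≤ Pr μ ℱ S n ω := by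
  have hP : ∀ᵐ ω ∂μ, ∀ n, 0 ≤ Pr μ ℱ S n ω ∧ Pr μ ℱ S n ω ≤ 1 := ae_all_iff.2 fun n => Pr_bd hS n
  filter_upwards [hP, h] with ω h1 h2
  obtain ⟨c, hc, h3⟩ := h2
  refine ⟨c, hc, ?_⟩
  filter_upwards [h3, eventually_ge_atTop 2] with n h4 h5
  have hn : (1 : ℝ) < n := by exact_mod_cast (by omega : 1 < n)
  have hl : 0 < Real.log n := Real.log_pos hn
  have hl2 : Real.log (n : ℝ) ≤ Real.log ((n + 1 : ℕ) : ℝ) := by
    apply Real.log_le_log (by linarith)
    push_cast; linarith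
  have h6 : c * av z (n + 1) ≤ c * ex z (n + 1) := mul_le_mul_of_nonneg_left (min_le_right _ _) hc.le
  refine h6.trans ?_
  unfold ex
  split_ifs with hr
  · have h7 : 0 ≤ V (z (n + 1)) := zero_le_one.trans (V_one _)
    calc c * (V (z (n + 1)) / Real.log ((n + 1 : ℕ) : ℝ)) ≤ c * (V (z (n + 1)) / Real.log n) := by gcongr
      _ = (c * V (z (n + 1))) / Real.log n := by ring
      _ ≤ Pr μ ℱ S n ω := by rw [div_le_iff₀ hl]; exact h4 hr
  · rw [mul_zero]; exact (h1 n).1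

theorem conv_lln (hS : ∀ n, MeasurableSet[ℱ n] (S n)) (z : ℕ → ℕ) (hr : ∀ n, ¬ Rough z n → S n = ∅)
    (h : ∀ᵐ ω ∂μ, Tendsto (fun n : ℕ => Pr μ ℱ S n ω * Real.log n / V (z (n + 1)))
      (atTop ⊓ 𝓟 {n : ℕ | Rough z (n + 1)}) (𝓝 1)) :
    ∀ᵐ ω ∂μ, ∀ e : ℝ, 0 < e → ∀ᶠ n : ℕ in atTop,
      (1 - e) * av z (n + 1) ≤ Pr μ ℱ S n ω ∧ Pr μ ℱ S n ω ≤ (1 + e) * av z (n + 1) := by
  have hP : ∀ᵐ ω ∂μ, ∀ n, 0 ≤ Pr μ ℱ S n ω ∧ Pr μ ℱ S n ω ≤ 1 := ae_all_iff.2 fun n => Pr_bd hS n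
  have hP0 : ∀ᵐ ω ∂μ, ∀ n, ¬ Rough z (n + 1) → Pr μ ℱ S n ω = 0 := by
    refine ae_all_iff.2 fun n => ?_
    by_cases hn : Rough z (n + 1)
    · exact ae_of_all _ fun ω hcon => absurd hn hcon
    · have h1 : (μ[(S (n + 1)).indicator (fun _ => (1 : ℝ)) | ℱ n]) =ᵐ[μ] 0 := by
        rw [hr _ hn, Set.indicator_empty]
        have := condExp_zero (μ := μ) (m := ℱ n) (m₀ := m0) (E := ℝ)
        exact Filter.EventuallyEq.of_eq this
      filter_upwards [h1] with ω hω _
      exact hω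
  filter_upwards [hP, hP0, h] with ω h2 h3 h4 e he
  set η : ℝ := min e 1 / 8 with hη
  have hm : 0 < min e 1 := lt_min he one_pos
  have hη0 : 0 < η := by positivity
  have hη1 : η ≤ 1 / 8 := by rw [hη]; linarith [min_le_right e 1]
  have hηe : 8 * η ≤ e := by rw [hη]; linarith [min_le_left e 1]
  have h5 : ∀ᶠ n : ℕ in atTop, Rough z (n + 1) → |Pr μ ℱ S n ω * Real.log n / V (z (n + 1)) - 1| < η := by
    have := h4.eventually (Metric.ball_mem_nhds (1 : ℝ) hη0)
    rw [eventually_inf_principal] at this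
    exact this.mono fun n hn hrn => by simpa [Real.dist_eq] using hn hrn
  have h6 : ∀ᶠ n : ℕ in atTop, Real.log ((n + 1 : ℕ) : ℝ) ≤ (1 + η) * Real.log n := by
    have hl1 : ∀ᶠ n : ℕ in atTop, 1 / η ≤ Real.log n := logN.eventually_ge_atTop _
    filter_upwards [hl1, eventually_ge_atTop 2] with n g1 g2
    have g3 : (2 : ℝ) ≤ n := by exact_mod_cast g2
    have g4 : Real.log ((n + 1 : ℕ) : ℝ) ≤ Real.log n + 1 := by
      have : Real.log ((n + 1 : ℕ) : ℝ) ≤ Real.log ((n : ℝ) * Real.exp 1) := by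
        apply Real.log_le_log (by positivity)
        push_cast
        have := Real.add_one_le_exp (1 : ℝ)
        nlinarith
      rwa [Real.log_mul (by linarith) (Real.exp_pos _).ne', Real.log_exp] at this
    have g5 : 1 ≤ η * Real.log n := by
      have := mul_le_mul_of_nonneg_left g1 hη0.le
      rwa [mul_one_div_cancel hη0.ne'] at this
    linarith
  filter_upwards [h5, h6, eventually_ge_atTop 2] with n g1 g2 g3
  have hn : (1 : ℝ) < n := by exact_mod_cast (by omega : 1 < n)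
  have hl : 0 < Real.log n := Real.log_pos hn
  have hl2 : Real.log (n : ℝ) ≤ Real.log ((n + 1 : ℕ) : ℝ) := by
    apply Real.log_le_log (by linarith)
    push_cast; linarith
  have hl3 : 0 < Real.log ((n + 1 : ℕ) : ℝ) := hl.trans_le hl2
  obtain ⟨hP1, hP2⟩ := h2 n
  by_cases hrn : Rough z (n + 1)
  · have hV : 0 < V (z (n + 1)) := zero_lt_one.trans_le (V_one _)
    have g4 := abs_lt.1 (g1 hrn)
    have g5 : (1 - η) * V (z (n + 1)) ≤ Pr μ ℱ S n ω * Real.log n := by
      have : 1 - η ≤ Pr μ ℱ S n ω * Real.log n / V (z (n + 1)) := by linarith [g4.1]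
      rwa [le_div_iff₀ hV] at this
    have g6 : Pr μ ℱ S n ω * Real.log n ≤ (1 + η) * V (z (n + 1)) := by
      have : Pr μ ℱ S n ω * Real.log n / V (z (n + 1)) ≤ 1 + η := by linarith [g4.2]
      rwa [div_le_iff₀ hV] at this
    have hex : ex z (n + 1) = V (z (n + 1)) / Real.log ((n + 1 : ℕ) : ℝ) := by unfold ex; rw [if_pos hrn]
    have g7 : (1 - η) * ex z (n + 1) ≤ Pr μ ℱ S n ω := by
      rw [hex, ← mul_div_assoc, div_le_iff₀ hl3]
      refine g5.trans ?_
      exact mul_le_mul_of_nonneg_left hl2 hP1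
    have g8 : Pr μ ℱ S n ω ≤ (1 + e) * ex z (n + 1) := by
      rw [hex, ← mul_div_assoc, le_div_iff₀ hl3]
      calc Pr μ ℱ S n ω * Real.log ((n + 1 : ℕ) : ℝ) ≤ Pr μ ℱ S n ω * ((1 + η) * Real.log n) :=
            mul_le_mul_of_nonneg_left g2 hP1
        _ = (1 + η) * (Pr μ ℱ S n ω * Real.log n) := by ring
        _ ≤ (1 + η) * ((1 + η) * V (z (n + 1))) := mul_le_mul_of_nonneg_left g6 (by linarith)
        _ = ((1 + η) * (1 + η)) * V (z (n + 1)) := by ring
        _ ≤ (1 + e) * V (z (n + 1)) := mul_le_mul_of_nonneg_right (by nlinarith) hV.le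
    constructor
    · refine le_trans ?_ g7
      have h0 := av_nonneg z (n + 1)
      calc (1 - e) * av z (n + 1) ≤ (1 - η) * av z (n + 1) := mul_le_mul_of_nonneg_right (by linarith) h0
        _ ≤ (1 - η) * ex z (n + 1) := mul_le_mul_of_nonneg_left (min_le_right _ _) (by linarith)
    · unfold av
      rcases min_choice 1 (ex z (n + 1)) with h7 | h7
      · rw [h7]; linarith
      · rw [h7]; exact g8
  · have hex : ex z (n + 1) = 0 := by unfold ex; rw [if_neg hrn]
    have hav : av z (n + 1) = 0 := by unfold av; rw [hex]; simp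
    rw [hav, h3 n hrn]
    simp

/-! ### The counting functions -/

open Classical in
/-- the number of the `m ∈ J` for which the `f i m`, `i < k`, are all chosen -/
noncomputable def cntT (S : ℕ → Set Ω) (f : ℕ → ℕ → ℕ) (k : ℕ) (J : Finset ℕ) (ω : Ω) : ℕ :=
  (J.filter fun m => ∀ i < k, ω ∈ S (f i m)).card

/-- the expected number -/
noncomputable def EE (z : ℕ → ℕ) (f : ℕ → ℕ → ℕ) (k : ℕ) (J : Finset ℕ) : ℝ :=
  ∑ m ∈ J, ∏ i ∈ range k, ex z (f i m)

omit [IsProbabilityMeasure μ] in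
theorem Nn_eq (a : ℕ → ℝ) (f : ℕ → ℕ → ℕ) (k : ℕ) (J : Finset ℕ) (ω : Ω) :
    Nn S a f k J k ω = cntT S f k J ω := by
  classical
  unfold Nn cntT
  rw [card_filter]
  push_cast
  refine sum_congr rfl fun m _ => ?_
  rw [Ico_self, prod_empty, one_mul]
  split_ifs with h
  · exact prod_eq_one fun i hi => In_one (h i (mem_range.1 hi))
  · push Not at h
    obtain ⟨i, hi, h1⟩ := h
    exact prod_eq_zero (mem_range.2 hi) (In_zero h1)

omit [IsProbabilityMeasure μ] in
/-- the truncation changes the expected numbers by `O(1)` -/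
theorem comp {z : ℕ → ℕ} (hz : ∀ᶠ n : ℕ in atTop, ex z n ≤ 1) (k : ℕ) : ∃ D : ℝ, 0 ≤ D ∧
    ∀ (f : ℕ → ℕ → ℕ) (J : Finset ℕ), OK f k J →
      ∑ m ∈ J, ∏ i ∈ range k, av z (f i m) ≤ EE z f k J ∧
      EE z f k J ≤ ∑ m ∈ J, ∏ i ∈ range k, av z (f i m) + D := by
  obtain ⟨n1, hn1⟩ := eventually_atTop.1 hz
  obtain ⟨B, hB1, hB⟩ : ∃ B : ℝ, 1 ≤ B ∧ ∀ n, ex z n ≤ B := by
    refine ⟨1 + ∑ n ∈ range n1, ex z n, by
      have : 0 ≤ ∑ n ∈ range n1, ex z n := sum_nonneg fun n _ => ex_nonneg z n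
      linarith, fun n => ?_⟩
    rcases Nat.lt_or_ge n n1 with h | h
    · have := single_le_sum (f := fun n => ex z n) (fun n _ => ex_nonneg z n) (mem_range.2 h)
      linarith
    · have h1 := hn1 n h
      have : 0 ≤ ∑ n ∈ range n1, ex z n := sum_nonneg fun n _ => ex_nonneg z n
      linarith
  refine ⟨n1 * B ^ k, by positivity, fun f J hf => ⟨?_, ?_⟩⟩
  · unfold EE
    exact sum_le_sum fun m _ => prod_le_prod (fun i _ => av_nonneg z _) fun i _ => min_le_right _ _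
  · unfold EE
    rcases Nat.eq_zero_or_pos k with hk | hk
    · subst hk
      simp
    · have h1 : ∀ m ∈ J, ∏ i ∈ range k, ex z (f i m) ≤ ∏ i ∈ range k, av z (f i m) +
          (if f 0 m ≤ n1 then B ^ k else 0) := by
        intro m hm
        split_ifs with h2
        · have h3 : ∏ i ∈ range k, ex z (f i m) ≤ B ^ k := by
            calc ∏ i ∈ range k, ex z (f i m) ≤ ∏ i ∈ range k, B :=
                  prod_le_prod (fun i _ => ex_nonneg z _) fun i _ => hB _
              _ = B ^ k := by rw [prod_const, card_range]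
          have h4 : 0 ≤ ∏ i ∈ range k, av z (f i m) := prod_nonneg fun i _ => av_nonneg z _
          linarith
        · rw [add_zero]
          apply le_of_eq
          refine prod_congr rfl fun i hi => ?_
          rw [mem_range] at hi
          have h3 : f 0 m ≤ f i m := by
            rcases Nat.eq_zero_or_pos i with h4 | h4
            · rw [h4]
            · exact (hf.lt' hm hi 0 h4).le
          unfold av
          rw [min_eq_right (hn1 _ (by omega))]
      refine (sum_le_sum h1).trans ?_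
      rw [sum_add_distrib]
      have h3 : ∑ m ∈ J, (if f 0 m ≤ n1 then B ^ k else 0) ≤ n1 * B ^ k := by
        rw [← sum_filter, sum_const, nsmul_eq_mul]
        exact mul_le_mul_of_nonneg_right (few hf hk n1) (by positivity)
      linarith

section
variable {ι : Type} [Countable ι] {f : ι → ℕ → ℕ → ℕ} {k : ℕ} {J : ι → Finset ℕ}
  (hf : ∀ i, OK (f i) k (J i)) {t : ι → ℝ}
  (ht : Summable fun i => Real.exp (-t i)) {z : ℕ → ℕ} (hz : ∀ᶠ n : ℕ in atTop, ex z n ≤ 1)
  (hE : Tendsto (fun i => EE z (f i) k (J i) / t i) cofinite atTop)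

include hf ht hz hE in
theorem avE : Tendsto (fun i => (∑ m ∈ J i, ∏ j ∈ range k, av z (f i j m)) / t i) cofinite atTop := by
  obtain ⟨D, hD, h⟩ := comp hz k
  have h1 := t_large ht
  rw [tendsto_atTop]
  intro b
  filter_upwards [hE.eventually_ge_atTop (b + D), h1.eventually_ge_atTop 1] with i h2 h3
  have h4 := (h (f i) (J i) (hf i)).2
  have h5 : 0 < t i := by linarith
  rw [le_div_iff₀ h5] at h2 ⊢
  nlinarith

include hf ht hz hE in
/-- **Lower bound for the number of tuples of chosen integers** -/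
theorem model_low (hS : ∀ n, MeasurableSet[ℱ n] (S n))
    (h : ∀ᵐ ω ∂μ, ∃ c : ℝ, 0 < c ∧ ∀ᶠ n : ℕ in atTop, Rough z (n + 1) →
      c * V (z (n + 1)) ≤ Pr μ ℱ S n ω * Real.log n) :
    ∀ᵐ ω ∂μ, ∃ κ : ℝ, 0 < κ ∧ ∀ᶠ i in cofinite, κ * EE z (f i) k (J i) ≤ cntT S (f i) k (J i) ω := by
  obtain ⟨D, hD, hc⟩ := comp hz k
  have h1 := tuples_low (μ := μ) (ℱ := ℱ) (av_nonneg z) (av_le z) hf ht hS (conv_low hS z h) (fun i => rfl)
    (avE hf ht hz hE)
  filter_upwards [h1] with ω h2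
  obtain ⟨κ, hκ, h3⟩ := h2
  refine ⟨κ / 2, by positivity, ?_⟩
  filter_upwards [h3, hE.eventually_ge_atTop (2 * D), (t_large ht).eventually_ge_atTop 1] with i h4 h5 h6
  rw [Nn_eq] at h4
  have h7 := (hc (f i) (J i) (hf i)).2
  have h8 : 0 < t i := by linarith
  rw [le_div_iff₀ h8] at h5
  have h9 : 2 * D ≤ EE z (f i) k (J i) := by nlinarith
  refine le_trans ?_ h4
  calc κ / 2 * EE z (f i) k (J i) = κ * (EE z (f i) k (J i) / 2) := by ring
    _ ≤ _ := mul_le_mul_of_nonneg_left (by linarith) hκ.le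

include hf ht hz hE in
/-- **Law of large numbers for the tuples of chosen integers** -/
theorem model_lln (hS : ∀ n, MeasurableSet[ℱ n] (S n)) (hr : ∀ n, ¬ Rough z n → S n = ∅)
    (h : ∀ᵐ ω ∂μ, Tendsto (fun n : ℕ => Pr μ ℱ S n ω * Real.log n / V (z (n + 1)))
      (atTop ⊓ 𝓟 {n : ℕ | Rough z (n + 1)}) (𝓝 1)) :
    ∀ᵐ ω ∂μ, ∀ δ : ℝ, 0 < δ → ∀ᶠ i in cofinite,
      |(cntT S (f i) k (J i) ω : ℝ) - EE z (f i) k (J i)| ≤ δ * EE z (f i) k (J i) := by
  obtain ⟨D, hD, hc⟩ := comp hz k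
  have h1 := tuples_lln (μ := μ) (ℱ := ℱ) (av_nonneg z) (av_le z) hf ht hS (conv_lln hS z hr h) (fun i => rfl)
    (avE hf ht hz hE)
  filter_upwards [h1] with ω h2 δ hδ
  filter_upwards [h2 (δ / 2) (by positivity), hE.eventually_ge_atTop (2 * D / δ),
    (t_large ht).eventually_ge_atTop 1] with i h4 h5 h6
  rw [Nn_eq] at h4
  obtain ⟨h7, h8⟩ := hc (f i) (J i) (hf i)
  have h9 : 0 < t i := by linarith
  rw [le_div_iff₀ h9] at h5
  have h10 : 2 * D / δ ≤ EE z (f i) k (J i) := by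
    have : 0 ≤ 2 * D / δ := by positivity
    nlinarith
  rw [div_le_iff₀ hδ] at h10
  rw [abs_le] at h4 ⊢
  constructor
  · nlinarith [h4.1]
  · nlinarith [h4.2]

end

end Pool.Agent.D0H68.TU
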