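import Pool.Agent.D0H68.TU.Two

/-! The pairs `m ^ 2 + 1`, `m ^ 2 + 3` in sieved models: expected numbers and the theorems. -/

set_option autoImplicit false

open MeasureTheory Filter Finset
open scoped Topology

namespace Pool.Agent.D0H68.TU

open Pool.Agent.D0H68.SD Pool.Agent.D0H41.LP

theorem lowA {z : ℕ → ℕ} {x : ℕ} {A : Finset ℕ} {w : ℝ} (hw0 : 0 ≤ w) (hA : A ⊆ Icc 1 x)
    (hr : ∀ m ∈ A, Rough z (m ^ 2 + 1) ∧ Rough z (m ^ 2 + 3))
    (hw : ∀ m ∈ A, w ≤ V (z (m ^ 2 + 1)) / Real.log ((m ^ 2 + 1 : ℕ) : ℝ) ∧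
      w ≤ V (z (m ^ 2 + 3)) / Real.log ((m ^ 2 + 3 : ℕ) : ℝ)) : A.card * w ^ 2 ≤ expd2 z x := by
  classical
  unfold expd2
  have h1 : A ⊆ (Icc 1 x).filter (fun m => Rough z (m ^ 2 + 1) ∧ Rough z (m ^ 2 + 3)) := by
    intro m hm
    rw [mem_filter]
    exact ⟨hA hm, hr m hm⟩
  calc (A.card : ℝ) * w ^ 2 = ∑ m ∈ A, w ^ 2 := by rw [sum_const, nsmul_eq_mul]
    _ ≤ ∑ m ∈ A, V (z (m ^ 2 + 1)) / Real.log ((m ^ 2 + 1 : ℕ) : ℝ) *
        (V (z (m ^ 2 + 3)) / Real.log ((m ^ 2 + 3 : ℕ) : ℝ)) := by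
      refine sum_le_sum fun m hm => ?_
      rw [sq]
      exact mul_le_mul (hw m hm).1 (hw m hm).2 hw0 (hw0.trans (hw m hm).1)
    _ ≤ _ := by
      refine sum_le_sum_of_subset_of_nonneg h1 fun m _ _ => ?_
      exact mul_nonneg (div_nonneg (zero_le_one.trans (V_one _)) (Real.log_natCast_nonneg _))
        (div_nonneg (zero_le_one.trans (V_one _)) (Real.log_natCast_nonneg _))

theorem exp_low2 : ∃ θ : ℝ, 0 < θ ∧ (∃ κ : ℝ, 0 < κ ∧ ∀ z : ℕ → ℕ,
    (∀ᶠ n : ℕ in atTop, (z n : ℝ) ≤ (n : ℝ) ^ θ) → ∀ᶠ x : ℕ in atTop, κ * (x / Real.log x ^ 4) ≤ expd2 z x) ∧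
    ∀ θ' : ℝ, 0 < θ' → ∃ κ : ℝ, 0 < κ ∧ ∀ z : ℕ → ℕ, (∀ᶠ n : ℕ in atTop, (z n : ℝ) ≤ (n : ℝ) ^ θ) →
      (∀ᶠ n : ℕ in atTop, (n : ℝ) ^ θ' ≤ z n) → ∀ᶠ x : ℕ in atTop, κ * (x / Real.log x ^ 2) ≤ expd2 z x := by
  obtain ⟨θ, hθ, κ, hκ, H⟩ := sift2
  refine ⟨θ, hθ, ⟨κ / 9, by positivity, fun z hz => ?_⟩, fun θ' hθ' => ?_⟩
  · filter_upwards [H z hz 0, eventually_ge_atTop 3] with x h1 h2
    obtain ⟨A, hA, hr, hc⟩ := h1
    have hx3 : (3 : ℝ) ≤ x := by exact_mod_cast h2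
    have hlx : 0 < Real.log x := Real.log_pos (by linarith)
    have h3 := lowA (z := z) (x := x) (A := A) (w := 1 / (3 * Real.log x)) (by positivity) hA (fun m hm => (hr m hm).2) ?_
    · refine le_trans ?_ h3
      calc κ / 9 * (x / Real.log x ^ 4) = κ * (x / Real.log x ^ 2) * (1 / (3 * Real.log x)) ^ 2 := by
            field_simp
            norm_num
        _ ≤ _ := mul_le_mul_of_nonneg_right hc (by positivity)
    · intro m hm
      have hm' := mem_Icc.1 (hA hm)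
      have hmx : (m : ℝ) ≤ x := by exact_mod_cast hm'.2
      have hm1 : (1 : ℝ) ≤ m := by exact_mod_cast hm'.1
      have h4 : ∀ i : ℕ, 1 ≤ i → i ≤ 3 → 1 / (3 * Real.log x) ≤ V (z (m ^ 2 + i)) / Real.log ((m ^ 2 + i : ℕ) : ℝ) := by
        intro i hi1 hi3
        have hi1' : (1 : ℝ) ≤ i := by exact_mod_cast hi1
        have hi3' : (i : ℝ) ≤ 3 := by exact_mod_cast hi3
        have h5 : (1 : ℝ) < ((m ^ 2 + i : ℕ) : ℝ) := by push_cast; nlinarith
        have h6 : Real.log ((m ^ 2 + i : ℕ) : ℝ) ≤ 3 * Real.log x := by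
          have : ((m ^ 2 + i : ℕ) : ℝ) ≤ (x : ℝ) ^ 3 := by
            push_cast
            have : (m : ℝ) ^ 2 ≤ (x : ℝ) ^ 2 := by gcongr
            nlinarith [sq_nonneg ((x : ℝ) - 3)]
          calc Real.log ((m ^ 2 + i : ℕ) : ℝ) ≤ Real.log ((x : ℝ) ^ 3) := Real.log_le_log (by linarith) this
            _ = 3 * Real.log x := by rw [Real.log_pow]; norm_num
        exact div_le_div₀ (zero_le_one.trans (V_one _)) (V_one _) (Real.log_pos h5) h6
      exact ⟨h4 1 le_rfl (by norm_num), h4 3 (by norm_num) le_rfl⟩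
  · obtain ⟨c, hc, hV⟩ := V_ge
    refine ⟨κ * (c * θ') ^ 2, by positivity, fun z hz hz' => ?_⟩
    have e1 : ∀ᶠ n : ℕ in atTop, (2 : ℝ) ≤ (n : ℝ) ^ θ' :=
      tendsto_natCast_atTop_atTop.eventually ((tendsto_rpow_atTop hθ').eventually_ge_atTop _)
    obtain ⟨N, hN⟩ := eventually_atTop.1 (e1.and hz')
    filter_upwards [H z hz (N + 2)] with x h1
    obtain ⟨A, hA, hr, hcard⟩ := h1
    have h3 := lowA (z := z) (x := x) (A := A) (w := c * θ') (by positivity) hA (fun m hm => (hr m hm).2) ?_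
    · refine le_trans ?_ h3
      calc κ * (c * θ') ^ 2 * (x / Real.log x ^ 2) = κ * (x / Real.log x ^ 2) * (c * θ') ^ 2 := by ring
        _ ≤ _ := mul_le_mul_of_nonneg_right hcard (by positivity)
    · intro m hm
      have hmN := (hr m hm).1
      have h4 : ∀ i : ℕ, c * θ' ≤ V (z (m ^ 2 + i)) / Real.log ((m ^ 2 + i : ℕ) : ℝ) := by
        intro i
        set n := m ^ 2 + i with hn
        have hmm : m ≤ m ^ 2 := Nat.le_self_pow (by norm_num) m
        obtain ⟨h5, h6⟩ := hN n (by omega)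
        have hn1 : (1 : ℝ) < n := by exact_mod_cast (by omega : 1 < n)
        have hz2 : 2 ≤ z n := by
          have : (2 : ℝ) ≤ z n := h5.trans h6
          exact_mod_cast this
        have h7 := hV (z n) hz2
        rw [le_div_iff₀ (Real.log_pos hn1)]
        refine le_trans ?_ h7
        rw [mul_assoc]
        apply mul_le_mul_of_nonneg_left _ hc.le
        rw [← Real.log_rpow (by linarith)]
        exact Real.log_le_log (by positivity) h6
      exact ⟨h4 1, h4 3⟩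

theorem big2 {κ : ℝ} (hκ : 0 < κ) {E : ℕ → ℝ} (h : ∀ᶠ x : ℕ in atTop, κ * (x / Real.log x ^ 4) ≤ E x) :
    Tendsto (fun x => E x / (2 * Real.log ((x : ℝ) + 2))) atTop atTop := by
  have h2 : Tendsto (fun x : ℝ => x / Real.log x ^ 5) atTop atTop := by
    have h3 := (isLittleO_log_rpow_atTop (show (0 : ℝ) < 1 / 10 by norm_num))
    have h4 := h3.bound (show (0 : ℝ) < 1 by norm_num)
    refine tendsto_atTop_mono' _ ?_ (tendsto_rpow_atTop (show (0 : ℝ) < 1 / 2 by norm_num))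
    filter_upwards [h4, eventually_gt_atTop 1] with x h5 h6
    have h7 : 0 < Real.log x := Real.log_pos h6
    have h8 : 0 < x := by linarith
    rw [Real.norm_of_nonneg h7.le, one_mul, Real.norm_of_nonneg (Real.rpow_nonneg h8.le _)] at h5
    rw [le_div_iff₀ (by positivity)]
    calc x ^ (1 / 2 : ℝ) * Real.log x ^ 5 ≤ x ^ (1 / 2 : ℝ) * (x ^ (1 / 10 : ℝ)) ^ 5 := by gcongr
      _ = x := by
        rw [← Real.rpow_natCast, ← Real.rpow_mul h8.le, ← Real.rpow_add h8]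
        norm_num
  have h3 := (h2.comp (tendsto_natCast_atTop_atTop (R := ℝ))).const_mul_atTop (show (0 : ℝ) < κ / 4 by positivity)
  refine tendsto_atTop_mono' _ ?_ h3
  filter_upwards [h, eventually_ge_atTop 3] with x g1 g2
  have hx3 : (3 : ℝ) ≤ x := by exact_mod_cast g2
  have hlx : 0 < Real.log x := Real.log_pos (by linarith)
  have g3 : Real.log ((x : ℝ) + 2) ≤ 2 * Real.log x := by
    calc Real.log ((x : ℝ) + 2) ≤ Real.log ((x : ℝ) ^ 2) := Real.log_le_log (by linarith) (by nlinarith)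
      _ = 2 * Real.log x := by rw [Real.log_pow]; norm_num
  have g4 : 0 < Real.log ((x : ℝ) + 2) := Real.log_pos (by linarith)
  have g5 : 0 ≤ E x := le_trans (by positivity) g1
  simp only [Function.comp]
  rw [le_div_iff₀ (by positivity)]
  refine le_trans ?_ g1
  calc κ / 4 * ((x : ℝ) / Real.log x ^ 5) * (2 * Real.log ((x : ℝ) + 2))
      ≤ κ / 4 * ((x : ℝ) / Real.log x ^ 5) * (2 * (2 * Real.log x)) := by gcongr
    _ = κ * (x / Real.log x ^ 4) := by field_simp; ring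

variable {Ω : Type} {m0 : MeasurableSpace Ω} {μ : Measure Ω} [IsProbabilityMeasure μ]
  {ℱ : Filtration ℕ m0} {S : ℕ → Set Ω}

theorem two_low {z : ℕ → ℕ} (hz : ∀ᶠ n : ℕ in atTop, ex z n ≤ 1) {κ : ℝ} (hκ : 0 < κ)
    (hE : ∀ᶠ x : ℕ in atTop, κ * (x / Real.log x ^ 4) ≤ expd2 z x)
    (hS : ∀ n, MeasurableSet[ℱ n] (S n))
    (h : ∀ᵐ ω ∂μ, ∃ c : ℝ, 0 < c ∧ ∀ᶠ n : ℕ in atTop, Rough z (n + 1) →
      c * V (z (n + 1)) ≤ Pr μ ℱ S n ω * Real.log n) :
    ∀ᵐ ω ∂μ, {m : ℕ | ω ∈ S (m ^ 2 + 1) ∧ ω ∈ S (m ^ 2 + 3)}.Infinite ∧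
      ∃ κ : ℝ, 0 < κ ∧ ∀ᶠ x : ℕ in atTop, κ * expd2 z x ≤ cnt2 S ω x := by
  have h1 := model_low (μ := μ) (ℱ := ℱ) (ι := ℕ) (f := fun _ => f2) (k := 2) (J := fun x => Icc 1 x)
    (fun x => ok2 2 _) (t := fun x => 2 * Real.log ((x : ℝ) + 2)) summ2 hz ?_ hS h
  · filter_upwards [h1] with ω h2
    obtain ⟨c, hc, h3⟩ := h2
    rw [Nat.cofinite_eq_atTop] at h3
    have h4 : ∀ᶠ x : ℕ in atTop, c * expd2 z x ≤ cnt2 S ω x := by
      filter_upwards [h3] with x h5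
      rwa [EE2, cntT2] at h5
    refine ⟨?_, c, hc, h4⟩
    intro hfin
    have h5 : ∀ x, (cnt2 S ω x : ℝ) ≤ hfin.toFinset.card := by
      intro x
      have : cnt2 S ω x ≤ hfin.toFinset.card := by
        classical
        unfold cnt2
        apply card_le_card
        intro m hm
        rw [mem_filter] at hm
        rw [Set.Finite.mem_toFinset]
        exact hm.2
      exact_mod_cast this
    have h6 := big2 hκ hE
    have h7 : ∀ᶠ x : ℕ in atTop, 1 ≤ 2 * Real.log ((x : ℝ) + 2) := by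
      filter_upwards [eventually_ge_atTop 3] with x g2
      have hx3 : (3 : ℝ) ≤ x := by exact_mod_cast g2
      have : Real.log 2 ≤ Real.log ((x : ℝ) + 2) := Real.log_le_log (by norm_num) (by linarith)
      have := Real.log_two_gt_d9
      linarith
    obtain ⟨x, g1, g2, g3⟩ := (h4.and (h7.and (h6.eventually_ge_atTop (((hfin.toFinset.card : ℝ) + 1) / c)))).exists
    have g4 := h5 x
    have g5 : 0 < 2 * Real.log ((x : ℝ) + 2) := by linarith
    rw [le_div_iff₀ g5, div_mul_eq_mul_div, div_le_iff₀ hc] at g3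
    nlinarith
  · rw [Nat.cofinite_eq_atTop]
    have := big2 hκ hE
    refine this.congr fun x => ?_
    rw [EE2]

theorem two_lln {z : ℕ → ℕ} (hz : ∀ᶠ n : ℕ in atTop, ex z n ≤ 1) {κ : ℝ} (hκ : 0 < κ)
    (hE : ∀ᶠ x : ℕ in atTop, κ * (x / Real.log x ^ 4) ≤ expd2 z x)
    (hS : ∀ n, MeasurableSet[ℱ n] (S n)) (hr : ∀ n, ¬ Rough z n → S n = ∅)
    (h : ∀ᵐ ω ∂μ, Tendsto (fun n : ℕ => Pr μ ℱ S n ω * Real.log n / V (z (n + 1)))
      (atTop ⊓ 𝓟 {n : ℕ | Rough z (n + 1)}) (𝓝 1)) :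
    ∀ᵐ ω ∂μ, Tendsto (fun x : ℕ => (cnt2 S ω x : ℝ) / expd2 z x) atTop (𝓝 1) := by
  have h1 := model_lln (μ := μ) (ℱ := ℱ) (ι := ℕ) (f := fun _ => f2) (k := 2) (J := fun x => Icc 1 x)
    (fun x => ok2 2 _) (t := fun x => 2 * Real.log ((x : ℝ) + 2)) summ2 hz ?_ hS hr h
  · filter_upwards [h1] with ω h2
    rw [Metric.tendsto_nhds]
    intro ε hε
    have h3 := h2 (ε / 2) (by positivity)
    rw [Nat.cofinite_eq_atTop] at h3
    filter_upwards [h3, hE, eventually_ge_atTop 3] with x g1 g2 g3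
    rw [EE2, cntT2] at g1
    have hx3 : (3 : ℝ) ≤ x := by exact_mod_cast g3
    have hlx : 0 < Real.log x := Real.log_pos (by linarith)
    have g4 : 0 < expd2 z x := lt_of_lt_of_le (by positivity) g2
    rw [Real.dist_eq]
    have g5 : (cnt2 S ω x : ℝ) / expd2 z x - 1 = ((cnt2 S ω x : ℝ) - expd2 z x) / expd2 z x := by
      field_simp
    rw [g5, abs_div, abs_of_pos g4, div_lt_iff₀ g4]
    nlinarith
  · rw [Nat.cofinite_eq_atTop]
    have := big2 hκ hE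
    refine this.congr fun x => ?_
    rw [EE2]

end Pool.Agent.D0H68.TU
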