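import Pool.Agent.D0H68.TU.Mart2

/-! Tuples of adapted events: lower bounds and the law of large numbers. -/

set_option autoImplicit false

open MeasureTheory Filter Finset
open scoped Topology

namespace Pool.Agent.D0H68.TU

open Pool.Agent.D0H68.SD

variable {Ω : Type} {m0 : MeasurableSpace Ω} {μ : Measure Ω} [IsProbabilityMeasure μ]
  {ℱ : Filtration ℕ m0} {S : ℕ → Set Ω}

/-- the first `r` forms are chosen, the others are replaced by their expectations -/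
noncomputable def Nn (S : ℕ → Set Ω) (a : ℕ → ℝ) (f : ℕ → ℕ → ℕ) (k : ℕ) (J : Finset ℕ) (r : ℕ) (ω : Ω) : ℝ :=
  ∑ m ∈ J, (∏ i ∈ Ico r k, a (f i m)) * ∏ i ∈ range r, In S (f i m) ω

/-- the compensator -/
noncomputable def An (μ : Measure Ω) (ℱ : Filtration ℕ m0) (S : ℕ → Set Ω) (a : ℕ → ℝ) (f : ℕ → ℕ → ℕ) (k : ℕ)
    (J : Finset ℕ) (r : ℕ) (ω : Ω) : ℝ :=
  ∑ m ∈ J, ((∏ i ∈ Ico (r + 1) k, a (f i m)) * ∏ i ∈ range r, In S (f i m) ω) * Pr μ ℱ S (f r m - 1) ω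

/-- the conditions on the forms -/
structure OK (f : ℕ → ℕ → ℕ) (k : ℕ) (J : Finset ℕ) : Prop where
  lt : ∀ m ∈ J, ∀ i, i + 1 < k → f i m < f (i + 1) m
  inj : ∀ i < k, Set.InjOn (f i) J
  one : ∀ i < k, ∀ m ∈ J, 1 ≤ f i m

theorem OK.lt' {f : ℕ → ℕ → ℕ} {k : ℕ} {J : Finset ℕ} (h : OK f k J) {m : ℕ} (hm : m ∈ J) {r : ℕ} (hr : r < k) :
    ∀ i < r, f i m < f r m := by
  induction r with
  | zero => intro i hi; omega
  | succ r ih =>
    intro i hi
    have h1 := h.lt m hm r hr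
    rcases Nat.lt_succ_iff_lt_or_eq.1 hi with h2 | h2
    · exact (ih (by omega) i h2).trans h1
    · rw [h2]; exact h1

section
variable {a : ℕ → ℝ} (ha0 : ∀ n, 0 ≤ a n) (ha1 : ∀ n, a n ≤ 1) {f : ℕ → ℕ → ℕ} {k : ℕ} {J : Finset ℕ}

omit [IsProbabilityMeasure μ] in
theorem prod_In_nonneg (r m : ℕ) (ω : Ω) : 0 ≤ ∏ i ∈ range r, In S (f i m) ω :=
  prod_nonneg fun _ _ => In_nonneg _ _

omit [IsProbabilityMeasure μ] in
theorem prod_In_le (r m : ℕ) (ω : Ω) : ∏ i ∈ range r, In S (f i m) ω ≤ 1 :=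
  prod_le_one (fun _ _ => In_nonneg _ _) fun _ _ => In_le _ _

include ha0 ha1 in
omit [IsProbabilityMeasure μ] in
theorem u_bd (s r m : ℕ) (ω : Ω) : 0 ≤ (∏ i ∈ Ico s k, a (f i m)) * ∏ i ∈ range r, In S (f i m) ω ∧
    (∏ i ∈ Ico s k, a (f i m)) * ∏ i ∈ range r, In S (f i m) ω ≤ 1 :=
  ⟨mul_nonneg (prod_nonneg fun _ _ => ha0 _) (prod_In_nonneg r m ω),
    mul_le_one₀ (prod_le_one (fun _ _ => ha0 _) fun _ _ => ha1 _) (prod_In_nonneg r m ω) (prod_In_le r m ω)⟩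

include ha0 ha1 in
/-- the tail inequality for one stage -/
theorem stage_tail (hS : ∀ n, MeasurableSet[ℱ n] (S n)) (hf : OK f k J) {r : ℕ} (hr : r < k) (s t : ℝ) :
    μ {ω | t ≤ s * Nn S a f k J (r + 1) ω - (Real.exp s - 1) * An μ ℱ S a f k J r ω} ≤
      ENNReal.ofReal (Real.exp (-t)) := by
  have h := step_tail (μ := μ) hS J (f r) (hf.inj r hr) (hf.one r hr)
    (fun m ω => (∏ i ∈ Ico (r + 1) k, a (f i m)) * ∏ i ∈ range r, In S (f i m) ω) ?_
    (fun m _ ω => (u_bd ha0 ha1 _ _ _ ω).1) (fun m _ ω => (u_bd ha0 ha1 _ _ _ ω).2) s t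
  · refine le_trans (le_of_eq ?_) h
    congr 1
    ext ω
    simp only [Set.mem_ofPred_eq]
    have e : Nn S a f k J (r + 1) ω = ∑ m ∈ J, (∏ i ∈ Ico (r + 1) k, a (f i m)) *
        (∏ i ∈ range r, In S (f i m) ω) * In S (f r m) ω := by
      unfold Nn
      apply sum_congr rfl
      intro m _
      rw [prod_range_succ, mul_assoc]
    rw [e]
    rfl
  · intro m hm
    apply StronglyMeasurable.const_mul
    apply Finset.stronglyMeasurable_fun_prod
    intro i hi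
    rw [mem_range] at hi
    have h1 := hf.lt' hm hr i hi
    exact (In_meas hS (f i m)).mono (ℱ.mono (by omega))

theorem exp_le_one_add {e : ℝ} (h0 : 0 < e) (h1 : e ≤ 1) : Real.exp e - 1 ≤ e * (1 + e) ∧
    e * (1 - e) ≤ 1 - Real.exp (-e) := by
  have h2 := abs_le.1 (Real.abs_exp_sub_one_sub_id_le (x := e) (by rw [abs_of_pos h0]; exact h1))
  have h3 := abs_le.1 (Real.abs_exp_sub_one_sub_id_le (x := -e) (by rw [abs_neg, abs_of_pos h0]; exact h1))
  constructor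
  · nlinarith [h2.2]
  · nlinarith [h3.2]

theorem stage_ineq {e t X A : ℝ} (h0 : 0 < e) (h1 : e ≤ 1) (hA : 0 ≤ A)
    (hp : ¬ t ≤ e * X - (Real.exp e - 1) * A) (hn : ¬ t ≤ -e * X - (Real.exp (-e) - 1) * A) :
    (1 - e) * A - t / e ≤ X ∧ X ≤ (1 + e) * A + t / e := by
  obtain ⟨h2, h3⟩ := exp_le_one_add h0 h1
  push Not at hp hn
  constructor
  · have h4 : (e * (1 - e)) * A ≤ (1 - Real.exp (-e)) * A := mul_le_mul_of_nonneg_right h3 hA
    have h5 : e * ((1 - e) * A - t / e) ≤ e * X := by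
      have : e * (t / e) = t := by field_simp
      nlinarith
    exact le_of_mul_le_mul_left h5 h0
  · have h4 : (Real.exp e - 1) * A ≤ (e * (1 + e)) * A := mul_le_mul_of_nonneg_right h2 hA
    have h5 : e * X ≤ e * ((1 + e) * A + t / e) := by
      have : e * (t / e) = t := by field_simp
      nlinarith
    exact le_of_mul_le_mul_left h5 h0

omit [IsProbabilityMeasure μ] in
include ha0 in
theorem An_nonneg {ω : Ω} (hP : ∀ n, 0 ≤ Pr μ ℱ S n ω) (r : ℕ) : 0 ≤ An μ ℱ S a f k J r ω :=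
  sum_nonneg fun m _ => mul_nonneg (mul_nonneg (prod_nonneg fun _ _ => ha0 _) (prod_In_nonneg r m ω)) (hP _)

theorem Nn_split {r : ℕ} (hr : r < k) (ω : Ω) : Nn S a f k J r ω =
    ∑ m ∈ J, ((∏ i ∈ Ico (r + 1) k, a (f i m)) * ∏ i ∈ range r, In S (f i m) ω) * a (f r m) := by
  unfold Nn
  apply sum_congr rfl
  intro m _
  rw [prod_eq_prod_Ico_succ_bot hr]
  ring

theorem few (hf : OK f k J) {r : ℕ} (hr : r < k) (n0 : ℕ) : ((J.filter fun m => f r m ≤ n0).card : ℝ) ≤ n0 := by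
  have h1 : (J.filter fun m => f r m ≤ n0).card ≤ (Finset.Icc 1 n0).card := by
    apply card_le_card_of_injOn (f r)
    · intro m hm
      rw [Finset.mem_coe, mem_filter] at hm
      rw [Finset.mem_coe, mem_Icc]
      exact ⟨hf.one r hr m hm.1, hm.2⟩
    · intro m hm m' hm' h
      rw [Finset.mem_coe, mem_filter] at hm hm'
      exact hf.inj r hr hm.1 hm'.1 h
  rw [Nat.card_Icc, Nat.add_sub_cancel] at h1
  exact_mod_cast h1

omit [IsProbabilityMeasure μ] in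
include ha0 ha1 in
theorem An_low (hf : OK f k J) {r : ℕ} (hr : r < k) {ω : Ω} (hP : ∀ n, 0 ≤ Pr μ ℱ S n ω) {c : ℝ} (hc0 : 0 ≤ c)
    (hc1 : c ≤ 1) {n0 : ℕ} (h : ∀ n, n0 ≤ n → c * a (n + 1) ≤ Pr μ ℱ S n ω) :
    c * Nn S a f k J r ω - n0 ≤ An μ ℱ S a f k J r ω := by
  rw [Nn_split hr, mul_sum]
  have h1 : ∀ m ∈ J, c * (((∏ i ∈ Ico (r + 1) k, a (f i m)) * ∏ i ∈ range r, In S (f i m) ω) * a (f r m)) ≤
      ((∏ i ∈ Ico (r + 1) k, a (f i m)) * ∏ i ∈ range r, In S (f i m) ω) * Pr μ ℱ S (f r m - 1) ω +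
        (if f r m ≤ n0 then 1 else 0) := by
    intro m hm
    obtain ⟨u0, u1⟩ := u_bd (S := S) (f := f) (k := k) ha0 ha1 (r + 1) r m ω
    set u := (∏ i ∈ Ico (r + 1) k, a (f i m)) * ∏ i ∈ range r, In S (f i m) ω with hu
    split_ifs with h2
    · have h3 : c * (u * a (f r m)) ≤ 1 :=
        mul_le_one₀ hc1 (mul_nonneg u0 (ha0 _)) (mul_le_one₀ u1 (ha0 _) (ha1 _))
      have h4 : 0 ≤ u * Pr μ ℱ S (f r m - 1) ω := mul_nonneg u0 (hP _)
      linarith
    · have h3 := hf.one r hr m hm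
      have h4 := h (f r m - 1) (by omega)
      rw [Nat.sub_add_cancel h3] at h4
      have h5 := mul_le_mul_of_nonneg_left h4 u0
      nlinarith
  have h2 := sum_le_sum h1
  rw [sum_add_distrib] at h2
  have h3 : ∑ m ∈ J, (if f r m ≤ n0 then (1 : ℝ) else 0) ≤ n0 := by
    rw [← sum_filter, sum_const, nsmul_eq_mul, mul_one]
    exact few hf hr n0
  unfold An
  linarith

omit [IsProbabilityMeasure μ] in
include ha0 ha1 in
theorem An_up (hf : OK f k J) {r : ℕ} (hr : r < k) {ω : Ω} (hP1 : ∀ n, Pr μ ℱ S n ω ≤ 1) {c : ℝ} (hc0 : 0 ≤ c)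
    {n0 : ℕ} (h : ∀ n, n0 ≤ n → Pr μ ℱ S n ω ≤ c * a (n + 1)) :
    An μ ℱ S a f k J r ω ≤ c * Nn S a f k J r ω + n0 := by
  rw [Nn_split hr, mul_sum]
  have h1 : ∀ m ∈ J, ((∏ i ∈ Ico (r + 1) k, a (f i m)) * ∏ i ∈ range r, In S (f i m) ω) * Pr μ ℱ S (f r m - 1) ω ≤
      c * (((∏ i ∈ Ico (r + 1) k, a (f i m)) * ∏ i ∈ range r, In S (f i m) ω) * a (f r m)) +
        (if f r m ≤ n0 then 1 else 0) := by
    intro m hm
    obtain ⟨u0, u1⟩ := u_bd (S := S) (f := f) (k := k) ha0 ha1 (r + 1) r m ω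
    set u := (∏ i ∈ Ico (r + 1) k, a (f i m)) * ∏ i ∈ range r, In S (f i m) ω with hu
    split_ifs with h2
    · have h3 : u * Pr μ ℱ S (f r m - 1) ω ≤ 1 := by
        calc u * Pr μ ℱ S (f r m - 1) ω ≤ u * 1 := mul_le_mul_of_nonneg_left (hP1 _) u0
          _ ≤ 1 := by rw [mul_one]; exact u1
      have h4 : 0 ≤ c * (u * a (f r m)) := mul_nonneg hc0 (mul_nonneg u0 (ha0 _))
      linarith
    · have h3 := hf.one r hr m hm
      have h4 := h (f r m - 1) (by omega)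
      rw [Nat.sub_add_cancel h3] at h4
      have h5 := mul_le_mul_of_nonneg_left h4 u0
      nlinarith
  have h2 := sum_le_sum h1
  rw [sum_add_distrib] at h2
  have h3 : ∑ m ∈ J, (if f r m ≤ n0 then (1 : ℝ) else 0) ≤ n0 := by
    rw [← sum_filter, sum_const, nsmul_eq_mul, mul_one]
    exact few hf hr n0
  unfold An
  linarith

end

theorem chain_low {N : ℕ → ℝ} {α D : ℝ} (h0 : 0 ≤ α) (h1 : α ≤ 1) (hD : 0 ≤ D) {k : ℕ}
    (h : ∀ r < k, α * N r - D ≤ N (r + 1)) : α ^ k * N 0 - k * D ≤ N k := by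
  induction k with
  | zero => simp
  | succ k ih =>
    have h2 := ih fun r hr => h r (by omega)
    have h3 := h k (by omega)
    have h4 := mul_le_mul_of_nonneg_left h2 h0
    have h5 : α * (k * D) ≤ k * D := mul_le_of_le_one_left (mul_nonneg (Nat.cast_nonneg _) hD) h1
    rw [pow_succ]
    push_cast
    nlinarith

theorem chain_up {N : ℕ → ℝ} {β D : ℝ} (h1 : 1 ≤ β) (hD : 0 ≤ D) {k : ℕ}
    (h : ∀ r < k, N (r + 1) ≤ β * N r + D) : N k ≤ β ^ k * (N 0 + k * D) := by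
  induction k with
  | zero => simp
  | succ k ih =>
    have h2 := ih fun r hr => h r (by omega)
    have h3 := h k (by omega)
    have h4 := mul_le_mul_of_nonneg_left h2 (zero_le_one.trans h1)
    have h5 : D ≤ β ^ (k + 1) * D := le_mul_of_one_le_left hD (one_le_pow₀ h1)
    rw [pow_succ] at h5 ⊢
    push_cast
    nlinarith

/-! ### The almost sure statements -/

section
variable {ι : Type} [Countable ι] {a : ℕ → ℝ} (ha0 : ∀ n, 0 ≤ a n) (ha1 : ∀ n, a n ≤ 1)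
  {f : ι → ℕ → ℕ → ℕ} {k : ℕ} {J : ι → Finset ℕ} (hf : ∀ i, OK (f i) k (J i)) {t : ι → ℝ}
  (ht : Summable fun i => Real.exp (-t i)) (hS : ∀ n, MeasurableSet[ℱ n] (S n))

include ha0 ha1 hf ht hS in
theorem stages : ∀ᵐ ω ∂μ, ∀ q : ℕ, ∀ r < k, ∀ᶠ i in cofinite,
    (1 - 1 / ((q : ℝ) + 2)) * An μ ℱ S a (f i) k (J i) r ω - t i / (1 / ((q : ℝ) + 2)) ≤
      Nn S a (f i) k (J i) (r + 1) ω ∧
    Nn S a (f i) k (J i) (r + 1) ω ≤
      (1 + 1 / ((q : ℝ) + 2)) * An μ ℱ S a (f i) k (J i) r ω + t i / (1 / ((q : ℝ) + 2)) := by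
  have hP : ∀ᵐ ω ∂μ, ∀ n, 0 ≤ Pr μ ℱ S n ω ∧ Pr μ ℱ S n ω ≤ 1 := ae_all_iff.2 fun n => Pr_bd hS n
  rw [ae_all_iff]
  intro q
  rw [ae_all_iff]
  intro r
  by_cases hr : r < k
  · have hsum : ∑' i, ENNReal.ofReal (Real.exp (-t i)) ≠ ⊤ := by
      rw [← ENNReal.ofReal_tsum_of_nonneg (fun _ => Real.exp_nonneg _) ht]
      exact ENNReal.ofReal_ne_top
    have key : ∀ s : ℝ, ∀ᵐ ω ∂μ, ∀ᶠ i in cofinite,
        ¬ t i ≤ s * Nn S a (f i) k (J i) (r + 1) ω - (Real.exp s - 1) * An μ ℱ S a (f i) k (J i) r ω := by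
      intro s
      have h1 : ∑' i, μ {ω | t i ≤ s * Nn S a (f i) k (J i) (r + 1) ω -
          (Real.exp s - 1) * An μ ℱ S a (f i) k (J i) r ω} ≠ ⊤ :=
        ne_top_of_le_ne_top hsum (ENNReal.tsum_le_tsum fun i => stage_tail ha0 ha1 hS (hf i) hr s (t i))
      have h2 := ae_finite_setOfPred_mem h1
      filter_upwards [h2] with ω hω
      rw [eventually_cofinite]
      simpa using hω
    have hq0 : (0 : ℝ) < 1 / ((q : ℝ) + 2) := by positivity
    have hq1 : 1 / ((q : ℝ) + 2) ≤ 1 := by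
      rw [div_le_one (by positivity)]
      have : (0 : ℝ) ≤ q := Nat.cast_nonneg q
      linarith
    filter_upwards [key (1 / ((q : ℝ) + 2)), key (-(1 / ((q : ℝ) + 2))), hP] with ω h1 h2 h3 _
    filter_upwards [h1, h2] with i h4 h5
    exact stage_ineq hq0 hq1 (An_nonneg ha0 (fun n => (h3 n).1) r) h4 h5
  · exact ae_of_all _ fun ω h => absurd h hr

include ht in
theorem t_large : Tendsto t cofinite atTop := by
  have h1 := ht.tendsto_cofinite_zero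
  rw [tendsto_atTop]
  intro b
  have h2 : ∀ᶠ i in cofinite, Real.exp (-t i) < Real.exp (-b) := h1.eventually_lt_const (Real.exp_pos _)
  filter_upwards [h2] with i hi
  have := Real.exp_lt_exp.1 hi
  linarith

include ht in
/-- the errors are negligible -/
theorem small_err {E : ι → ℝ} (hE : Tendsto (fun i => E i / t i) cofinite atTop) (n0 : ℕ) {C δ : ℝ} (hC : 0 ≤ C)
    (hδ : 0 < δ) : ∀ᶠ i in cofinite, 0 < t i ∧ 0 < E i ∧ n0 + C * t i ≤ δ * E i := by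
  have h1 := (t_large ht).eventually_ge_atTop 1
  have h2 := hE.eventually_ge_atTop ((n0 + C + 1) / δ)
  filter_upwards [h1, h2] with i h3 h4
  have h5 : 0 < t i := by linarith
  rw [le_div_iff₀ h5] at h4
  have h6 : 0 ≤ (n0 : ℝ) := Nat.cast_nonneg _
  have h7 : 0 < (n0 + C + 1) / δ * t i := by positivity
  refine ⟨h5, by linarith, ?_⟩
  have h8 : (n0 + C + 1) * t i ≤ δ * E i := by
    have := mul_le_mul_of_nonneg_left h4 hδ.le
    have h9 : δ * ((n0 + C + 1) / δ * t i) = (n0 + C + 1) * t i := by field_simp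
    linarith
  nlinarith

include ha0 ha1 hf ht hS in
/-- **Lower bound for tuples.** -/
theorem tuples_low (h : ∀ᵐ ω ∂μ, ∃ c : ℝ, 0 < c ∧ ∀ᶠ n : ℕ in atTop, c * a (n + 1) ≤ Pr μ ℱ S n ω)
    {E : ι → ℝ} (hEd : ∀ i, E i = ∑ m ∈ J i, ∏ j ∈ range k, a (f i j m))
    (hE : Tendsto (fun i => E i / t i) cofinite atTop) :
    ∀ᵐ ω ∂μ, ∃ κ : ℝ, 0 < κ ∧ ∀ᶠ i in cofinite, κ * E i ≤ Nn S a (f i) k (J i) k ω := by
  have hP : ∀ᵐ ω ∂μ, ∀ n, 0 ≤ Pr μ ℱ S n ω ∧ Pr μ ℱ S n ω ≤ 1 := ae_all_iff.2 fun n => Pr_bd hS n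
  filter_upwards [stages ha0 ha1 hf ht hS, h, hP] with ω h1 h2 h3
  obtain ⟨c', hc', h4⟩ := h2
  obtain ⟨n0, h5⟩ := eventually_atTop.1 h4
  set c : ℝ := min c' 1 with hc
  have hc0 : 0 < c := lt_min hc' one_pos
  have hc1 : c ≤ 1 := min_le_right _ _
  have h6 : ∀ n, n0 ≤ n → c * a (n + 1) ≤ Pr μ ℱ S n ω := fun n hn =>
    (mul_le_mul_of_nonneg_right (min_le_left _ _) (ha0 _)).trans (h5 n hn)
  refine ⟨(c / 2) ^ k / 2, by positivity, ?_⟩
  have h7 : ∀ᶠ i in cofinite, ∀ r < k,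
      c / 2 * Nn S a (f i) k (J i) r ω - (n0 + 2 * t i) ≤ Nn S a (f i) k (J i) (r + 1) ω := by
    have h8 : ∀ r ∈ range k, ∀ᶠ i in cofinite, 
      c / 2 * Nn S a (f i) k (J i) r ω - (n0 + 2 * t i) ≤ Nn S a (f i) k (J i) (r + 1) ω := by
      intro r hr
      rw [mem_range] at hr
      filter_upwards [h1 0 r hr] with i h9
      have h10 := An_low (μ := μ) (ℱ := ℱ) ha0 ha1 (hf i) hr (fun n => (h3 n).1) hc0.le hc1 h6
      have h11 := h9.1
      norm_num at h11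
      have : (0 : ℝ) ≤ n0 := Nat.cast_nonneg _
      linarith
    have h9 := (eventually_all_finset (l := cofinite) (range k)).2 h8
    filter_upwards [h9] with i hi r hr
    exact hi r (mem_range.2 hr)
  have h8 := small_err ht hE (n0 * k) (C := 2 * k) (δ := (c / 2) ^ k / 2) (by positivity) (by positivity)
  filter_upwards [h7, h8] with i h9 h10
  obtain ⟨ht0, hE0, h11⟩ := h10
  have h12 := chain_low (N := fun r => Nn S a (f i) k (J i) r ω) (α := c / 2) (D := n0 + 2 * t i) (by positivity)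
    (by linarith) (by positivity) h9
  have h13 : Nn S a (f i) k (J i) 0 ω = E i := by
    rw [hEd i]
    unfold Nn
    simp
  simp only [h13] at h12
  push_cast at h11
  nlinarith

include ha0 ha1 hf ht hS in
/-- **The law of large numbers for tuples.** -/
theorem tuples_lln (h : ∀ᵐ ω ∂μ, ∀ e : ℝ, 0 < e → ∀ᶠ n : ℕ in atTop,
      (1 - e) * a (n + 1) ≤ Pr μ ℱ S n ω ∧ Pr μ ℱ S n ω ≤ (1 + e) * a (n + 1))
    {E : ι → ℝ} (hEd : ∀ i, E i = ∑ m ∈ J i, ∏ j ∈ range k, a (f i j m))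
    (hE : Tendsto (fun i => E i / t i) cofinite atTop) :
    ∀ᵐ ω ∂μ, ∀ δ : ℝ, 0 < δ → ∀ᶠ i in cofinite, |Nn S a (f i) k (J i) k ω - E i| ≤ δ * E i := by
  have hP : ∀ᵐ ω ∂μ, ∀ n, 0 ≤ Pr μ ℱ S n ω ∧ Pr μ ℱ S n ω ≤ 1 := ae_all_iff.2 fun n => Pr_bd hS n
  filter_upwards [stages ha0 ha1 hf ht hS, h, hP] with ω h1 h2 h3 δ hδ
  -- the choice of `q`
  obtain ⟨q, hqδ⟩ : ∃ q : ℕ, 1 - δ / 2 ≤ ((1 - 1 / ((q : ℝ) + 2)) ^ 2) ^ k ∧
      ((1 + 1 / ((q : ℝ) + 2)) ^ 2) ^ k ≤ 1 + δ / 2 := by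
    have l0 : Tendsto (fun q : ℕ => 1 / ((q : ℝ) + 2)) atTop (𝓝 0) := by
      have := (tendsto_natCast_atTop_atTop (R := ℝ)).atTop_add (tendsto_const_nhds (x := (2 : ℝ)))
      exact this.const_div_atTop 1
    have l1 : Tendsto (fun q : ℕ => ((1 - 1 / ((q : ℝ) + 2)) ^ 2) ^ k) atTop (𝓝 (((1 - 0) ^ 2) ^ k)) :=
      ((l0.const_sub 1).pow 2).pow k
    have l2 : Tendsto (fun q : ℕ => ((1 + 1 / ((q : ℝ) + 2)) ^ 2) ^ k) atTop (𝓝 (((1 + 0) ^ 2) ^ k)) :=
      ((l0.const_add 1).pow 2).pow k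
    norm_num at l1 l2
    have e1 := l1.eventually_const_lt (show 1 - δ / 2 < 1 by linarith)
    have e2 := l2.eventually_lt_const (show 1 < 1 + δ / 2 by linarith)
    obtain ⟨q, hq⟩ := (e1.and e2).exists
    refine ⟨q, ?_, ?_⟩
    · simpa using hq.1.le
    · simpa using hq.2.le
  set e : ℝ := 1 / ((q : ℝ) + 2) with he
  have he0 : 0 < e := by rw [he]; positivity
  have he1 : e ≤ 1 / 2 := by
    rw [he]
    apply one_div_le_one_div_of_le (by norm_num)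
    have : (0 : ℝ) ≤ q := Nat.cast_nonneg q
    linarith
  obtain ⟨n0, h5⟩ := eventually_atTop.1 (h2 e he0)
  have h7 : ∀ᶠ i in cofinite, ∀ r < k,
      ((1 - e) ^ 2 * Nn S a (f i) k (J i) r ω - (2 * n0 + t i / e) ≤ Nn S a (f i) k (J i) (r + 1) ω) ∧
      (Nn S a (f i) k (J i) (r + 1) ω ≤ (1 + e) ^ 2 * Nn S a (f i) k (J i) r ω + (2 * n0 + t i / e)) := by
    have h8 : ∀ r ∈ range k, ∀ᶠ i in cofinite,
      ((1 - e) ^ 2 * Nn S a (f i) k (J i) r ω - (2 * n0 + t i / e) ≤ Nn S a (f i) k (J i) (r + 1) ω) ∧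
      (Nn S a (f i) k (J i) (r + 1) ω ≤ (1 + e) ^ 2 * Nn S a (f i) k (J i) r ω + (2 * n0 + t i / e)) := by
      intro r hr
      rw [mem_range] at hr
      filter_upwards [h1 q r hr] with i h9
      rw [← he] at h9
      have h10 := An_low (μ := μ) (ℱ := ℱ) ha0 ha1 (hf i) hr (fun n => (h3 n).1) (c := 1 - e) (by linarith)
        (by linarith) (fun n hn => (h5 n hn).1)
      have h11 := An_up (μ := μ) (ℱ := ℱ) ha0 ha1 (hf i) hr (fun n => (h3 n).2) (c := 1 + e) (by linarith)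
        (fun n hn => (h5 n hn).2)
      have hn : (0 : ℝ) ≤ n0 := Nat.cast_nonneg _
      constructor
      · have := mul_le_mul_of_nonneg_left h10 (show 0 ≤ 1 - e by linarith)
        nlinarith [h9.1]
      · have := mul_le_mul_of_nonneg_left h11 (show 0 ≤ 1 + e by linarith)
        nlinarith [h9.2]
    have h9 := (eventually_all_finset (l := cofinite) (range k)).2 h8
    filter_upwards [h9] with i hi r hr
    exact hi r (mem_range.2 hr)
  have h8 := small_err ht hE (n0 * (2 * k)) (C := k / e) (δ := δ / 2 / (1 + δ / 2)) (by positivity) (by positivity)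
  filter_upwards [h7, h8] with i h9 h10
  obtain ⟨ht0, hE0, h11⟩ := h10
  have h13 : Nn S a (f i) k (J i) 0 ω = E i := by
    rw [hEd i]
    unfold Nn
    simp
  have hD0 : 0 ≤ 2 * (n0 : ℝ) + t i / e := by positivity
  have h12 := chain_low (N := fun r => Nn S a (f i) k (J i) r ω) (α := (1 - e) ^ 2) (D := 2 * n0 + t i / e)
    (by positivity) (by nlinarith) hD0 fun r hr => (h9 r hr).1
  have h14 := chain_up (N := fun r => Nn S a (f i) k (J i) r ω) (β := (1 + e) ^ 2) (D := 2 * n0 + t i / e)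
    (by nlinarith) hD0 fun r hr => (h9 r hr).2
  simp only [h13] at h12 h14
  have h15 : (k : ℝ) * (2 * n0 + t i / e) ≤ δ / 2 / (1 + δ / 2) * E i := by
    refine le_trans (le_of_eq ?_) h11
    push_cast
    ring
  have h16 : δ / 2 / (1 + δ / 2) * E i ≤ δ / 2 * E i := by
    apply mul_le_mul_of_nonneg_right _ hE0.le
    exact div_le_self (by positivity) (by linarith)
  rw [abs_le]
  constructor
  · have := mul_le_mul_of_nonneg_right hqδ.1 hE0.le
    nlinarith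
  · have h17 : (((1 + e) ^ 2) ^ k) * (E i + k * (2 * n0 + t i / e)) ≤
        (1 + δ / 2) * (E i + δ / 2 / (1 + δ / 2) * E i) := by
      apply mul_le_mul hqδ.2 (by linarith) (by positivity) (by positivity)
    have h18 : (1 + δ / 2) * (E i + δ / 2 / (1 + δ / 2) * E i) = (1 + δ / 2) * E i + δ / 2 * E i := by
      field_simp
    linarith

end

end Pool.Agent.D0H68.TU
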