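import Pool.Agent.D0H68.TU.Mod
import Pool.Agent.D0H65.LP.Siv
import Pool.Agent.D0H13.LP.Mer

/-! The pairs `m ^ 2 + 1`, `m ^ 2 + 3` in sieved models. -/

set_option autoImplicit false

open MeasureTheory Filter Finset
open scoped Topology

namespace Pool.Agent.D0H68.TU

open Pool.Agent.D0H68.SD Pool.Agent.D0H41.LP

open Classical in
/-- the expected number of `m ≤ x` for which `m ^ 2 + 1` and `m ^ 2 + 3` are both chosen -/
noncomputable def expd2 (z : ℕ → ℕ) (x : ℕ) : ℝ :=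
  ∑ m ∈ (Icc 1 x).filter (fun m => Rough z (m ^ 2 + 1) ∧ Rough z (m ^ 2 + 3)),
    V (z (m ^ 2 + 1)) / Real.log ((m ^ 2 + 1 : ℕ) : ℝ) * (V (z (m ^ 2 + 3)) / Real.log ((m ^ 2 + 3 : ℕ) : ℝ))

open Classical in
/-- the number of `m ≤ x` for which `m ^ 2 + 1` and `m ^ 2 + 3` are both chosen -/
noncomputable def cnt2 {Ω : Type} (S : ℕ → Set Ω) (ω : Ω) (x : ℕ) : ℕ :=
  ((Icc 1 x).filter (fun m => ω ∈ S (m ^ 2 + 1) ∧ ω ∈ S (m ^ 2 + 3))).card

/-- the two forms -/
def f2 (i m : ℕ) : ℕ := m ^ 2 + 1 + 2 * i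

theorem f20 (m : ℕ) : f2 0 m = m ^ 2 + 1 := rfl
theorem f21 (m : ℕ) : f2 1 m = m ^ 2 + 3 := rfl

theorem ok2 (k : ℕ) (J : Finset ℕ) : OK f2 k J := by
  refine ⟨fun m _ i _ => ?_, fun i _ m _ m' _ h => ?_, fun i _ m _ => ?_⟩
  · unfold f2; omega
  · unfold f2 at h
    have : m ^ 2 = m' ^ 2 := by omega
    exact Nat.pow_left_injective (n := 2) (by norm_num) this
  · unfold f2; omega

theorem EE2 (z : ℕ → ℕ) (x : ℕ) : EE z f2 2 (Icc 1 x) = expd2 z x := by
  classical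
  unfold EE expd2
  rw [sum_filter]
  refine sum_congr rfl fun m _ => ?_
  rw [prod_range_succ, prod_range_one, f20, f21]
  unfold ex
  by_cases h1 : Rough z (m ^ 2 + 1)
  · by_cases h2 : Rough z (m ^ 2 + 3)
    · rw [if_pos h1, if_pos h2, if_pos ⟨h1, h2⟩]
    · rw [if_neg h2, mul_zero, if_neg (fun h => h2 h.2)]
  · rw [if_neg h1, zero_mul, if_neg (fun h => h1 h.1)]

theorem cntT2 {Ω : Type} (S : ℕ → Set Ω) (ω : Ω) (x : ℕ) : cntT S f2 2 (Icc 1 x) ω = cnt2 S ω x := by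
  classical
  unfold cntT cnt2
  congr 1
  refine filter_congr fun m _ => ?_
  constructor
  · intro h; exact ⟨h 0 (by norm_num), h 1 (by norm_num)⟩
  · rintro ⟨h1, h2⟩ i hi
    interval_cases i
    · exact h1
    · exact h2

theorem summ2 : Summable fun x : ℕ => Real.exp (-(2 * Real.log ((x : ℝ) + 2))) := by
  have h1 : Summable fun x : ℕ => 1 / ((x : ℝ) + 1) ^ 2 := by
    have := (summable_nat_add_iff 1).2 (Real.summable_one_div_nat_pow.2 (by norm_num : 1 < 2))
    simpa using this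
  refine Summable.of_nonneg_of_le (fun _ => Real.exp_nonneg _) (fun x => ?_) h1
  have h2 : (0 : ℝ) < (x : ℝ) + 2 := by positivity
  have h3 : Real.exp (-(2 * Real.log ((x : ℝ) + 2))) = 1 / ((x : ℝ) + 2) ^ 2 := by
    rw [Real.exp_neg, one_div]
    congr 1
    rw [mul_comm, Real.exp_mul, Real.exp_log h2]
    norm_num
  rw [h3]
  apply one_div_le_one_div_of_le (by positivity)
  gcongr
  norm_num

/-- **the sieve**: many `m ≤ x` for which both numbers are rough -/
theorem sift2 : ∃ θ : ℝ, 0 < θ ∧ ∃ κ : ℝ, 0 < κ ∧ ∀ z : ℕ → ℕ, (∀ᶠ n : ℕ in atTop, (z n : ℝ) ≤ (n : ℝ) ^ θ) →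
    ∀ N : ℕ, ∀ᶠ x : ℕ in atTop, ∃ A : Finset ℕ, A ⊆ Icc 1 x ∧ (∀ m ∈ A, N ≤ m ∧ Rough z (m ^ 2 + 1) ∧ Rough z (m ^ 2 + 3)) ∧
      κ * (x / Real.log x ^ 2) ≤ A.card := by
  classical
  obtain ⟨K, z0, hsiv⟩ := Pool.Agent.D0H65.LP.t_SIV (1 / 2) (by norm_num)
  obtain ⟨C, hC1, -, hmer⟩ := Pool.Agent.D0H13.LP.t_MERP
  set θ : ℝ := 1 / (3 * (K + 1)) with hθ
  have hK0 : (0 : ℝ) ≤ K := Nat.cast_nonneg K
  have hθ0 : 0 < θ := by rw [hθ]; positivity
  have hθ1 : θ ≤ 1 / 3 := by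
    rw [hθ]
    apply one_div_le_one_div_of_le (by norm_num)
    linarith
  have hθK : θ * K ≤ 1 / 3 := by
    rw [hθ, div_mul_eq_mul_div, div_le_div_iff₀ (by positivity) (by norm_num)]
    linarith
  have hC0 : 0 < C := by linarith
  refine ⟨θ, hθ0, 1 / (4 * C), by positivity, fun z hz N => ?_⟩
  obtain ⟨n0, hn0⟩ := eventually_atTop.1 hz
  have e1 : ∀ᶠ x : ℕ in atTop, ((z0 : ℝ) + 2) ≤ (x : ℝ) ^ θ :=
    tendsto_natCast_atTop_atTop.eventually ((tendsto_rpow_atTop hθ0).eventually_ge_atTop _)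
  have e2 : ∀ᶠ x : ℕ in atTop, ((n0 : ℝ) + N) ≤ 1 / (4 * C) * (x / Real.log x ^ 2) := by
    have h1 : Tendsto (fun x : ℕ => (x : ℝ) / Real.log x ^ 2) atTop atTop := by
      have h2 : Tendsto (fun x : ℝ => x / Real.log x ^ 2) atTop atTop := by
        have h3 := (isLittleO_log_rpow_atTop (show (0 : ℝ) < 1 / 4 by norm_num))
        have h4 := h3.bound (show (0 : ℝ) < 1 by norm_num)
        refine tendsto_atTop_mono' _ ?_ (tendsto_rpow_atTop (show (0 : ℝ) < 1 / 2 by norm_num))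
        filter_upwards [h4, eventually_gt_atTop 1] with x h5 h6
        have h7 : 0 < Real.log x := Real.log_pos h6
        have h8 : 0 < x := by linarith
        rw [Real.norm_of_nonneg h7.le, one_mul, Real.norm_of_nonneg (Real.rpow_nonneg h8.le _)] at h5
        rw [le_div_iff₀ (by positivity)]
        calc x ^ (1 / 2 : ℝ) * Real.log x ^ 2 ≤ x ^ (1 / 2 : ℝ) * (x ^ (1 / 4 : ℝ)) ^ 2 := by gcongr
          _ = x := by
            rw [← Real.rpow_natCast, ← Real.rpow_mul h8.le, ← Real.rpow_add h8]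
            norm_num
      exact h2.comp tendsto_natCast_atTop_atTop
    exact (h1.const_mul_atTop (by positivity)).eventually_ge_atTop _
  filter_upwards [e1, e2, eventually_ge_atTop 3] with x h1 h2 h3
  have hx3 : (3 : ℝ) ≤ x := by exact_mod_cast h3
  have hlx : 0 < Real.log x := Real.log_pos (by linarith)
  set Y : ℝ := (x : ℝ) ^ 2 + 3 with hY
  have hY1 : Y ≤ (x : ℝ) ^ 3 := by rw [hY]; nlinarith [sq_nonneg ((x : ℝ) - 3)]
  have hYx : (x : ℝ) ≤ Y := by rw [hY]; nlinarith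
  have hY0 : 0 < Y := by linarith
  set Z : ℕ := ⌊Y ^ θ⌋₊ with hZ
  have hZr : (Z : ℝ) ≤ Y ^ θ := Nat.floor_le (by positivity)
  have hxθ : (x : ℝ) ^ θ ≤ Y ^ θ := Real.rpow_le_rpow (by linarith) hYx hθ0.le
  have hZ2 : z0 + 2 ≤ Z := Nat.le_floor (by push_cast; linarith)
  have hZK : Z ^ K ≤ x := by
    have : (Z : ℝ) ^ K ≤ x := by
      calc (Z : ℝ) ^ K ≤ (Y ^ θ) ^ K := by gcongr
        _ = Y ^ (θ * K) := by rw [← Real.rpow_natCast, ← Real.rpow_mul hY0.le]
        _ ≤ ((x : ℝ) ^ 3) ^ (θ * K) := Real.rpow_le_rpow hY0.le hY1 (by positivity)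
        _ ≤ ((x : ℝ) ^ 3) ^ (1 / 3 : ℝ) := by
          apply Real.rpow_le_rpow_of_exponent_le _ hθK
          exact one_le_pow₀ (by linarith)
        _ = x := by
          rw [← Real.rpow_natCast, ← Real.rpow_mul (by linarith)]
          norm_num
    exact_mod_cast this
  have h4 := (abs_le.1 ((hsiv Z (by omega) x).1 hZK)).1
  have h5 := hmer Z (by omega)
  set B : Finset ℕ := (Icc 1 x).filter fun m => Sft Z m with hB
  have hlZ : 0 < Real.log Z := Real.log_pos (by exact_mod_cast (by omega : 1 < Z))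
  have hlZx : Real.log Z ≤ Real.log x := by
    apply Real.log_le_log (by exact_mod_cast (by omega : 0 < Z))
    calc (Z : ℝ) ≤ Y ^ θ := hZr
      _ ≤ ((x : ℝ) ^ 3) ^ θ := Real.rpow_le_rpow hY0.le hY1 hθ0.le
      _ ≤ ((x : ℝ) ^ 3) ^ (1 / 3 : ℝ) := by
        apply Real.rpow_le_rpow_of_exponent_le _ hθ1
        exact one_le_pow₀ (by linarith)
      _ = x := by
        rw [← Real.rpow_natCast, ← Real.rpow_mul (by linarith)]
        norm_num
  have h6 : 1 / (2 * C) * (x / Real.log x ^ 2) ≤ (B.card : ℝ) := by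
    have h7 : (x : ℝ) * VF Z / 2 ≤ (B.card : ℝ) := by
      have hcard : ∀ inst : DecidablePred fun m => Sft Z m,
          ((@Finset.filter ℕ (fun m => Sft Z m) inst (Icc 1 x)).card : ℝ) = (B.card : ℝ) := by
        intro inst; rw [hB]; congr
      rw [hcard] at h4
      linarith
    refine le_trans ?_ h7
    have h8 : 1 / (C * Real.log x ^ 2) ≤ VF Z := by
      refine le_trans ?_ h5
      apply one_div_le_one_div_of_le (by positivity)
      gcongr
    calc 1 / (2 * C) * (x / Real.log x ^ 2) = (x : ℝ) * (1 / (C * Real.log x ^ 2)) / 2 := by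
          field_simp
      _ ≤ (x : ℝ) * VF Z / 2 := by gcongr
  refine ⟨B.filter (fun m => n0 + N < m), (filter_subset _ _).trans (filter_subset _ _), ?_, ?_⟩
  · intro m hm
    rw [mem_filter, hB, mem_filter, mem_Icc] at hm
    obtain ⟨⟨⟨hm1, hm2⟩, hm3⟩, hm4⟩ := hm
    have hzm : ∀ i ≤ 3, z (m ^ 2 + i) ≤ Z := by
      intro i hi
      have hmm : m ≤ m ^ 2 := Nat.le_self_pow (by norm_num) m
      have h8 := hn0 (m ^ 2 + i) (by omega)
      apply Nat.le_floor
      refine h8.trans ?_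
      apply Real.rpow_le_rpow (by positivity) _ hθ0.le
      rw [hY]
      push_cast
      have : (m : ℝ) ≤ x := by exact_mod_cast hm2
      have : (i : ℝ) ≤ 3 := by exact_mod_cast hi
      have : (m : ℝ) ^ 2 ≤ (x : ℝ) ^ 2 := by gcongr
      linarith
    have hr : ∀ i ≤ 3, (m ^ 2 + i) ∣ F m → Rough z (m ^ 2 + i) := by
      intro i hi hd q hq hqz hqd
      refine hm3 q ?_ (hqd.trans hd)
      unfold P
      rw [mem_filter, mem_Icc]
      exact ⟨⟨hq.one_lt.le, hqz.trans (hzm i hi)⟩, hq⟩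
    refine ⟨by omega, hr 1 (by norm_num) ?_, hr 3 le_rfl ?_⟩
    · unfold F; exact Dvd.intro _ rfl
    · unfold F; exact Dvd.intro_left _ rfl
  · have h7 : B.card ≤ (B.filter (fun m => n0 + N < m)).card + (n0 + N) := by
      have h8 := card_filter_add_card_filter_not (s := B) (fun m => n0 + N < m)
      have h9 : (B.filter (fun m => ¬ n0 + N < m)).card ≤ n0 + N := by
        calc (B.filter (fun m => ¬ n0 + N < m)).card ≤ (Icc 1 (n0 + N)).card := by
              apply card_le_card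
              intro m hm
              rw [mem_filter, hB, mem_filter, mem_Icc] at hm
              rw [mem_Icc]
              omega
          _ = n0 + N := by rw [Nat.card_Icc]; omega
      omega
    have h8 : (B.card : ℝ) ≤ (B.filter (fun m => n0 + N < m)).card + (n0 + N) := by exact_mod_cast h7
    have h9 : 1 / (2 * C) * ((x : ℝ) / Real.log x ^ 2) = 1 / (4 * C) * (x / Real.log x ^ 2) + 1 / (4 * C) * (x / Real.log x ^ 2) := by
      ring
    linarith

end Pool.Agent.D0H68.TU
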